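import Mathlib

set_option autoImplicit false

open Filter Topology

namespace Pool.Agent.Results.MP_aca8be_co.BelowOwens

/-- A drawing of the graph `G` in the plane `ℝ × ℝ`: vertices are distinct points, every edge `e`
is a simple arc `arc e '' [0, 1]` (a continuous injective image of `[0, 1]`) joining the points of
its two end vertices, and the interior of such an arc contains no vertex point. -/
structure Drawing {V : Type*} (G : SimpleGraph V) where
  /-- the point representing a vertex -/
  pt : V → ℝ × ℝ
  pt_injective : Function.Injective pt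
  /-- `arc e`, restricted to `[0, 1]`, parametrises the arc representing the edge `e` -/
  arc : Sym2 V → ℝ → ℝ × ℝ
  arc_continuous : ∀ e ∈ G.edgeSet, ContinuousOn (arc e) (Set.Icc 0 1)
  arc_injective : ∀ e ∈ G.edgeSet, Set.InjOn (arc e) (Set.Icc 0 1)
  arc_ends : ∀ e ∈ G.edgeSet, s(arc e 0, arc e 1) = e.map pt
  arc_avoids : ∀ e ∈ G.edgeSet, ∀ v, pt v ∉ arc e '' Set.Ioo 0 1

/-- The crossings of a drawing: all pairs `({e, f}, x)` where `{e, f}` is an unordered pair of
distinct edges and `x` is a common point of the interiors of the arcs of `e` and `f`. So a point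
lying on `k` edges is counted `k (k - 1) / 2` times, and crossings of edges with a common end
vertex are counted as well. -/
def Drawing.crossings {V : Type*} {G : SimpleGraph V} (D : Drawing G) :
    Set (Sym2 (Sym2 V) × (ℝ × ℝ)) :=
  {x | ∃ e ∈ G.edgeSet, ∃ f ∈ G.edgeSet, e ≠ f ∧ x.1 = s(e, f) ∧
    x.2 ∈ D.arc e '' Set.Ioo 0 1 ∧ x.2 ∈ D.arc f '' Set.Ioo 0 1}

/-- The crossing number: the minimum number of crossings over all drawings in the plane
(a value in `ℕ ∪ {∞}`). -/
noncomputable def cr {V : Type*} (G : SimpleGraph V) : ℕ∞ :=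
  ⨅ D : Drawing G, D.crossings.encard

/-- The biplanar crossing number of `G`: the minimum of `cr G₁ + cr G₂` over all partitions of
the edge set of `G` into the edge sets of two graphs `G₁`, `G₂` on the same vertex set. -/
noncomputable def cr2 {V : Type*} (G : SimpleGraph V) : ℕ∞ :=
  ⨅ (G₁ : SimpleGraph V) (G₂ : SimpleGraph V) (_ : Disjoint G₁ G₂) (_ : G₁ ⊔ G₂ = G), cr G₁ + cr G₂

end Pool.Agent.Results.MP_aca8be_co.BelowOwens
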