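import Mathlib
import Pool.Agent.H29.SPL.BelowOwensDefs

set_option autoImplicit false

open Filter Topology

namespace Pool.Agent.Results.MP_aca8be_co.BelowOwens


section draw

variable {V : Type*} (P : V → ℕ)

/-- left end -/
def lo (e : Sym2 V) : ℕ := Sym2.lift ⟨fun u v => min (P u) (P v), fun _ _ => min_comm _ _⟩ e

/-- right end -/
def hi (e : Sym2 V) : ℕ := Sym2.lift ⟨fun u v => max (P u) (P v), fun _ _ => max_comm _ _⟩ e

@[simp] lemma lo_mk (u v : V) : lo P s(u, v) = min (P u) (P v) := rfl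
@[simp] lemma hi_mk (u v : V) : hi P s(u, v) = max (P u) (P v) := rfl

/-- the parabolic arc -/
noncomputable def par (a b : ℝ) (up : Bool) (t : ℝ) : ℝ × ℝ :=
  (a + t * (b - a), (if up then 1 else -1) * (t * (1 - t) * (b - a) ^ 2))

lemma lo_lt_hi (hP : Function.Injective P) (G : SimpleGraph V) {e : Sym2 V} (he : e ∈ G.edgeSet) :
    lo P e < hi P e := by
  induction e using Sym2.ind with
  | _ u v =>
    rw [SimpleGraph.mem_edgeSet] at he
    have : P u ≠ P v := fun h => he.ne (hP h)
    simp only [lo_mk, hi_mk]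
    omega

/-- the two-page drawing -/
noncomputable def pageDrawing (hP : Function.Injective P) (G : SimpleGraph V)
    (up : Sym2 V → Bool) : Drawing G where
  pt v := ((P v : ℝ), 0)
  pt_injective := by
    intro u v h
    simp only [Prod.mk.injEq, Nat.cast_inj, and_true] at h
    exact hP h
  arc e := par (lo P e) (hi P e) (up e)
  arc_continuous := by
    intro e _
    unfold par
    fun_prop
  arc_injective := by
    intro e he s _ t _ h
    have h1 : (lo P e : ℝ) < hi P e := by exact_mod_cast lo_lt_hi P hP G he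
    simp only [par, Prod.mk.injEq] at h
    have h2 := h.1
    have h3 : (s - t) * ((hi P e : ℝ) - lo P e) = 0 := by linarith
    rcases mul_eq_zero.1 h3 with h4 | h4
    · linarith
    · linarith
  arc_ends := by
    intro e he
    induction e using Sym2.ind with
    | _ u v =>
      simp only [par, lo_mk, hi_mk, Sym2.map_mk]
      rcases le_total (P u) (P v) with h | h
      · simp [min_eq_left h, max_eq_right h]
      · simp [min_eq_right h, max_eq_left h, Sym2.eq_swap]
  arc_avoids := by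
    rintro e he v ⟨t, ht, h⟩
    have h1 : (lo P e : ℝ) < hi P e := by exact_mod_cast lo_lt_hi P hP G he
    simp only [par, Prod.mk.injEq] at h
    have h2 := h.2
    have h3 : 0 < t * (1 - t) * ((hi P e : ℝ) - lo P e) ^ 2 := by
      have := ht.1
      have := ht.2
      have h5 : 0 < 1 - t := by linarith
      have h6 : 0 < (hi P e : ℝ) - lo P e := by linarith
      positivity
    split_ifs at h2 <;> linarith

lemma exists_ends (e : Sym2 V) : ∃ w y, e = s(w, y) ∧ P w = lo P e ∧ P y = hi P e := by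
  induction e using Sym2.ind with
  | _ u v =>
    rcases le_total (P u) (P v) with h | h
    · exact ⟨u, v, rfl, by simp [h], by simp [h]⟩
    · exact ⟨v, u, Sym2.eq_swap, by simp [h], by simp [h]⟩

lemma key_real {a b c d x : ℝ} (h : (x - a) * (b - x) = (x - c) * (d - x))
    (h1 : c < x) (h2 : x < b) (h4 : a < c) :
    c < b ∧ b < d ∧ x = (a * b - c * d) / (a + b - c - d) := by
  have hbd : b < d := by nlinarith
  refine ⟨by linarith, hbd, ?_⟩
  rw [eq_div_iff (by linarith)]
  linarith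

/-- the interleaving pairs of edges drawn on the same side -/
def quads (G : SimpleGraph V) (up : Sym2 V → Bool) : Set (V × V × V × V) :=
  {q | P q.1 < P q.2.1 ∧ P q.2.1 < P q.2.2.1 ∧ P q.2.2.1 < P q.2.2.2 ∧
    G.Adj q.1 q.2.2.1 ∧ G.Adj q.2.1 q.2.2.2 ∧ up s(q.1, q.2.2.1) = up s(q.2.1, q.2.2.2)}

/-- the crossing point belonging to an interleaving pair of edges -/
noncomputable def crossPt (up : Sym2 V → Bool) (q : V × V × V × V) :
    Sym2 (Sym2 V) × (ℝ × ℝ) :=
  let a : ℝ := P q.1
  let c : ℝ := P q.2.1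
  let b : ℝ := P q.2.2.1
  let d : ℝ := P q.2.2.2
  let x : ℝ := (a * b - c * d) / (a + b - c - d)
  (s(s(q.1, q.2.2.1), s(q.2.1, q.2.2.2)),
    (x, (if up s(q.1, q.2.2.1) then 1 else -1) * ((x - a) * (b - x))))

lemma mem_image_of_cross (hP : Function.Injective P) (G : SimpleGraph V) (up : Sym2 V → Bool)
    {e f : Sym2 V} (he : e ∈ G.edgeSet) (hf : f ∈ G.edgeSet) {t s : ℝ}
    (ht : t ∈ Set.Ioo (0 : ℝ) 1) (hs : s ∈ Set.Ioo (0 : ℝ) 1)
    (h : par (lo P e) (hi P e) (up e) t = par (lo P f) (hi P f) (up f) s)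
    (hlt : lo P e < lo P f) :
    (s(e, f), par (lo P e) (hi P e) (up e) t) ∈ crossPt P up '' quads P G up := by
  obtain ⟨w, y, hwy, hw, hy⟩ := exists_ends P e
  obtain ⟨u, z, huz, hu, hz⟩ := exists_ends P f
  have hE : (lo P e : ℝ) < hi P e := by exact_mod_cast lo_lt_hi P hP G he
  have hF : (lo P f : ℝ) < hi P f := by exact_mod_cast lo_lt_hi P hP G hf
  have hlt' : (lo P e : ℝ) < lo P f := by exact_mod_cast hlt
  rw [← hw] at hE hlt' h hlt
  rw [← hy] at hE h
  rw [← hu] at hF hlt' h hlt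
  rw [← hz] at hF h
  rw [← hw, ← hy]
  obtain ⟨ht0, ht1⟩ := ht
  obtain ⟨hs0, hs1⟩ := hs
  have ht1' : 0 < 1 - t := by linarith
  have hs1' : 0 < 1 - s := by linarith
  have hE' : 0 < (P y : ℝ) - P w := by linarith
  have hF' : 0 < (P z : ℝ) - P u := by linarith
  have h1 := (Prod.mk.injEq _ _ _ _).mp h
  obtain ⟨hx, hyy⟩ := h1
  have pe : 0 < t * (1 - t) * ((P y : ℝ) - P w) ^ 2 := by positivity
  have pf : 0 < s * (1 - s) * ((P z : ℝ) - P u) ^ 2 := by positivity
  set x : ℝ := P w + t * (P y - P w) with hxdef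
  have e1 : (x - P w) * (P y - x) = t * (1 - t) * ((P y : ℝ) - P w) ^ 2 := by
    rw [hxdef]; ring
  have e2 : (x - P u) * (P z - x) = s * (1 - s) * ((P z : ℝ) - P u) ^ 2 := by
    rw [hx]; ring
  have hup : up e = up f ∧ t * (1 - t) * ((P y : ℝ) - P w) ^ 2
      = s * (1 - s) * ((P z : ℝ) - P u) ^ 2 := by
    cases h3 : up e <;> cases h4 : up f <;> simp only [h3, h4] at hyy <;>
      simp at hyy ⊢ <;> linarith
  obtain ⟨hup, hh⟩ := hup
  have hxu : (P u : ℝ) < x := by rw [hx]; have := mul_pos hs0 hF'; linarith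
  have hxz : x < (P z : ℝ) := by
    rw [hx]; have := mul_pos hs1' hF'; nlinarith
  have hxy : x < (P y : ℝ) := by
    rw [hxdef]; have := mul_pos ht1' hE'; nlinarith
  obtain ⟨k1, k2, k3⟩ := key_real (by rw [e1, e2, hh]) hxu hxy hlt'
  refine ⟨(w, u, y, z), ⟨by exact_mod_cast hlt', by exact_mod_cast k1, by exact_mod_cast k2,
    ?_, ?_, ?_⟩, ?_⟩
  · rw [← SimpleGraph.mem_edgeSet, ← hwy]; exact he
  · rw [← SimpleGraph.mem_edgeSet, ← huz]; exact hf
  · simp only [← hwy, ← huz, hup]
  · simp only [crossPt, ← hwy, ← huz, ← k3, par, e1]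
    simp only [hxdef]

lemma eq_of_lo_hi (hP : Function.Injective P) {e f : Sym2 V} (h1 : lo P e = lo P f)
    (h2 : hi P e = hi P f) : e = f := by
  obtain ⟨w, y, hwy, hw, hy⟩ := exists_ends P e
  obtain ⟨u, z, huz, hu, hz⟩ := exists_ends P f
  have : w = u := hP (by rw [hw, hu, h1])
  have : y = z := hP (by rw [hy, hz, h2])
  subst w y
  rw [hwy, huz]

lemma crossings_subset (hP : Function.Injective P) (G : SimpleGraph V) (up : Sym2 V → Bool) :
    (pageDrawing P hP G up).crossings ⊆ crossPt P up '' quads P G up := by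
  rintro ⟨x1, x2⟩ ⟨e, he, f, hf, hne, hx1, ⟨t, ht, hte⟩, ⟨s, hs, hsf⟩⟩
  simp only at hx1 hte hsf
  subst hx1
  have h : par (lo P e) (hi P e) (up e) t = par (lo P f) (hi P f) (up f) s := by
    change (pageDrawing P hP G up).arc e t = (pageDrawing P hP G up).arc f s
    rw [hte, hsf]
  rcases lt_trichotomy (lo P e) (lo P f) with hlt | heq | hgt
  · rw [← hte]
    exact mem_image_of_cross P hP G up he hf ht hs h hlt
  · exfalso
    apply hne
    apply eq_of_lo_hi P hP heq
    have hE : (lo P e : ℝ) < hi P e := by exact_mod_cast lo_lt_hi P hP G he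
    have hF : (lo P f : ℝ) < hi P f := by exact_mod_cast lo_lt_hi P hP G hf
    obtain ⟨ht0, ht1⟩ := ht
    obtain ⟨hs0, hs1⟩ := hs
    have ht1' : 0 < 1 - t := by linarith
    have hs1' : 0 < 1 - s := by linarith
    have h1 := (Prod.mk.injEq _ _ _ _).mp h
    obtain ⟨hx, hyy⟩ := h1
    have hE' : 0 < (hi P e : ℝ) - lo P e := by linarith
    have hF' : 0 < (hi P f : ℝ) - lo P f := by linarith
    have pe : 0 < t * (1 - t) * ((hi P e : ℝ) - lo P e) ^ 2 := by positivity
    have pf : 0 < s * (1 - s) * ((hi P f : ℝ) - lo P f) ^ 2 := by positivity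
    have hup : t * (1 - t) * ((hi P e : ℝ) - lo P e) ^ 2
        = s * (1 - s) * ((hi P f : ℝ) - lo P f) ^ 2 := by
      cases h3 : up e <;> cases h4 : up f <;> simp only [h3, h4] at hyy <;>
        simp at hyy ⊢ <;> linarith
    have heq' : (lo P e : ℝ) = lo P f := by exact_mod_cast heq
    have hx2 : t * ((hi P e : ℝ) - lo P e) = s * ((hi P f : ℝ) - lo P f) := by
      linarith
    have hpos : 0 < t * ((hi P e : ℝ) - lo P e) := mul_pos ht0 hE'
    have h5 : (1 - t) * ((hi P e : ℝ) - lo P e) = (1 - s) * ((hi P f : ℝ) - lo P f) := by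
      have h6 : (t * ((hi P e : ℝ) - lo P e)) * ((1 - t) * ((hi P e : ℝ) - lo P e))
          = (t * ((hi P e : ℝ) - lo P e)) * ((1 - s) * ((hi P f : ℝ) - lo P f)) := by
        calc _ = t * (1 - t) * ((hi P e : ℝ) - lo P e) ^ 2 := by ring
          _ = s * (1 - s) * ((hi P f : ℝ) - lo P f) ^ 2 := hup
          _ = (s * ((hi P f : ℝ) - lo P f)) * ((1 - s) * ((hi P f : ℝ) - lo P f)) := by ring
          _ = _ := by rw [← hx2]
      exact mul_left_cancel₀ hpos.ne' h6
    have : (hi P e : ℝ) = hi P f := by linarith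
    exact_mod_cast this
  · rw [Sym2.eq_swap, ← hsf]
    exact mem_image_of_cross P hP G up hf he hs ht h.symm hgt

lemma cr_le_quads (hP : Function.Injective P) (G : SimpleGraph V) (up : Sym2 V → Bool) :
    cr G ≤ (quads P G up).encard :=
  (iInf_le _ (pageDrawing P hP G up)).trans
    ((Set.encard_le_encard (crossings_subset P hP G up)).trans (Set.encard_image_le _ _))

end draw

section count

open Finset

lemma sum_range_mul' {M : Type*} [AddCommMonoid M] (m k : ℕ) (f : ℕ → M) :
    ∑ i ∈ range (m * k), f i = ∑ W ∈ range m, ∑ c ∈ range k, f (W * k + c) := by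
  induction m with
  | zero => simp
  | succ m ih => rw [Nat.succ_mul, sum_range_add, ih, sum_range_succ]

/-- number of interleaving pairs with page `p` -/
def cnt (T : ℕ → ℕ → ℕ) (p k M : ℕ) : ℕ :=
  ∑ x ∈ range M, ∑ y ∈ range M, if x < y then
    (∑ w ∈ range M, if w < x ∧ T (w / k) (y / k) = p then 1 else 0) *
    (∑ z ∈ range M, if y < z ∧ T (x / k) (z / k) = p then 1 else 0) else 0

/-- left count on clusters -/
def L0 (T : ℕ → ℕ → ℕ) (p m X Y : ℕ) : ℕ := ∑ W ∈ range m, if W < X ∧ T W Y = p then 1 else 0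

/-- right count on clusters -/
def R0 (T : ℕ → ℕ → ℕ) (p m X Y : ℕ) : ℕ := ∑ Z ∈ range m, if Y < Z ∧ T X Z = p then 1 else 0

/-- indicator -/
def dl (T : ℕ → ℕ → ℕ) (p X Y : ℕ) : ℕ := if T X Y = p then 1 else 0

lemma div_aux {k c : ℕ} (W : ℕ) (hc : c < k) : (W * k + c) / k = W := by
  rw [mul_comm, Nat.mul_add_div (by omega), Nat.div_eq_of_lt hc, add_zero]

lemma lex_lt {k a c W X : ℕ} (ha : a < k) (hc : c < k) :
    W * k + c < X * k + a ↔ W < X ∨ (W = X ∧ c < a) := by
  constructor
  · intro h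
    rcases lt_trichotomy W X with h1 | h1 | h1
    · exact Or.inl h1
    · subst h1; right; exact ⟨rfl, by omega⟩
    · exfalso
      have : (X + 1) * k ≤ W * k := Nat.mul_le_mul_right _ h1
      rw [add_mul] at this
      omega
  · rintro (h | ⟨rfl, h⟩)
    · have : (W + 1) * k ≤ X * k := Nat.mul_le_mul_right _ h
      rw [add_mul] at this
      omega
    · omega

lemma left_sum (T : ℕ → ℕ → ℕ) (p k m X Y a b : ℕ) (hX : X < m) (ha : a < k) (hb : b < k) :
    (∑ w ∈ range (m * k), if w < X * k + a ∧ T (w / k) ((Y * k + b) / k) = p then 1 else 0)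
      = k * L0 T p m X Y + a * dl T p X Y := by
  rw [sum_range_mul', L0, dl, mul_sum]
  have h1 : ∀ W ∈ range m, (∑ c ∈ range k,
      if W * k + c < X * k + a ∧ T ((W * k + c) / k) ((Y * k + b) / k) = p then 1 else 0)
      = k * (if W < X ∧ T W Y = p then 1 else 0)
        + (if W = X then a * (if T X Y = p then 1 else 0) else 0) := by
    intro W _
    have h2 : ∀ c ∈ range k,
        (if W * k + c < X * k + a ∧ T ((W * k + c) / k) ((Y * k + b) / k) = p then 1 else 0)
        = if (W < X ∨ (W = X ∧ c < a)) ∧ T W Y = p then 1 else 0 := by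
      intro c hc
      rw [div_aux W (mem_range.1 hc), div_aux Y hb]
      simp only [lex_lt ha (mem_range.1 hc)]
    rw [sum_congr rfl h2]
    rcases lt_trichotomy W X with h | h | h
    · simp only [h, true_or, true_and, h.ne, if_false, add_zero]
      by_cases h3 : T W Y = p <;> simp [h3]
    · subst h
      by_cases h3 : T W Y = p
      · simp only [h3, lt_irrefl, true_and, false_or, and_true, if_false, if_true,
          mul_one]
        rw [← card_filter]
        have : (range k).filter (fun c => c < a) = range a := by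
          ext c; simp only [mem_filter, mem_range]; omega
        rw [this, card_range]
        simp
      · simp [h3]
    · have h4 : ¬ W < X := by omega
      have h5 : W ≠ X := by omega
      simp [h4, h5]
  rw [sum_congr rfl h1, sum_add_distrib]
  congr 1
  rw [sum_ite_eq']
  simp [hX]

lemma right_sum (T : ℕ → ℕ → ℕ) (p k m X Y a b : ℕ) (hY : Y < m) (ha : a < k) (hb : b < k) :
    (∑ z ∈ range (m * k), if Y * k + b < z ∧ T ((X * k + a) / k) (z / k) = p then 1 else 0)
      = k * R0 T p m X Y + (k - 1 - b) * dl T p X Y := by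
  rw [sum_range_mul', R0, dl, mul_sum]
  have h1 : ∀ W ∈ range m, (∑ c ∈ range k,
      if Y * k + b < W * k + c ∧ T ((X * k + a) / k) ((W * k + c) / k) = p then 1 else 0)
      = k * (if Y < W ∧ T X W = p then 1 else 0)
        + (if W = Y then (k - 1 - b) * (if T X Y = p then 1 else 0) else 0) := by
    intro W _
    have h2 : ∀ c ∈ range k,
        (if Y * k + b < W * k + c ∧ T ((X * k + a) / k) ((W * k + c) / k) = p then 1 else 0)
        = if (Y < W ∨ (Y = W ∧ b < c)) ∧ T X W = p then 1 else 0 := by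
      intro c hc
      rw [div_aux W (mem_range.1 hc), div_aux X ha]
      simp only [lex_lt (mem_range.1 hc) hb]
    rw [sum_congr rfl h2]
    rcases lt_trichotomy Y W with h | h | h
    · simp only [h, true_or, true_and, h.ne', if_false, add_zero]
      by_cases h3 : T X W = p <;> simp [h3]
    · subst h
      by_cases h3 : T X Y = p
      · simp only [h3, lt_irrefl, true_and, false_or, and_true, if_false, if_true,
          mul_one]
        rw [← card_filter]
        have : (range k).filter (fun c => b < c) = Ico (b + 1) k := by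
          ext c; simp only [mem_filter, mem_range, mem_Ico]; omega
        rw [this, Nat.card_Ico]
        simp
        omega
      · simp [h3]
    · have h4 : ¬ Y < W := by omega
      have h5 : W ≠ Y := by omega
      have h6 : Y ≠ W := by omega
      simp [h4, h5, h6]
  rw [sum_congr rfl h1, sum_add_distrib]
  congr 1
  rw [sum_ite_eq']
  simp [hY]

/-- 24 times the limiting cost of a pair of clusters -/
def cst (T : ℕ → ℕ → ℕ) (p m X Y : ℕ) : ℕ :=
  if X < Y then 6 * (2 * L0 T p m X Y + dl T p X Y) * (2 * R0 T p m X Y + dl T p X Y)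
  else if X = Y then
    12 * L0 T p m X Y * R0 T p m X Y + 4 * dl T p X Y * (L0 T p m X Y + R0 T p m X Y)
      + dl T p X Y
  else 0

lemma offdiag (k L R d : ℕ) :
    4 * ∑ a ∈ range k, ∑ b ∈ range k, (k * L + a * d) * (k * R + (k - 1 - b) * d)
      ≤ k ^ 4 * ((2 * L + d) * (2 * R + d)) := by
  have h1 : ∑ a ∈ range k, ∑ b ∈ range k, (k * L + a * d) * (k * R + (k - 1 - b) * d)
      = (∑ a ∈ range k, (k * L + a * d)) * (∑ b ∈ range k, (k * R + (k - 1 - b) * d)) := by
    rw [sum_mul_sum]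
  have h2 : ∑ b ∈ range k, (k * R + (k - 1 - b) * d) = ∑ a ∈ range k, (k * R + a * d) :=
    sum_range_reflect (fun a => k * R + a * d) k
  have h3 : ∀ L : ℕ, 2 * ∑ a ∈ range k, (k * L + a * d) ≤ k ^ 2 * (2 * L + d) := by
    intro L
    have h6 : ∑ x ∈ range k, x * d = (∑ i ∈ range k, i) * d := (sum_mul _ _ _).symm
    rw [sum_add_distrib, h6, sum_const, card_range, smul_eq_mul, mul_add]
    have h4 : (∑ i ∈ range k, i) * 2 ≤ k ^ 2 := by
      rw [sum_range_id_mul_two, pow_two]
      exact Nat.mul_le_mul_left _ (Nat.sub_le _ _)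
    have h5 : (∑ i ∈ range k, i) * 2 * d ≤ k ^ 2 * d := Nat.mul_le_mul_right _ h4
    nlinarith
  rw [h1, h2]
  have := Nat.mul_le_mul (h3 L) (h3 R)
  calc _ = (2 * ∑ a ∈ range k, (k * L + a * d)) * (2 * ∑ a ∈ range k, (k * R + a * d)) := by
        ring
    _ ≤ _ := this
    _ = _ := by ring

lemma diag_aux (A B : ℚ) (j : ℕ) :
    ∑ b ∈ range j, ∑ a ∈ range b, (A + a) * (B - b)
      = A * B * (j * (j - 1) / 2) + B * (j * (j - 1) * (j - 2) / 6)
        - A * (j * (j - 1) * (2 * j - 1) / 6)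
        - (j * (j - 1) * (j - 2) * (3 * j - 1) / 24) := by
  have h0 : ∀ b : ℕ, ∑ a ∈ range b, (A + (a : ℚ)) = A * b + b * (b - 1) / 2 := by
    intro b
    induction b with
    | zero => simp
    | succ b ih => rw [sum_range_succ, ih]; push_cast; ring
  induction j with
  | zero => simp
  | succ j ih =>
    rw [sum_range_succ, ih, ← sum_mul, h0]
    push_cast
    ring

lemma diag (k L R d : ℕ) (hd : d ≤ 1) :
    24 * ∑ b ∈ range k, ∑ a ∈ range b, (k * L + a * d) * (k * R + (k - 1 - b) * d)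
      ≤ k ^ 4 * (12 * L * R + 4 * d * (L + R) + d) := by
  obtain rfl | rfl : d = 0 ∨ d = 1 := by omega
  · simp only [mul_zero, add_zero, sum_const, card_range, smul_eq_mul]
    rw [← sum_mul]
    have h4 : (∑ i ∈ range k, i) * 2 ≤ k ^ 2 := by
      rw [sum_range_id_mul_two, pow_two]
      exact Nat.mul_le_mul_left _ (Nat.sub_le _ _)
    calc _ = 12 * ((∑ i ∈ range k, i) * 2) * (k * L * (k * R)) := by ring
      _ ≤ 12 * (k ^ 2) * (k * L * (k * R)) := by gcongr
      _ = _ := by ring
  · rcases Nat.eq_zero_or_pos k with rfl | hk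
    · simp
    simp only [mul_one]
    have h1 : ((∑ b ∈ range k, ∑ a ∈ range b, (k * L + a) * (k * R + (k - 1 - b)) : ℕ) : ℚ)
        = ∑ b ∈ range k, ∑ a ∈ range b, (((k * L : ℕ) : ℚ) + a) * (((k * R + k - 1 : ℕ) : ℚ) - b) := by
      rw [Nat.cast_sum]
      refine sum_congr rfl fun b hb => ?_
      rw [Nat.cast_sum]
      refine sum_congr rfl fun a _ => ?_
      have hb' := mem_range.1 hb
      have : k * R + (k - 1 - b) = (k * R + k - 1) - b := by omega
      rw [this, Nat.cast_mul, Nat.cast_sub (by omega : b ≤ k * R + k - 1)]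
      push_cast
      ring
    have h2 : ((k * R + k - 1 : ℕ) : ℚ) = k * R + k - 1 := by
      rw [Nat.cast_sub (by omega)]; push_cast; ring
    have h3 : ((24 * ∑ b ∈ range k, ∑ a ∈ range b, (k * L + a) * (k * R + (k - 1 - b)) : ℕ) : ℚ)
        ≤ ((k ^ 4 * (12 * L * R + 4 * 1 * (L + R) + 1) : ℕ) : ℚ) := by
      rw [Nat.cast_mul, h1, diag_aux, h2]
      push_cast
      have hk1 : (1 : ℚ) ≤ k := by exact_mod_cast hk
      have hL : (0 : ℚ) ≤ L := by positivity
      have hR : (0 : ℚ) ≤ R := by positivity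
      have hLR : (0 : ℚ) ≤ (L : ℚ) * R := by positivity
      obtain ⟨u, hu⟩ : ∃ u : ℚ, (k : ℚ) = u + 1 := ⟨k - 1, by ring⟩
      have hu0 : 0 ≤ u := by linarith
      rw [hu]
      rw [← sub_nonneg]
      ring_nf
      positivity
    exact_mod_cast h3

lemma cnt_le (T : ℕ → ℕ → ℕ) (p k m : ℕ) :
    24 * cnt T p k (m * k) ≤ k ^ 4 * ∑ X ∈ range m, ∑ Y ∈ range m, cst T p m X Y := by
  rw [cnt, sum_range_mul', mul_sum, mul_sum]
  refine sum_le_sum fun X hX => ?_
  have hX' := mem_range.1 hX
  have h1 : ∑ a ∈ range k, ∑ y ∈ range (m * k), (if X * k + a < y then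
      (∑ w ∈ range (m * k), if w < X * k + a ∧ T (w / k) (y / k) = p then 1 else 0) *
      (∑ z ∈ range (m * k), if y < z ∧ T ((X * k + a) / k) (z / k) = p then 1 else 0) else 0)
      = ∑ Y ∈ range m, ∑ a ∈ range k, ∑ b ∈ range k, if X * k + a < Y * k + b then
        (k * L0 T p m X Y + a * dl T p X Y) * (k * R0 T p m X Y + (k - 1 - b) * dl T p X Y)
        else 0 := by
    rw [sum_comm (s := range m)]
    refine sum_congr rfl fun a ha => ?_
    rw [sum_range_mul']
    refine sum_congr rfl fun Y hY => ?_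
    refine sum_congr rfl fun b hb => ?_
    rw [left_sum T p k m X Y a b hX' (mem_range.1 ha) (mem_range.1 hb),
      right_sum T p k m X Y a b (mem_range.1 hY) (mem_range.1 ha) (mem_range.1 hb)]
  rw [h1, mul_sum, mul_sum]
  refine sum_le_sum fun Y hY => ?_
  have hd : dl T p X Y ≤ 1 := by rw [dl]; split_ifs <;> omega
  rw [cst]
  rcases lt_trichotomy X Y with h | h | h
  · rw [if_pos h]
    have h2 : ∀ a ∈ range k, ∀ b ∈ range k, (if X * k + a < Y * k + b then
        (k * L0 T p m X Y + a * dl T p X Y) * (k * R0 T p m X Y + (k - 1 - b) * dl T p X Y)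
        else 0) = (k * L0 T p m X Y + a * dl T p X Y) *
          (k * R0 T p m X Y + (k - 1 - b) * dl T p X Y) := by
      intro a ha b hb
      rw [if_pos]
      rw [lex_lt (mem_range.1 hb) (mem_range.1 ha)]
      exact Or.inl h
    rw [sum_congr rfl fun a ha => sum_congr rfl fun b hb => h2 a ha b hb]
    have := offdiag k (L0 T p m X Y) (R0 T p m X Y) (dl T p X Y)
    calc _ = 6 * (4 * ∑ a ∈ range k, ∑ b ∈ range k, (k * L0 T p m X Y + a * dl T p X Y) *
          (k * R0 T p m X Y + (k - 1 - b) * dl T p X Y)) := by ring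
      _ ≤ 6 * _ := Nat.mul_le_mul_left _ this
      _ = _ := by ring
  · subst h
    rw [if_neg (lt_irrefl _), if_pos rfl]
    rw [sum_comm]
    have h2 : ∀ b ∈ range k, (∑ a ∈ range k, if X * k + a < X * k + b then
        (k * L0 T p m X X + a * dl T p X X) * (k * R0 T p m X X + (k - 1 - b) * dl T p X X)
        else 0) = ∑ a ∈ range b, (k * L0 T p m X X + a * dl T p X X) *
          (k * R0 T p m X X + (k - 1 - b) * dl T p X X) := by
      intro b hb
      rw [← sum_filter]
      refine sum_congr ?_ fun _ _ => rfl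
      ext a
      have := mem_range.1 hb
      simp only [mem_filter, mem_range]
      omega
    rw [sum_congr rfl h2]
    exact diag k _ _ _ hd
  · rw [if_neg (by omega), if_neg (by omega)]
    have h2 : ∀ a ∈ range k, ∀ b ∈ range k, (if X * k + a < Y * k + b then
        (k * L0 T p m X Y + a * dl T p X Y) * (k * R0 T p m X Y + (k - 1 - b) * dl T p X Y)
        else 0) = 0 := by
      intro a ha b hb
      rw [if_neg]
      rw [lex_lt (mem_range.1 hb) (mem_range.1 ha)]
      omega
    rw [sum_congr rfl fun a ha => sum_congr rfl fun b hb => h2 a ha b hb]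
    simp

end count

section assemble

open Finset

/-- the set of interleaving pairs of page `p` -/
def FF (T : ℕ → ℕ → ℕ) (p k M : ℕ) : Finset ((ℕ × ℕ) × (ℕ × ℕ)) :=
  ((range M ×ˢ range M) ×ˢ (range M ×ˢ range M)).filter fun q =>
    q.1.1 < q.1.2 ∧ (q.2.1 < q.1.1 ∧ T (q.2.1 / k) (q.1.2 / k) = p) ∧
      (q.1.2 < q.2.2 ∧ T (q.1.1 / k) (q.2.2 / k) = p)

lemma card_FF (T : ℕ → ℕ → ℕ) (p k M : ℕ) : (FF T p k M).card = cnt T p k M := by
  rw [FF, card_filter, sum_product, cnt, sum_product]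
  refine sum_congr rfl fun x _ => sum_congr rfl fun y _ => ?_
  rw [sum_product]
  by_cases h : x < y
  · rw [if_pos h, sum_mul_sum]
    refine sum_congr rfl fun w _ => sum_congr rfl fun z _ => ?_
    simp only [h, true_and]
    by_cases h1 : w < x ∧ T (w / k) (y / k) = p <;>
      by_cases h2 : y < z ∧ T (x / k) (z / k) = p <;> simp [h1, h2]
  · simp [h]

lemma quads_le {V : Type*} (P : V → ℕ) (hP : Function.Injective P) (M k : ℕ) (hM : ∀ v, P v < M)
    (G : SimpleGraph V) (up : Sym2 V → Bool) (T : ℕ → ℕ → ℕ) (p p' : ℕ)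
    (h : ∀ w x y z, G.Adj w y → G.Adj x z → up s(w, y) = up s(x, z) →
      (T (P w / k) (P y / k) = p ∧ T (P x / k) (P z / k) = p) ∨
      (T (P w / k) (P y / k) = p' ∧ T (P x / k) (P z / k) = p')) :
    (quads P G up).encard ≤ ((cnt T p k M + cnt T p' k M : ℕ) : ℕ∞) := by
  have h1 : (quads P G up).encard ≤ (↑(FF T p k M ∪ FF T p' k M : Finset ((ℕ × ℕ) × (ℕ × ℕ))) :
      Set ((ℕ × ℕ) × (ℕ × ℕ))).encard := by
    refine Set.encard_le_encard_of_injOn
      (f := fun q : V × V × V × V => ((P q.2.1, P q.2.2.1), (P q.1, P q.2.2.2))) ?_ ?_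
    · rintro ⟨w, x, y, z⟩ ⟨h1, h2, h3, h4, h5, h6⟩
      simp only at h1 h2 h3 h4 h5 h6
      simp only [FF, coe_union, Set.mem_union, mem_coe, mem_filter, mem_product, mem_range]
      rcases h w x y z h4 h5 h6 with h7 | h7
      · left
        exact ⟨⟨⟨hM _, hM _⟩, ⟨hM _, hM _⟩⟩, h2, ⟨h1, h7.1⟩, ⟨h3, h7.2⟩⟩
      · right
        exact ⟨⟨⟨hM _, hM _⟩, ⟨hM _, hM _⟩⟩, h2, ⟨h1, h7.1⟩, ⟨h3, h7.2⟩⟩
    · rintro ⟨w, x, y, z⟩ _ ⟨w', x', y', z'⟩ _ hh
      simp only [Prod.mk.injEq] at hh
      obtain ⟨⟨h1, h2⟩, h3, h4⟩ := hh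
      rw [hP h1, hP h2, hP h3, hP h4]
  refine h1.trans ?_
  rw [Set.encard_coe_eq_coe_finsetCard]
  have := card_union_le (FF T p k M) (FF T p' k M)
  rw [card_FF, card_FF] at this
  exact_mod_cast this

/-- symmetric table lookup -/
def look (tab m i j : ℕ) : ℕ := tab / 4 ^ (min i j * m + max i j) % 4

lemma look_comm (tab m i j : ℕ) : look tab m i j = look tab m j i := by
  rw [look, look, min_comm, max_comm]

/-- the part drawn in the first plane -/
def GG (tab m k : ℕ) (n : ℕ) : SimpleGraph (Fin n) where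
  Adj u v := u ≠ v ∧ look tab m (u / k) (v / k) < 2
  symm := ⟨fun u v h => ⟨h.1.symm, by rw [look_comm]; exact h.2⟩⟩
  loopless := ⟨fun u h => h.1 rfl⟩

/-- the part drawn in the second plane -/
def HH (tab m k : ℕ) (n : ℕ) : SimpleGraph (Fin n) where
  Adj u v := u ≠ v ∧ ¬ look tab m (u / k) (v / k) < 2
  symm := ⟨fun u v h => ⟨h.1.symm, by rw [look_comm]; exact h.2⟩⟩
  loopless := ⟨fun u h => h.1 rfl⟩

/-- the side -/
def side (tab m k : ℕ) (n : ℕ) (e : Sym2 (Fin n)) : Bool :=
  Sym2.lift ⟨fun u v : Fin n => decide (look tab m (u / k) (v / k) % 2 = 0),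
    fun u v => by simp only [look_comm tab m (u / k) (v / k)]⟩ e

lemma look_lt (tab m i j : ℕ) : look tab m i j < 4 := Nat.mod_lt _ (by norm_num)

lemma cr2_le (tab m k n : ℕ) (hn : n ≤ m * k) (σ τ : ℕ → ℕ) (hσ : ∀ i < m, σ i < m)
    (hτ : ∀ i < m, τ (σ i) = i) :
    cr2 (⊤ : SimpleGraph (Fin n)) ≤
      (((cnt (look tab m) 0 k (m * k) + cnt (look tab m) 1 k (m * k)) +
      (cnt (fun i j => look tab m (τ i) (τ j)) 2 k (m * k) +
        cnt (fun i j => look tab m (τ i) (τ j)) 3 k (m * k)) : ℕ) : ℕ∞) := by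
  have hd : Disjoint (GG tab m k n) (HH tab m k n) := by
    rw [disjoint_iff]
    ext u v
    simp only [SimpleGraph.inf_adj, GG, HH, SimpleGraph.bot_adj, iff_false]
    tauto
  have hs : GG tab m k n ⊔ HH tab m k n = ⊤ := by
    ext u v
    simp only [SimpleGraph.sup_adj, GG, HH, SimpleGraph.top_adj]
    tauto
  have hk : ∀ v : Fin n, 0 < k := by
    intro v
    rcases Nat.eq_zero_or_pos k with rfl | h
    · have := v.2; omega
    · exact h
  have hv : ∀ v : Fin n, (v : ℕ) / k < m := by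
    intro v
    apply Nat.div_lt_of_lt_mul
    have := v.2
    rw [mul_comm]
    omega
  refine (iInf₂_le (GG tab m k n) (HH tab m k n)).trans ((iInf₂_le hd hs).trans ?_)
  rw [Nat.cast_add]
  refine add_le_add ?_ ?_
  · refine (cr_le_quads (fun v : Fin n => (v : ℕ)) Fin.val_injective (GG tab m k n)
      (side tab m k n)).trans ?_
    refine quads_le _ Fin.val_injective (m * k) k (fun v => lt_of_lt_of_le v.2 hn) _ _ _ _ _ ?_
    intro w x y z h1 h2 h3
    have h4 := h1.2
    have h5 := h2.2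
    simp only [side, Sym2.lift_mk, decide_eq_decide] at h3
    omega
  · have hinj : Function.Injective (fun v : Fin n => σ (v / k) * k + v % k) := by
      intro u v h
      replace h : σ (u / k) * k + u % k = σ (v / k) * k + v % k := h
      have hku := Nat.mod_lt (u : ℕ) (hk u)
      have hkv := Nat.mod_lt (v : ℕ) (hk u)
      have h1 : σ (u / k) = σ (v / k) := by
        have h0 : (σ (u / k) * k + u % k) / k = (σ (v / k) * k + v % k) / k := by rw [h]
        rwa [div_aux _ hku, div_aux _ hkv] at h0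
      have h2 : (u : ℕ) % k = v % k := by rw [h1] at h; omega
      have h3 : (u : ℕ) / k = v / k := by
        rw [← hτ _ (hv u), ← hτ _ (hv v), h1]
      apply Fin.ext
      rw [← Nat.div_add_mod (u : ℕ) k, ← Nat.div_add_mod (v : ℕ) k, h2, h3]
    have hdiv : ∀ v : Fin n, (σ (v / k) * k + v % k) / k = σ (v / k) := fun v =>
      div_aux _ (Nat.mod_lt _ (hk v))
    refine (cr_le_quads (fun v : Fin n => σ (v / k) * k + v % k) hinj (HH tab m k n)
      (side tab m k n)).trans ?_
    refine quads_le _ hinj (m * k) k ?_ _ _ _ _ _ ?_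
    · intro v
      have h1 := hσ _ (hv v)
      have h2 := Nat.mod_lt (v : ℕ) (hk v)
      have h3 : (σ (v / k) + 1) * k ≤ m * k := Nat.mul_le_mul_right _ h1
      rw [add_mul] at h3
      omega
    · intro w x y z h1 h2 h3
      have h4 := h1.2
      have h5 := h2.2
      simp only [side, Sym2.lift_mk, decide_eq_decide] at h3
      simp only [hdiv, hτ _ (hv _)]
      have h6 := look_lt tab m (w / k) (y / k)
      have h7 := look_lt tab m (x / k) (z / k)
      omega

end assemble

section eval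

/-- fast sum -/
def sumN (f : ℕ → ℕ) (n : ℕ) : ℕ := Nat.rec 0 (fun i s => s + f i) n

lemma sumN_eq (f : ℕ → ℕ) (n : ℕ) : sumN f n = ∑ i ∈ Finset.range n, f i := by
  induction n with
  | zero => rfl
  | succ n ih => rw [Finset.sum_range_succ, ← ih]; rfl

/-- fast indicator -/
def ind (a p : ℕ) : ℕ := bif Nat.beq a p then 1 else 0

lemma ind_eq (a p : ℕ) : ind a p = if a = p then 1 else 0 := by
  unfold ind
  by_cases h : a = p
  · subst h; simp
  · have : Nat.beq a p = false := by
      rw [Bool.eq_false_iff]; intro h2; exact h (Nat.eq_of_beq_eq_true h2)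
    simp [this, h]

/-- fast evaluation of the cost of a page -/
def costF (T : ℕ → ℕ → ℕ) (p m : ℕ) : ℕ :=
  sumN (fun Y => sumN (fun X =>
      6 * (2 * sumN (fun W => ind (T W Y) p) X + ind (T X Y) p) *
        (2 * sumN (fun i => ind (T X (Y + 1 + i)) p) (m - 1 - Y) + ind (T X Y) p)) Y +
      (12 * sumN (fun W => ind (T W Y) p) Y * sumN (fun i => ind (T Y (Y + 1 + i)) p) (m - 1 - Y)
        + 4 * ind (T Y Y) p * (sumN (fun W => ind (T W Y) p) Y +
          sumN (fun i => ind (T Y (Y + 1 + i)) p) (m - 1 - Y)) + ind (T Y Y) p)) m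

lemma L0_eq (T : ℕ → ℕ → ℕ) (p m X Y : ℕ) (hX : X < m) :
    L0 T p m X Y = sumN (fun W => ind (T W Y) p) X := by
  rw [sumN_eq, L0]
  simp only [ind_eq]
  rw [← Finset.sum_subset (Finset.range_subset_range.2 hX.le)]
  · refine Finset.sum_congr rfl fun W hW => ?_
    simp [Finset.mem_range.1 hW]
  · intro W _ hW
    have : ¬ W < X := fun h => hW (Finset.mem_range.2 h)
    simp [this]

lemma R0_eq (T : ℕ → ℕ → ℕ) (p m X Y : ℕ) (hY : Y < m) :
    R0 T p m X Y = sumN (fun i => ind (T X (Y + 1 + i)) p) (m - 1 - Y) := by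
  rw [sumN_eq, R0]
  simp only [ind_eq]
  obtain ⟨r, rfl⟩ : ∃ r, m = Y + 1 + r := ⟨m - 1 - Y, by omega⟩
  rw [Finset.sum_range_add]
  have h1 : ∑ x ∈ Finset.range (Y + 1), (if Y < x ∧ T X x = p then 1 else 0) = 0 := by
    refine Finset.sum_eq_zero fun x hx => ?_
    have := Finset.mem_range.1 hx
    have h2 : ¬ Y < x := by omega
    simp [h2]
  rw [h1, zero_add]
  have h3 : Y + 1 + r - 1 - Y = r := by omega
  rw [h3]
  refine Finset.sum_congr rfl fun x _ => ?_
  have : Y < Y + 1 + x := by omega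
  simp [this]

lemma costF_eq (T : ℕ → ℕ → ℕ) (p m : ℕ) :
    ∑ X ∈ Finset.range m, ∑ Y ∈ Finset.range m, cst T p m X Y = costF T p m := by
  rw [Finset.sum_comm, costF, sumN_eq]
  refine Finset.sum_congr rfl fun Y hY => ?_
  have hY' := Finset.mem_range.1 hY
  rw [← Finset.sum_subset (Finset.range_subset_range.2 (show Y + 1 ≤ m from hY'))]
  · rw [Finset.sum_range_succ, sumN_eq]
    congr 1
    · refine Finset.sum_congr rfl fun X hX => ?_
      have hX' := Finset.mem_range.1 hX
      rw [cst, if_pos hX', L0_eq T p m X Y (by omega), R0_eq T p m X Y hY', dl, ind_eq]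
    · rw [cst, if_neg (lt_irrefl _), if_pos rfl, L0_eq T p m Y Y hY', R0_eq T p m Y Y hY', dl,
        ind_eq]
  · intro X _ hX
    have : ¬ X < Y + 1 := fun h => hX (Finset.mem_range.2 h)
    rw [cst, if_neg (by omega), if_neg (by omega)]

/-- the table of pages -/
def tab : ℕ := 16158503035655503650576426895527117422454746944272993803841870993541242352066965769969484198145145630247722818588126623256671555162199253186284169339670685954755967314933342935634608514515373048240823019581730425123356943450617159593826732759365215335016434557306477229139620665725358775441754216184990597361957234908900608327718773218514603122000470822885482683864964682975162901872185826327876008665117611317590045754163791020479898329581325774800503703458994585091437541942104873523214540877091063188561534697758868292315551381058114875609955861966355484863920526366838519442505645384507254920634657329702218936833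

/-- digits of a number in base 32 -/
def dig (a i : ℕ) : ℕ := a / 32 ^ i % 32

/-- position in the second plane -/
def sg : ℕ := 779992233226851959493732166963364581608805078132

/-- inverse of the above -/
def ta : ℕ := 1250750893149992904681318991911889714769253431804

lemma total : costF (look tab 32) 0 32 + costF (look tab 32) 1 32 +
    (costF (fun i j => look tab 32 (dig ta i) (dig ta j)) 2 32 +
    costF (fun i j => look tab 32 (dig ta i) (dig ta j)) 3 32) = 106408 := by
  decide +kernel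

lemma inv_sg : ∀ i < 32, dig ta (dig sg i) = i := by decide +kernel

end eval

section final

lemma main_bound (n k : ℕ) (hn : n ≤ 32 * k) :
    24 * cr2 (⊤ : SimpleGraph (Fin n)) ≤ ((106408 * k ^ 4 : ℕ) : ℕ∞) := by
  have h1 := cr2_le tab 32 k n hn (dig sg) (dig ta)
    (fun i _ => Nat.mod_lt _ (by norm_num)) inv_sg
  refine (mul_le_mul_right h1 24).trans ?_
  have h2 := cnt_le (look tab 32) 0 k 32
  have h3 := cnt_le (look tab 32) 1 k 32
  have h4 := cnt_le (fun i j => look tab 32 (dig ta i) (dig ta j)) 2 k 32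
  have h5 := cnt_le (fun i j => look tab 32 (dig ta i) (dig ta j)) 3 k 32
  rw [costF_eq] at h2 h3 h4 h5
  have h6 := total
  have h7 : 24 * ((cnt (look tab 32) 0 k (32 * k) + cnt (look tab 32) 1 k (32 * k)) +
      (cnt (fun i j => look tab 32 (dig ta i) (dig ta j)) 2 k (32 * k) +
        cnt (fun i j => look tab 32 (dig ta i) (dig ta j)) 3 k (32 * k))) ≤ 106408 * k ^ 4 := by
    rw [← h6]
    calc _ = 24 * cnt (look tab 32) 0 k (32 * k) + 24 * cnt (look tab 32) 1 k (32 * k) +
      24 * cnt (fun i j => look tab 32 (dig ta i) (dig ta j)) 2 k (32 * k) +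
        24 * cnt (fun i j => look tab 32 (dig ta i) (dig ta j)) 3 k (32 * k) := by ring
      _ ≤ _ := add_le_add (add_le_add (add_le_add h2 h3) h4) h5
      _ = _ := by ring
  exact_mod_cast h7

lemma cr2_ne_top (n : ℕ) : cr2 (⊤ : SimpleGraph (Fin n)) ≠ ⊤ := by
  intro h
  have h1 := main_bound n n (by omega)
  rw [h, ENat.mul_top (by norm_num)] at h1
  exact (ENat.natCast_ne_top _) (top_le_iff.1 h1)

lemma real_bound (n : ℕ) (hn : 4 ≤ n) :
    ((cr2 (⊤ : SimpleGraph (Fin n))).toNat : ℝ) / (n.choose 4 : ℝ)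
      ≤ 106408 * (((n : ℝ) / 32 + 1) / ((n : ℝ) - 3)) ^ 4 := by
  have h1 := main_bound n (n / 32 + 1) (by omega)
  have h2 : 24 * (cr2 (⊤ : SimpleGraph (Fin n))).toNat ≤ 106408 * (n / 32 + 1) ^ 4 := by
    rw [← ENat.natCast_toNat (cr2_ne_top n)] at h1
    exact_mod_cast h1
  have h3 : (24 : ℝ) * (cr2 (⊤ : SimpleGraph (Fin n))).toNat ≤ 106408 * ((n : ℝ) / 32 + 1) ^ 4 := by
    have h4 : (24 : ℝ) * (cr2 (⊤ : SimpleGraph (Fin n))).toNat
        ≤ 106408 * (((n / 32 : ℕ) : ℝ) + 1) ^ 4 := by exact_mod_cast h2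
    refine h4.trans ?_
    have h5 : ((n / 32 : ℕ) : ℝ) ≤ (n : ℝ) / 32 := Nat.cast_div_le
    gcongr
  have hn' : (4 : ℝ) ≤ n := by exact_mod_cast hn
  have h4 : ((n : ℝ) - 3) ^ 4 ≤ 24 * (n.choose 4 : ℝ) := by
    have h5 : (n.choose 4 : ℝ) = (n : ℝ) * (n - 1) * (n - 2) * (n - 3) / 24 := by
      obtain ⟨r, rfl⟩ : ∃ r, n = r + 4 := ⟨n - 4, by omega⟩
      rw [Nat.cast_choose_eq_ascPochhammer_div]
      norm_num [ascPochhammer_succ_right, Nat.factorial]
      ring
    rw [h5]
    have e1 : 0 ≤ (n : ℝ) - 3 := by linarith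
    have e2 : (n : ℝ) * (n - 1) * (n - 2) * (n - 3) - ((n : ℝ) - 3) ^ 4
        = ((n : ℝ) - 3) * (6 * ((n : ℝ) - 3) ^ 2 + 11 * ((n : ℝ) - 3) + 6) := by ring
    have e3 : 0 ≤ ((n : ℝ) - 3) * (6 * ((n : ℝ) - 3) ^ 2 + 11 * ((n : ℝ) - 3) + 6) := by
      positivity
    linarith
  have h6 : 0 < ((n : ℝ) - 3) ^ 4 := by
    have : 0 < (n : ℝ) - 3 := by linarith
    positivity
  have h7 : 0 < (n.choose 4 : ℝ) := by linarith
  rw [div_le_iff₀ h7, div_pow]
  have h8 : 0 ≤ ((n : ℝ) / 32 + 1) ^ 4 := by positivity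
  calc ((cr2 (⊤ : SimpleGraph (Fin n))).toNat : ℝ) ≤ 106408 * ((n : ℝ) / 32 + 1) ^ 4 / 24 := by
        linarith
    _ = 106408 * (((n : ℝ) / 32 + 1) ^ 4 / ((n : ℝ) - 3) ^ 4) * (((n : ℝ) - 3) ^ 4 / 24) := by
        have e4 : (n : ℝ) - 3 ≠ 0 := by linarith
        field_simp
    _ ≤ 106408 * (((n : ℝ) / 32 + 1) ^ 4 / ((n : ℝ) - 3) ^ 4) * (n.choose 4 : ℝ) := by
        gcongr
        linarith

lemma tendsto_bound :
    Tendsto (fun n : ℕ => (106408 : ℝ) * (((n : ℝ) / 32 + 1) / ((n : ℝ) - 3)) ^ 4) atTop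
      (𝓝 (106408 * (1 / 32) ^ 4)) := by
  have h1 : Tendsto (fun n : ℕ => ((n : ℝ) / 32 + 1) / ((n : ℝ) - 3)) atTop (𝓝 (1 / 32)) := by
    have h2 : Tendsto (fun n : ℕ => ((1 : ℝ) / 32 + 1 / (n : ℝ)) / (1 - 3 / (n : ℝ))) atTop
        (𝓝 ((1 / 32 + 0) / (1 - 0))) := by
      refine Tendsto.div (tendsto_const_nhds.add (tendsto_const_div_atTop_nhds_zero_nat 1))
        (tendsto_const_nhds.sub (tendsto_const_div_atTop_nhds_zero_nat 3)) (by norm_num)
    have h3 : ((1 : ℝ) / 32 + 0) / (1 - 0) = 1 / 32 := by norm_num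
    rw [h3] at h2
    refine h2.congr' ?_
    filter_upwards [eventually_gt_atTop 3] with n hn
    have hn' : (3 : ℝ) < n := by exact_mod_cast hn
    have e1 : (n : ℝ) - 3 ≠ 0 := by linarith
    have e2 : (n : ℝ) ≠ 0 := by linarith
    have e3 : 1 - 3 / (n : ℝ) ≠ 0 := by
      rw [ne_eq, sub_eq_zero, eq_div_iff e2]
      linarith
    field_simp
  exact (h1.pow 4).const_mul _

/-- For all large `n` we have `cr₂(K_n) / (n choose 4) ≤ 0.1016 < 7/64 = 0.109375`; in particular
the limit `c` of `cr₂(K_n) / (n choose 4)` is smaller than `7/64`.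

The drawings: cut the vertex set into 32 clusters of nearly equal size. In both planes the vertices
lie on a line, cluster after cluster, but the clusters come in a different order in the two planes.
Every edge is drawn as an upper or lower arc in the first or in the second plane; which one is
decided, by the table `tab`, by the clusters of its two ends. -/
theorem result_proof :
    (∃ N : ℕ, ∀ n ≥ N, cr2 (⊤ : SimpleGraph (Fin n)) ≠ ⊤ ∧
      ((cr2 (⊤ : SimpleGraph (Fin n))).toNat : ℝ) / (n.choose 4 : ℝ) ≤ 1016 / 10000) ∧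
    ∀ c : ℝ, Tendsto (fun n : ℕ => ((cr2 (⊤ : SimpleGraph (Fin n))).toNat : ℝ) /
      (n.choose 4 : ℝ)) atTop (𝓝 c) → c < 7 / 64 := by
  have hev : ∀ᶠ n : ℕ in atTop,
      ((cr2 (⊤ : SimpleGraph (Fin n))).toNat : ℝ) / (n.choose 4 : ℝ) ≤ 1016 / 10000 := by
    have h1 := tendsto_bound.eventually (gt_mem_nhds
      (show (106408 : ℝ) * (1 / 32) ^ 4 < 1016 / 10000 by norm_num))
    filter_upwards [h1, eventually_ge_atTop 4] with n hn h4
    exact (real_bound n h4).trans hn.le
  refine ⟨?_, ?_⟩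
  · obtain ⟨N, hN⟩ := eventually_atTop.1 hev
    exact ⟨N, fun n hn => ⟨cr2_ne_top n, hN n hn⟩⟩
  · intro c hc
    have := le_of_tendsto hc hev
    linarith [show (1016 : ℝ) / 10000 < 7 / 64 by norm_num]

end final

end Pool.Agent.Results.MP_aca8be_co.BelowOwens
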