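import Mathlib

set_option autoImplicit false

/-!
# Noetherian bases of countable rank under Martin's axiom for `ℵ₁`

Under Martin's axiom for `ℵ₁` dense sets every Noetherian base of countable rank of a separable
regular (`T₃`) space is countable, hence the space is metrizable.
-/

namespace Pool.Agent.Results.MP_d4a483_lc.MartinMetrizable

open Set Cardinal TopologicalSpace

universe u

/-- A family of sets is incomparable if no member is contained in a different member. -/
def Incomparable {X : Type u} (𝒜 : Set (Set X)) : Prop :=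
  ∀ A ∈ 𝒜, ∀ B ∈ 𝒜, A ⊆ B → A = B

/-- A family of sets is Noetherian if it contains no infinite strictly increasing sequence. -/
def NoetherianFamily {X : Type u} (Γ : Set (Set X)) : Prop :=
  ¬ ∃ A : ℕ → Set X, (∀ n, A n ∈ Γ) ∧ ∀ n, A n ⊂ A (n + 1)

/-- A family of sets has countable rank if for every point `x` every incomparable subfamily whose
members all contain `x` is countable. -/
def CountableRank {X : Type u} (Γ : Set (Set X)) : Prop :=
  ∀ x : X, ∀ 𝒜 : Set (Set X), 𝒜 ⊆ Γ → Incomparable 𝒜 → (∀ A ∈ 𝒜, x ∈ A) → 𝒜.Countable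

/-- Martin's axiom for `ℵ₁` dense sets: every nonempty partial order in which all antichains (sets
of pairwise incompatible elements) are countable has, for every family of at most `ℵ₁` dense
sets, a filter meeting all of them (`r ≤ p` means that `r` is stronger than `p`). -/
def MartinAxiomAlephOne : Prop :=
  ∀ (P : Type) [PartialOrder P] [Nonempty P],
    (∀ A : Set P, (∀ p ∈ A, ∀ q ∈ A, p ≠ q → ¬ ∃ r, r ≤ p ∧ r ≤ q) → A.Countable) →
    ∀ 𝒟 : Set (Set P), #𝒟 ≤ ℵ₁ → (∀ D ∈ 𝒟, ∀ p, ∃ q ∈ D, q ≤ p) →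
    ∃ G : Set P, G.Nonempty ∧ (∀ p ∈ G, ∀ q, p ≤ q → q ∈ G) ∧
      (∀ p ∈ G, ∀ q ∈ G, ∃ r ∈ G, r ≤ p ∧ r ≤ q) ∧ ∀ D ∈ 𝒟, (G ∩ D).Nonempty

end Pool.Agent.Results.MP_d4a483_lc.MartinMetrizable
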