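import Mathlib
import Pool.Agent.H29.SPL.MartinMetrizableDefs

set_option autoImplicit false

/-!
# Noetherian bases of countable rank under Martin's axiom for `ℵ₁`

Under Martin's axiom for `ℵ₁` dense sets every Noetherian base of countable rank of a separable
regular (`T₃`) space is countable, hence the space is metrizable.
-/

namespace Pool.Agent.Results.MP_d4a483_lc.MartinMetrizable

open Set Cardinal TopologicalSpace

universe u

/-! ### Definitions used in the statement -/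


/-! ### Indexing by `ω₁` -/

section Index

variable {Ω : Type} [LinearOrder Ω] [WellFoundedLT Ω]

/-- Transfinite choice along a well-order with countable initial segments. -/
theorem exists_seq (hΩ : ∀ a : Ω, (Iio a).Countable) {β : Type*} (P : Set β → β → Prop)
    (hP : ∀ C : Set β, C.Countable → ∃ b, P C b) :
    ∃ V : Ω → β, ∀ a, P (V '' Iio a) (V a) := by
  classical
  have hc : ∀ (a : Ω) (f : (b : Ω) → b < a → β),
      {x | ∃ b, ∃ h : b < a, f b h = x}.Countable := by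
    intro a f
    have : Countable (Iio a) := (hΩ a).to_subtype
    have h2 : {x | ∃ b, ∃ h : b < a, f b h = x} = range (fun b : Iio a => f b.1 b.2) := by
      ext x
      constructor
      · rintro ⟨b, h, rfl⟩
        exact ⟨⟨b, h⟩, rfl⟩
      · rintro ⟨⟨b, h⟩, rfl⟩
        exact ⟨b, h, rfl⟩
    rw [h2]
    exact countable_range _
  let F : (a : Ω) → ((b : Ω) → b < a → β) → β := fun a f =>
    Classical.choose (hP {x | ∃ b, ∃ h : b < a, f b h = x} (hc a f))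
  let V : Ω → β := WellFounded.fix (wellFounded_lt (α := Ω)) F
  refine ⟨V, fun a => ?_⟩
  have h : V a = F a (fun b _ => V b) := WellFounded.fix_eq (wellFounded_lt (α := Ω)) F a
  have hs := Classical.choose_spec (hP {x | ∃ b, ∃ _ : b < a, V b = x} (hc a (fun b _ => V b)))
  have h3 : V '' Iio a = {x | ∃ b, ∃ _ : b < a, V b = x} := by
    ext x
    constructor
    · rintro ⟨b, h, rfl⟩
      exact ⟨b, h, rfl⟩
    · rintro ⟨b, h, rfl⟩
      exact ⟨b, h, rfl⟩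
  rw [h3, h]
  exact hs

omit [WellFoundedLT Ω] in
/-- A countable set is bounded. -/
theorem exists_gt_of_countable [Uncountable Ω] (hΩ : ∀ a : Ω, (Iio a).Countable)
    {S : Set Ω} (hS : S.Countable) : ∃ b, ∀ a ∈ S, a < b := by
  by_contra hcon
  push Not at hcon
  have h1 : (univ : Set Ω) ⊆ ⋃ a ∈ S, Iic a := by
    intro b _
    obtain ⟨a, ha, hb⟩ := hcon b
    exact mem_biUnion ha hb
  have h2 : (⋃ a ∈ S, Iic a).Countable := by
    refine hS.biUnion (fun a _ => ?_)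
    rw [← Iio_union_right]
    exact (hΩ a).union (countable_singleton a)
  exact not_countable_univ (h2.mono h1)

omit [WellFoundedLT Ω] in
/-- An uncountable set is unbounded. -/
theorem exists_gt_of_not_countable (hΩ : ∀ a : Ω, (Iio a).Countable)
    {S : Set Ω} (hS : ¬ S.Countable) (b : Ω) : ∃ a ∈ S, b < a := by
  by_contra hcon
  push Not at hcon
  apply hS
  refine Countable.mono (fun a ha => ?_) ((hΩ b).union (countable_singleton b))
  rcases lt_or_eq_of_le (hcon a ha) with h | h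
  · exact Or.inl h
  · exact Or.inr h

end Index

/-! ### Finite free sets and Martin's axiom -/

section MA

variable {Ω : Type} [LinearOrder Ω]

/-- A finite set is free if its distinct elements are in the relation `good`. -/
def Free (good : Ω → Ω → Prop) (F : Finset Ω) : Prop := ∀ a ∈ F, ∀ b ∈ F, a ≠ b → good a b

variable [WellFoundedLT Ω] [Uncountable Ω]

/-- If the poset of finite free sets is ccc then Martin's axiom gives an uncountable free set. -/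
theorem exists_free_of_ccc (hMA : MartinAxiomAlephOne) (hΩ : ∀ a : Ω, (Iio a).Countable)
    (hcard : #Ω ≤ ℵ₁) (good : Ω → Ω → Prop)
    (hccc : ∀ 𝒜 : Set (Finset Ω), (∀ F ∈ 𝒜, Free good F) →
      (∀ F ∈ 𝒜, ∀ F' ∈ 𝒜, F ≠ F' → ¬ Free good (F ∪ F')) → 𝒜.Countable) :
    ∃ A : Set Ω, ¬ A.Countable ∧ ∀ a ∈ A, ∀ b ∈ A, a ≠ b → good a b := by
  classical
  have hp : ∃ p, Free good p ∧ ∀ ξ : Ω, ∀ q, Free good q → p ⊆ q →
      ∃ r, Free good r ∧ q ⊆ r ∧ ∃ α ∈ r, ξ < α := by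
    by_contra hcon
    push Not at hcon
    have h1 : ∀ α : Ω, ∃ ξ : Ω, ∃ q, Free good q ∧ {α} ⊆ q ∧
        ∀ r, Free good r → q ⊆ r → ∀ β ∈ r, β ≤ ξ := by
      intro α
      have hf : Free good {α} := by
        intro a ha b hb hab
        rw [Finset.mem_singleton] at ha hb
        exact absurd (ha.trans hb.symm) hab
      exact hcon _ hf
    choose ξ q hq1 hq2 hq3 using h1
    obtain ⟨V, hV⟩ := exists_seq hΩ (fun (C : Set Ω) (b : Ω) => ∀ a ∈ C, ξ a < b) (by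
      intro C hC
      obtain ⟨b, hb⟩ := exists_gt_of_countable hΩ (hC.image ξ)
      exact ⟨b, fun a ha => hb _ (mem_image_of_mem _ ha)⟩)
    have hV' : ∀ μ ν, μ < ν → ξ (V μ) < V ν := fun μ ν h => hV ν _ (mem_image_of_mem _ h)
    have key : ∀ μ ν, μ < ν → ¬ Free good (q (V μ) ∪ q (V ν)) := by
      intro μ ν h hf
      have h2 : V ν ∈ q (V μ) ∪ q (V ν) :=
        Finset.mem_union_right _ (hq2 _ (Finset.mem_singleton_self _))
      have h3 := hq3 (V μ) _ hf Finset.subset_union_left _ h2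
      exact absurd (hV' μ ν h) (not_lt.mpr h3)
    have hinj : Function.Injective (fun ν => q (V ν)) := by
      intro μ ν h
      by_contra hne
      rcases lt_or_gt_of_ne hne with h' | h'
      · apply key μ ν h'
        have h4 : q (V μ) = q (V ν) := h
        rw [← h4, Finset.union_self]
        exact hq1 _
      · apply key ν μ h'
        have h4 : q (V μ) = q (V ν) := h
        rw [← h4, Finset.union_self]
        exact hq1 _
    have hc := hccc (range fun ν => q (V ν)) (by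
      rintro _ ⟨ν, rfl⟩
      exact hq1 _) (by
      rintro _ ⟨μ, rfl⟩ _ ⟨ν, rfl⟩ hne
      have hμν : μ ≠ ν := by
        rintro rfl
        exact hne rfl
      rcases lt_or_gt_of_ne hμν with h' | h'
      · exact key μ ν h'
      · rw [Finset.union_comm]
        exact key ν μ h')
    have h5 : (univ : Set Ω).Countable := by
      rw [← image_univ] at hc
      exact countable_of_injective_of_countable_image hinj.injOn hc
    exact not_countable_univ h5
  obtain ⟨p, hpf, hp⟩ := hp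
  let P := {F : Finset Ω // p ⊆ F ∧ Free good F}ᵒᵈ
  have : Nonempty P := ⟨OrderDual.toDual ⟨p, Finset.Subset.refl _, hpf⟩⟩
  have hccc' : ∀ A : Set P, (∀ p ∈ A, ∀ q ∈ A, p ≠ q → ¬ ∃ r, r ≤ p ∧ r ≤ q) → A.Countable := by
    intro A hA
    have hinj : Function.Injective (fun x : P => (OrderDual.ofDual x).1) := by
      intro x y h
      exact Subtype.ext h
    refine countable_of_injective_of_countable_image (f := fun x : P => (OrderDual.ofDual x).1)
      hinj.injOn (hccc _ ?_ ?_)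
    · rintro _ ⟨x, _, rfl⟩
      exact (OrderDual.ofDual x).2.2
    · rintro _ ⟨x, hx, rfl⟩ _ ⟨y, hy, rfl⟩ hne hf
      have hxy : x ≠ y := by
        rintro rfl
        exact hne rfl
      apply hA x hx y hy hxy
      refine ⟨OrderDual.toDual ⟨(OrderDual.ofDual x).1 ∪ (OrderDual.ofDual y).1,
        (OrderDual.ofDual x).2.1.trans Finset.subset_union_left, hf⟩, ?_, ?_⟩
      · exact (Finset.subset_union_left :
          (OrderDual.ofDual x).1 ⊆ (OrderDual.ofDual x).1 ∪ (OrderDual.ofDual y).1)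
      · exact (Finset.subset_union_right :
          (OrderDual.ofDual y).1 ⊆ (OrderDual.ofDual x).1 ∪ (OrderDual.ofDual y).1)
  obtain ⟨G, -, -, hG2, hG3⟩ := hMA P hccc'
    (range fun ξ : Ω => {q : P | ∃ α ∈ (OrderDual.ofDual q).1, ξ < α}) (mk_range_le.trans hcard) (by
    rintro _ ⟨ξ, rfl⟩ x
    obtain ⟨r, hr1, hr2, α, hα, hξ⟩ := hp ξ (OrderDual.ofDual x).1 (OrderDual.ofDual x).2.2
      (OrderDual.ofDual x).2.1
    exact ⟨OrderDual.toDual ⟨r, (OrderDual.ofDual x).2.1.trans hr2, hr1⟩, ⟨α, hα, hξ⟩, hr2⟩)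
  refine ⟨{α | ∃ x ∈ G, α ∈ (OrderDual.ofDual x).1}, ?_, ?_⟩
  · intro hc
    obtain ⟨b, hb⟩ := exists_gt_of_countable hΩ hc
    obtain ⟨x, hx, α, hα, hbα⟩ := hG3 _ ⟨b, rfl⟩
    exact absurd (hb α ⟨x, hx, hα⟩) (not_lt.mpr hbα.le)
  · rintro a ⟨x, hx, hax⟩ b ⟨y, hy, hby⟩ hab
    obtain ⟨r, _, hrx, hry⟩ := hG2 x hx y hy
    have h1 : (OrderDual.ofDual x).1 ⊆ (OrderDual.ofDual r).1 := hrx
    have h2 : (OrderDual.ofDual y).1 ⊆ (OrderDual.ofDual r).1 := hry
    exact (OrderDual.ofDual r).2.2 a (h1 hax) b (h2 hby) hab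

/-- If the poset of finite free sets is not ccc, there are `ω₁` many pairwise incompatible blocks
of the same finite size, each block lying above the earlier ones. -/
theorem exists_blocks (hΩ : ∀ a : Ω, (Iio a).Countable) (good : Ω → Ω → Prop)
    (hsymm : ∀ a b, good a b → good b a) (𝒜 : Set (Finset Ω)) (h𝒜 : ¬ 𝒜.Countable)
    (hfree : ∀ F ∈ 𝒜, Free good F)
    (hinc : ∀ F ∈ 𝒜, ∀ F' ∈ 𝒜, F ≠ F' → ¬ Free good (F ∪ F')) :
    ∃ (n : ℕ) (b : Ω → Fin n → Ω), (∀ ξ η, ξ < η → ∀ i j, b ξ i < b η j) ∧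
      ∀ ξ η, ξ < η → ∃ i j, ¬ good (b ξ i) (b η j) := by
  classical
  have hex : ∃ n : ℕ, ∃ ℬ : Set (Finset Ω), ¬ ℬ.Countable ∧ (∀ F ∈ ℬ, Free good F) ∧
      (∀ F ∈ ℬ, ∀ F' ∈ ℬ, F ≠ F' → ¬ Free good (F ∪ F')) ∧ ∀ F ∈ ℬ, F.card = n := by
    by_contra hcon
    push Not at hcon
    apply h𝒜
    have h1 : 𝒜 = ⋃ n : ℕ, {F ∈ 𝒜 | F.card = n} := by
      ext F
      simp
    rw [h1]
    refine countable_iUnion (fun n => ?_)
    by_contra hc
    obtain ⟨F, hF, hF2⟩ := hcon n {F ∈ 𝒜 | F.card = n} hc (fun F hF => hfree F hF.1)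
      (fun F hF F' hF' => hinc F hF.1 F' hF'.1)
    exact hF2 hF.2
  obtain ⟨ℬ, hℬ, hfree', hinc', hn⟩ := Nat.find_spec hex
  have hmin := fun m (hm : m < Nat.find hex) => Nat.find_min hex hm
  generalize hN : Nat.find hex = n at hℬ hfree' hinc' hn hmin
  have hstar : ∀ α : Ω, {F ∈ ℬ | α ∈ F}.Countable := by
    intro α
    by_contra hc
    have hne : {F ∈ ℬ | α ∈ F}.Nonempty := by
      by_contra h0
      rw [not_nonempty_iff_eq_empty] at h0
      rw [h0] at hc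
      exact hc countable_empty
    obtain ⟨F₀, hF₀, hα₀⟩ := hne
    have hn0 : 0 < n := by
      rw [← hn F₀ hF₀]
      exact Finset.card_pos.mpr ⟨α, hα₀⟩
    apply hmin (n - 1) (by omega)
    refine ⟨(fun F => F.erase α) '' {F ∈ ℬ | α ∈ F}, ?_, ?_, ?_, ?_⟩
    · intro hc'
      apply hc
      refine countable_of_injective_of_countable_image (f := fun F : Finset Ω => F.erase α)
        ?_ hc'
      intro F hF F' hF' h
      have h' : F.erase α = F'.erase α := h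
      rw [← Finset.insert_erase hF.2, ← Finset.insert_erase hF'.2, h']
    · rintro _ ⟨F, hF, rfl⟩ a ha b hb hab
      exact hfree' F hF.1 a (Finset.mem_of_mem_erase ha) b (Finset.mem_of_mem_erase hb) hab
    · rintro _ ⟨F, hF, rfl⟩ _ ⟨F', hF', rfl⟩ hne hf
      have hFF : F ≠ F' := by
        rintro rfl
        exact hne rfl
      apply hinc' F hF.1 F' hF'.1 hFF
      intro a ha b hb hab
      by_cases haα : a = α
      · subst haα
        rcases Finset.mem_union.mp hb with h | h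
        · exact hfree' F hF.1 _ hF.2 _ h hab
        · exact hfree' F' hF'.1 _ hF'.2 _ h hab
      · by_cases hbα : b = α
        · subst hbα
          rcases Finset.mem_union.mp ha with h | h
          · exact hfree' F hF.1 _ h _ hF.2 hab
          · exact hfree' F' hF'.1 _ h _ hF'.2 hab
        · apply hf a _ b _ hab
          · rcases Finset.mem_union.mp ha with h | h
            · exact Finset.mem_union_left _ (Finset.mem_erase.mpr ⟨haα, h⟩)
            · exact Finset.mem_union_right _ (Finset.mem_erase.mpr ⟨haα, h⟩)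
          · rcases Finset.mem_union.mp hb with h | h
            · exact Finset.mem_union_left _ (Finset.mem_erase.mpr ⟨hbα, h⟩)
            · exact Finset.mem_union_right _ (Finset.mem_erase.mpr ⟨hbα, h⟩)
    · rintro _ ⟨F, hF, rfl⟩
      rw [Finset.card_erase_of_mem hF.2, hn F hF.1]
  obtain ⟨B, hB⟩ := exists_seq hΩ (fun (C : Set (Finset Ω)) (F : Finset Ω) =>
    F ∈ ℬ ∧ ∀ F' ∈ C, ∀ x ∈ F', ∀ y ∈ F, x < y) (by
    intro C hC
    have h1 : (⋃ F ∈ C, (F : Set Ω)).Countable := hC.biUnion (fun F _ => F.countable_toSet)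
    obtain ⟨β, hβ⟩ := exists_gt_of_countable hΩ h1
    have h2 : (⋃ y ∈ Iic β, {F ∈ ℬ | y ∈ F}).Countable := by
      refine Countable.biUnion ?_ (fun y _ => hstar y)
      rw [← Iio_union_right]
      exact (hΩ β).union (countable_singleton β)
    have h3 : ∃ F ∈ ℬ, F ∉ ⋃ y ∈ Iic β, {F ∈ ℬ | y ∈ F} := by
      by_contra hcon
      push Not at hcon
      exact hℬ (h2.mono hcon)
    obtain ⟨F, hF, hF2⟩ := h3
    refine ⟨F, hF, fun F' hF' x hx y hy => ?_⟩
    have hx' : x < β := hβ x (mem_biUnion hF' hx)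
    have hy' : β < y := by
      by_contra hcon
      exact hF2 (mem_biUnion (show y ∈ Iic β from not_lt.mp hcon) ⟨hF, hy⟩)
    exact hx'.trans hy')
  have hBℬ : ∀ ξ, B ξ ∈ ℬ := fun ξ => (hB ξ).1
  have hBlt : ∀ ξ η, ξ < η → ∀ x ∈ B ξ, ∀ y ∈ B η, x < y :=
    fun ξ η h => (hB η).2 (B ξ) (mem_image_of_mem _ h)
  have hn0 : n ≠ 0 := by
    rintro rfl
    apply hℬ
    refine (countable_singleton (∅ : Finset Ω)).mono (fun F hF => ?_)
    exact Finset.card_eq_zero.mp (hn F hF)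
  refine ⟨n, fun ξ i => (B ξ).orderEmbOfFin (hn _ (hBℬ ξ)) i, ?_, ?_⟩
  · intro ξ η h i j
    exact hBlt ξ η h _ (Finset.orderEmbOfFin_mem _ _ _) _ (Finset.orderEmbOfFin_mem _ _ _)
  · intro ξ η h
    have hne : B ξ ≠ B η := by
      intro heq
      have hcard : 0 < (B ξ).card := by
        rw [hn _ (hBℬ ξ)]
        omega
      obtain ⟨x, hx⟩ := Finset.card_pos.mp hcard
      exact absurd (hBlt ξ η h x hx x (heq ▸ hx)) (lt_irrefl x)
    have hnf := hinc' _ (hBℬ ξ) _ (hBℬ η) hne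
    have hmem : ∀ ζ : Ω, ∀ x ∈ B ζ, ∃ i, (B ζ).orderEmbOfFin (hn _ (hBℬ ζ)) i = x := by
      intro ζ x hx
      have h1 : x ∈ range ((B ζ).orderEmbOfFin (hn _ (hBℬ ζ))) := by
        rw [Finset.range_orderEmbOfFin]
        exact hx
      exact h1
    by_contra hcon
    push Not at hcon
    apply hnf
    intro a ha b hb hab
    rcases Finset.mem_union.mp ha with h1 | h1 <;> rcases Finset.mem_union.mp hb with h2 | h2
    · exact hfree' _ (hBℬ ξ) a h1 b h2 hab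
    · obtain ⟨i, rfl⟩ := hmem ξ a h1
      obtain ⟨j, rfl⟩ := hmem η b h2
      exact hcon i j
    · obtain ⟨i, rfl⟩ := hmem η a h1
      obtain ⟨j, rfl⟩ := hmem ξ b h2
      exact hsymm _ _ (hcon j i)
    · exact hfree' _ (hBℬ η) a h1 b h2 hab

end MA

/-! ### The key lemma -/

/-- Key lemma: under Martin's axiom for `ℵ₁`, in a hereditarily Lindelöf space with countable
outer `π`-bases for closed sets, an `ω₁`-sequence of open sets none of which is contained in a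
later one has an uncountable pairwise incomparable subsequence. -/
theorem key {Ω : Type} [LinearOrder Ω] [WellFoundedLT Ω] [Uncountable Ω]
    (hMA : MartinAxiomAlephOne) (hΩ : ∀ a : Ω, (Iio a).Countable) (hcard : #Ω ≤ ℵ₁)
    {X : Type u} [TopologicalSpace X]
    (hHL : ∀ 𝒰 : Set (Set X), (∀ U ∈ 𝒰, IsOpen U) → ∃ 𝒞 ⊆ 𝒰, 𝒞.Countable ∧ ⋃₀ 𝒰 ⊆ ⋃₀ 𝒞)
    (hP : ∀ N : Set X, IsOpen N → ∃ 𝒲 : Set (Set X), 𝒲.Countable ∧
      (∀ W ∈ 𝒲, IsOpen W ∧ ¬ W ⊆ N) ∧ ∀ V, IsOpen V → ¬ V ⊆ N → ∃ W ∈ 𝒲, W ⊆ V)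
    (V : Ω → Set X) (hV : ∀ a, IsOpen (V a)) (hlt : ∀ a b, a < b → ¬ V a ⊆ V b) :
    ∃ A : Set Ω, ¬ A.Countable ∧ ∀ a ∈ A, ∀ b ∈ A, a ≠ b → ¬ V a ⊆ V b := by
  classical
  by_contra hno
  have hccc : ¬ ∀ 𝒜 : Set (Finset Ω),
      (∀ F ∈ 𝒜, Free (fun a b => ¬ V a ⊆ V b ∧ ¬ V b ⊆ V a) F) →
      (∀ F ∈ 𝒜, ∀ F' ∈ 𝒜, F ≠ F' → ¬ Free (fun a b => ¬ V a ⊆ V b ∧ ¬ V b ⊆ V a) (F ∪ F')) →
      𝒜.Countable := by
    intro hccc
    obtain ⟨A, hA, hA2⟩ := exists_free_of_ccc hMA hΩ hcard _ hccc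
    exact hno ⟨A, hA, fun a ha b hb hab => (hA2 a ha b hb hab).1⟩
  push Not at hccc
  obtain ⟨𝒜, hfree, hinc, hunc⟩ := hccc
  obtain ⟨n, b, hb, hb2⟩ := exists_blocks hΩ (fun a b => ¬ V a ⊆ V b ∧ ¬ V b ⊆ V a)
    (fun a b h => ⟨h.2, h.1⟩) 𝒜 hunc hfree hinc
  have hb3 : ∀ ξ η, ξ < η → ∃ i j, V (b η j) ⊆ V (b ξ i) := by
    intro ξ η h
    obtain ⟨i, j, hij⟩ := hb2 ξ η h
    refine ⟨i, j, ?_⟩
    by_contra hcon
    exact hij ⟨hlt _ _ (hb ξ η h i j), hcon⟩
  choose! 𝒲 h𝒲 using hP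
  let N : Set Ω → Fin n → Set X := fun S i =>
    ⋃₀ {W | IsOpen W ∧ {ξ | ξ ∈ S ∧ ¬ W ⊆ V (b ξ i)}.Countable}
  have hNopen : ∀ S i, IsOpen (N S i) := fun S i => isOpen_sUnion (fun W hW => hW.1)
  have hNc : ∀ S i, {ξ | ξ ∈ S ∧ ¬ N S i ⊆ V (b ξ i)}.Countable := by
    intro S i
    obtain ⟨𝒞, h𝒞, h𝒞c, h𝒞u⟩ := hHL
      {W | IsOpen W ∧ {ξ | ξ ∈ S ∧ ¬ W ⊆ V (b ξ i)}.Countable} (fun W hW => hW.1)
    refine (h𝒞c.biUnion (fun W hW => (h𝒞 hW).2)).mono ?_
    rintro ξ ⟨hξS, hξ⟩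
    by_contra hcon
    apply hξ
    refine h𝒞u.trans (sUnion_subset (fun W hW => ?_))
    by_contra hWV
    exact hcon (mem_biUnion hW ⟨hξS, hWV⟩)
  let step : Set Ω → Fin n → Set X → Set Ω := fun S i W => {ξ | ξ ∈ S ∧ ¬ W ⊆ V (b ξ i)}
  let R : ℕ → Set (Set Ω) := fun k => Nat.rec {Set.univ}
    (fun _ T => ⋃ S ∈ T, ⋃ i : Fin n, (fun W => step S i W) '' 𝒲 (N S i)) k
  have hR0 : R 0 = {Set.univ} := rfl
  have hRs : ∀ k, R (k + 1) = ⋃ S ∈ R k, ⋃ i : Fin n, (fun W => step S i W) '' 𝒲 (N S i) :=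
    fun k => rfl
  have hRc : ∀ k, (R k).Countable := by
    intro k
    induction k with
    | zero => rw [hR0]; exact countable_singleton _
    | succ k ih =>
      rw [hRs]
      exact ih.biUnion (fun S _ => countable_iUnion (fun i =>
        ((h𝒲 _ (hNopen S i)).1).image _))
  have hRu : ∀ k, ∀ S ∈ R k, ¬ S.Countable := by
    intro k
    induction k with
    | zero =>
      intro S hS
      rw [hR0] at hS
      rw [mem_singleton_iff.mp hS]
      exact not_countable_univ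
    | succ k ih =>
      intro S' hS'
      rw [hRs] at hS'
      simp only [mem_iUnion] at hS'
      obtain ⟨S, hS, i, W, hW, rfl⟩ := hS'
      intro hc
      have h1 := (h𝒲 _ (hNopen S i)).2.1 W hW
      apply h1.2
      exact subset_sUnion_of_mem ⟨h1.1, hc⟩
  have hSc : (⋃ k, R k).Countable := countable_iUnion hRc
  have hSne : ∀ S ∈ ⋃ k, R k, ∃ ξ, ξ ∈ S := by
    intro S hS
    obtain ⟨k, hk⟩ := mem_iUnion.mp hS
    by_contra hcon
    push Not at hcon
    apply hRu k S hk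
    rw [eq_empty_of_forall_notMem hcon]
    exact countable_empty
  choose! f hf using hSne
  obtain ⟨η, hη⟩ := exists_gt_of_countable hΩ (hSc.image f)
  have hclaim : ∃ i j, ∃ S ∈ ⋃ k, R k, V (b η j) ⊆ N S i := by
    by_contra hcon
    push Not at hcon
    have hind : ∀ Q : Finset (Fin n × Fin n), ∃ S ∈ ⋃ k, R k,
        ∀ p ∈ Q, ∀ ξ ∈ S, ¬ V (b η p.2) ⊆ V (b ξ p.1) := by
      intro Q
      induction Q using Finset.induction_on with
      | empty =>
        refine ⟨univ, mem_iUnion.mpr ⟨0, ?_⟩, ?_⟩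
        · rw [hR0]
          exact mem_singleton _
        · intro p hp
          exact absurd hp (Finset.notMem_empty _)
      | insert p Q hpQ ih =>
        obtain ⟨S, hS, hSQ⟩ := ih
        obtain ⟨W, hW, hWV⟩ := (h𝒲 _ (hNopen S p.1)).2.2 (V (b η p.2)) (hV _)
          (hcon p.1 p.2 S hS)
        obtain ⟨k, hk⟩ := mem_iUnion.mp hS
        refine ⟨step S p.1 W, mem_iUnion.mpr ⟨k + 1, ?_⟩, ?_⟩
        · rw [hRs]
          simp only [mem_iUnion]
          exact ⟨S, hk, p.1, W, hW, rfl⟩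
        · intro p' hp' ξ hξ
          rcases Finset.mem_insert.mp hp' with rfl | h
          · intro hsub
            exact hξ.2 (hWV.trans hsub)
          · exact hSQ p' h ξ hξ.1
    obtain ⟨S, hS, hSQ⟩ := hind Finset.univ
    have hξ : f S < η := hη _ (mem_image_of_mem _ hS)
    obtain ⟨i, j, hij⟩ := hb3 (f S) η hξ
    exact hSQ (i, j) (Finset.mem_univ _) (f S) (hf S hS) hij
  obtain ⟨i, j, S, hS, hsub⟩ := hclaim
  obtain ⟨k, hk⟩ := mem_iUnion.mp hS
  have hS2 : ¬ {ξ | ξ ∈ S ∧ N S i ⊆ V (b ξ i)}.Countable := by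
    intro hc
    apply hRu k S hk
    refine (hc.union (hNc S i)).mono (fun ξ hξ => ?_)
    by_cases h : N S i ⊆ V (b ξ i)
    · exact Or.inl ⟨hξ, h⟩
    · exact Or.inr ⟨hξ, h⟩
  obtain ⟨ζ, hζ, hηζ⟩ := exists_gt_of_not_countable hΩ hS2 η
  exact hlt _ _ (hb η ζ hηζ j i) (hsub.trans hζ.2)

/-! ### The space -/

/-- A nonempty member of a Noetherian family has a maximal element. -/
theorem exists_maximal {X : Type u} {Γ : Set (Set X)} (hΓ : NoetherianFamily Γ)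
    (T : Set (Set X)) (hT : T ⊆ Γ) (hne : T.Nonempty) :
    ∃ A ∈ T, ∀ B ∈ T, A ⊆ B → B = A := by
  classical
  by_contra hcon
  push Not at hcon
  apply hΓ
  have h1 : ∀ A : T, ∃ B : T, (A : Set X) ⊂ B := by
    rintro ⟨A, hA⟩
    obtain ⟨B, hB, hAB, hne'⟩ := hcon A hA
    exact ⟨⟨B, hB⟩, hAB.ssubset_of_ne hne'.symm⟩
  choose g hg using h1
  obtain ⟨A₀, hA₀⟩ := hne
  refine ⟨fun k => (g^[k] ⟨A₀, hA₀⟩ : T), fun k => hT (g^[k] ⟨A₀, hA₀⟩).2, fun k => ?_⟩
  have h2 : g^[k + 1] ⟨A₀, hA₀⟩ = g (g^[k] ⟨A₀, hA₀⟩) := Function.iterate_succ_apply' _ _ _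
  show ((g^[k] ⟨A₀, hA₀⟩ : T) : Set X) ⊂ (g^[k + 1] ⟨A₀, hA₀⟩ : T)
  rw [h2]
  exact hg _

section Space

variable {Ω : Type} [LinearOrder Ω] [WellFoundedLT Ω] [Uncountable Ω]
variable {X : Type u}

/-- In a separable space incomparable subfamilies of a family of open sets of countable rank are
countable. -/
theorem countable_of_incomparable [TopologicalSpace X] [SeparableSpace X] {𝔅 : Set (Set X)}
    (hopen : ∀ B ∈ 𝔅, IsOpen B) (hR : CountableRank 𝔅) (𝒜 : Set (Set X)) (h𝒜 : 𝒜 ⊆ 𝔅)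
    (hinc : Incomparable 𝒜) : 𝒜.Countable := by
  obtain ⟨D, hDc, hD⟩ := exists_countable_dense X
  have h1 : 𝒜 ⊆ {∅} ∪ ⋃ d ∈ D, {A ∈ 𝒜 | d ∈ A} := by
    intro A hA
    by_cases h0 : A.Nonempty
    · obtain ⟨d, hdA, hdD⟩ := hD.inter_open_nonempty A (hopen A (h𝒜 hA)) h0
      exact Or.inr (mem_biUnion hdD ⟨hA, hdA⟩)
    · exact Or.inl (not_nonempty_iff_eq_empty.mp h0)
  refine ((countable_singleton _).union (hDc.biUnion (fun d _ => ?_))).mono h1
  exact hR d _ (fun A hA => h𝒜 hA.1) (fun A hA B hB => hinc A hA.1 B hB.1) (fun A hA => hA.2)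

omit [WellFoundedLT Ω] [Uncountable Ω] in
/-- There is no uncountable incomparable indexed subfamily. -/
theorem no_seq [TopologicalSpace X] [SeparableSpace X] {𝔅 : Set (Set X)}
    (hopen : ∀ B ∈ 𝔅, IsOpen B) (hR : CountableRank 𝔅) (V : Ω → Set X) (hV : ∀ a, V a ∈ 𝔅)
    (A : Set Ω) (hA : ¬ A.Countable) (hinc : ∀ a ∈ A, ∀ b ∈ A, a ≠ b → ¬ V a ⊆ V b) : False := by
  apply hA
  have hinj : InjOn V A := by
    intro a ha b hb h
    by_contra hne
    exact hinc a ha b hb hne h.subset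
  refine countable_of_injective_of_countable_image hinj
    (countable_of_incomparable hopen hR _ ?_ ?_)
  · rintro _ ⟨a, _, rfl⟩
    exact hV a
  · rintro _ ⟨a, ha, rfl⟩ _ ⟨b, hb, rfl⟩ h
    by_contra hne
    exact hinc a ha b hb (fun hab => hne (by rw [hab])) h

/-- `X` is hereditarily Lindelöf. -/
theorem hereditarilyLindelof [TopologicalSpace X] [SeparableSpace X]
    (hΩ : ∀ a : Ω, (Iio a).Countable) {𝔅 : Set (Set X)}
    (hB : IsTopologicalBasis 𝔅) (hN : NoetherianFamily 𝔅) (hR : CountableRank 𝔅)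
    (𝒰 : Set (Set X)) (h𝒰 : ∀ U ∈ 𝒰, IsOpen U) :
    ∃ 𝒞 ⊆ 𝒰, 𝒞.Countable ∧ ⋃₀ 𝒰 ⊆ ⋃₀ 𝒞 := by
  classical
  by_contra hcon
  push Not at hcon
  -- a right-separated sequence: triples (x, U, B)
  obtain ⟨T, hT⟩ := exists_seq hΩ (fun (C : Set (X × Set X × Set X)) t =>
    t.1 ∈ t.2.2 ∧ t.2.2 ⊆ t.2.1 ∧ t.2.2 ∈ 𝔅 ∧ t.2.1 ∈ 𝒰 ∧ ∀ s ∈ C, s.2.1 ∈ 𝒰 → t.1 ∉ s.2.1) (by
    intro C hC
    have h1 := hcon (((fun s : X × Set X × Set X => s.2.1) '' C) ∩ 𝒰) inter_subset_right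
      ((hC.image _).mono inter_subset_left)
    obtain ⟨x, hx, hx2⟩ := not_subset.mp h1
    obtain ⟨U, hU, hxU⟩ := hx
    obtain ⟨B, hB1, hxB, hBU⟩ := hB.exists_subset_of_mem_open hxU (h𝒰 U hU)
    refine ⟨(x, U, B), hxB, hBU, hB1, hU, fun s hs hs2 hxs => hx2 ?_⟩
    exact ⟨s.2.1, ⟨⟨s, hs, rfl⟩, hs2⟩, hxs⟩)
  have hB2 : ∀ a b, a < b → ¬ (T b).2.2 ⊆ (T a).2.2 := by
    intro a b hab hsub
    exact (hT b).2.2.2.2 (T a) (mem_image_of_mem _ hab) (hT a).2.2.2.1
      ((hT a).2.1 (hsub (hT b).1))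
  -- thin out
  obtain ⟨g, hg⟩ := exists_seq hΩ (fun (C : Set Ω) (b : Ω) => (∀ c ∈ C, c < b) ∧
    ∀ β, (∀ c ∈ C, c < β) → (T b).2.2 ⊆ (T β).2.2 → (T β).2.2 = (T b).2.2) (by
    intro C hC
    obtain ⟨β, hβ⟩ := exists_gt_of_countable hΩ hC
    obtain ⟨A, hA, hmax⟩ := exists_maximal hN
      ((fun β => (T β).2.2) '' {β | ∀ c ∈ C, c < β}) (by
        rintro _ ⟨β, _, rfl⟩
        exact (hT β).2.2.1) ⟨_, ⟨β, hβ, rfl⟩⟩
    obtain ⟨b, hb, rfl⟩ := hA
    exact ⟨b, hb, fun β hβ hsub => hmax _ ⟨β, hβ, rfl⟩ hsub⟩)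
  have hg1 : ∀ a b, a < b → g a < g b := fun a b h => (hg b).1 _ (mem_image_of_mem _ h)
  apply no_seq (fun B hB' => hB.isOpen hB') hR (fun a => (T (g a)).2.2)
    (fun a => (hT (g a)).2.2.1) univ not_countable_univ
  intro a _ b _ hab
  rcases lt_or_gt_of_ne hab with h | h
  · intro hsub
    have h1 := (hg a).2 (g b) (by
      rintro _ ⟨c, hc, rfl⟩
      exact hg1 c b ((mem_Iio.mp hc).trans h)) hsub
    exact hB2 _ _ (hg1 a b h) h1.subset
  · exact hB2 _ _ (hg1 b a h)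

/-- Traces on a countable dense set: under Martin's axiom there is no `ω₁`-sequence of members of
the base whose traces on the dense set are not contained in later ones. -/
theorem trace_lemma [TopologicalSpace X] [SeparableSpace X] (hMA : MartinAxiomAlephOne)
    (hΩ : ∀ a : Ω, (Iio a).Countable) (hcard : #Ω ≤ ℵ₁) {𝔅 : Set (Set X)}
    (hopen : ∀ B ∈ 𝔅, IsOpen B) (hR : CountableRank 𝔅) (D : Set X) (hD : D.Countable)
    (V : Ω → Set X) (hV : ∀ a, V a ∈ 𝔅) (hlt : ∀ a b, a < b → ¬ V a ∩ D ⊆ V b) : False := by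
  classical
  have hDc : Countable D := hD.to_subtype
  let _ : TopologicalSpace D := ⊥
  have : DiscreteTopology D := ⟨rfl⟩
  obtain ⟨A, hA, hA2⟩ := key (X := D) hMA hΩ hcard (by
    intro 𝒰 _
    have h1 : ∀ x : D, ∃ U : Set D, x ∈ ⋃₀ 𝒰 → U ∈ 𝒰 ∧ x ∈ U := by
      intro x
      by_cases hx : x ∈ ⋃₀ 𝒰
      · obtain ⟨U, hU, hxU⟩ := hx
        exact ⟨U, fun _ => ⟨hU, hxU⟩⟩
      · exact ⟨∅, fun h => absurd h hx⟩
    choose f hf using h1
    refine ⟨range f ∩ 𝒰, inter_subset_right, (countable_range f).mono inter_subset_left, ?_⟩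
    intro x hx
    exact ⟨f x, ⟨⟨x, rfl⟩, (hf x hx).1⟩, (hf x hx).2⟩) (by
    intro N _
    refine ⟨(fun x => {x}) '' Nᶜ, (to_countable _).image _, ?_, ?_⟩
    · rintro _ ⟨x, hx, rfl⟩
      exact ⟨isOpen_discrete _, fun h => hx (h rfl)⟩
    · intro W _ hW
      obtain ⟨x, hxW, hxN⟩ := not_subset.mp hW
      exact ⟨{x}, ⟨x, hxN, rfl⟩, singleton_subset_iff.mpr hxW⟩)
    (fun a => ((↑) : D → X) ⁻¹' V a) (fun a => isOpen_discrete _) (by
    intro a b hab hsub
    apply hlt a b hab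
    rintro x ⟨hxV, hxD⟩
    exact hsub (a := ⟨x, hxD⟩) hxV)
  apply no_seq hopen hR V hV A hA
  intro a ha b hb hab hsub
  exact hA2 a ha b hb hab (preimage_mono hsub)

/-- Under Martin's axiom `X` is hereditarily separable. -/
theorem hereditarilySeparable [TopologicalSpace X] [SeparableSpace X] [T3Space X]
    (hMA : MartinAxiomAlephOne) (hΩ : ∀ a : Ω, (Iio a).Countable) (hcard : #Ω ≤ ℵ₁)
    {𝔅 : Set (Set X)} (hB : IsTopologicalBasis 𝔅) (hR : CountableRank 𝔅) (Y : Set X) :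
    ∃ E ⊆ Y, E.Countable ∧ Y ⊆ closure E := by
  classical
  by_contra hcon
  push Not at hcon
  obtain ⟨D, hDc, hD⟩ := exists_countable_dense X
  obtain ⟨T, hT⟩ := exists_seq hΩ (fun (C : Set (X × Set X)) t =>
    t.1 ∈ Y ∧ t.1 ∈ t.2 ∧ t.2 ∈ 𝔅 ∧ ∀ s ∈ C, s.1 ∈ Y → s.1 ∉ closure t.2) (by
    intro C hC
    have h1 := hcon (((fun s : X × Set X => s.1) '' C) ∩ Y) inter_subset_right
      ((hC.image _).mono inter_subset_left)
    obtain ⟨x, hx, hx2⟩ := not_subset.mp h1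
    have hO : (closure (((fun s : X × Set X => s.1) '' C) ∩ Y))ᶜ ∈ nhds x :=
      isClosed_closure.isOpen_compl.mem_nhds hx2
    obtain ⟨K, hK, hKc, hKO⟩ := exists_mem_nhds_isClosed_subset hO
    obtain ⟨B, hB1, hxB, hBK⟩ := hB.mem_nhds_iff.mp hK
    refine ⟨(x, B), hx, hxB, hB1, fun s hs hsY hsB => ?_⟩
    have h2 : s.1 ∈ K := closure_minimal hBK hKc hsB
    exact hKO h2 (subset_closure ⟨⟨s, hs, rfl⟩, hsY⟩))
  apply trace_lemma hMA hΩ hcard (fun B hB' => hB.isOpen hB') hR D hDc (fun a => (T a).2)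
    (fun a => (hT a).2.2.1)
  intro a b hab hsub
  have h1 : (T a).2 ⊆ closure (T b).2 :=
    (hD.open_subset_closure_inter (hB.isOpen (hT a).2.2.1)).trans (closure_mono hsub)
  exact (hT b).2.2.2 (T a) (mem_image_of_mem _ hab) (hT a).1 (h1 (hT a).2.1)

/-- Under Martin's axiom `X` is first countable. -/
theorem firstCountable [TopologicalSpace X] [SeparableSpace X] [T3Space X]
    (hMA : MartinAxiomAlephOne) (hΩ : ∀ a : Ω, (Iio a).Countable) (hcard : #Ω ≤ ℵ₁)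
    {𝔅 : Set (Set X)} (hB : IsTopologicalBasis 𝔅) (hR : CountableRank 𝔅) (p : X) :
    ∃ 𝒞 : Set (Set X), 𝒞.Countable ∧ (∀ W ∈ 𝒞, IsOpen W ∧ p ∈ W) ∧
      ∀ V, IsOpen V → p ∈ V → ∃ W ∈ 𝒞, W ⊆ V := by
  classical
  by_contra hcon
  push Not at hcon
  obtain ⟨D, hDc, hD⟩ := exists_countable_dense X
  obtain ⟨V, hV⟩ := exists_seq hΩ (fun (C : Set (Set X)) B =>
    p ∈ B ∧ B ∈ 𝔅 ∧ ∀ B' ∈ C, p ∈ B' → B' ∈ 𝔅 → ¬ B' ⊆ closure B) (by
    intro C hC
    obtain ⟨O, hO, hpO, hO2⟩ := hcon {B' ∈ C | p ∈ B' ∧ B' ∈ 𝔅} (hC.mono (sep_subset _ _))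
      (fun W hW => ⟨hB.isOpen hW.2.2, hW.2.1⟩)
    obtain ⟨K, hK, hKc, hKO⟩ := exists_mem_nhds_isClosed_subset (hO.mem_nhds hpO)
    obtain ⟨B, hB1, hpB, hBK⟩ := hB.mem_nhds_iff.mp hK
    refine ⟨B, hpB, hB1, fun B' hB' hpB' hB'2 hsub => ?_⟩
    exact hO2 B' ⟨hB', hpB', hB'2⟩ (hsub.trans ((closure_minimal hBK hKc).trans hKO)))
  apply trace_lemma hMA hΩ hcard (fun B hB' => hB.isOpen hB') hR D hDc V (fun a => (hV a).2.1)
  intro a b hab hsub
  have h1 : V a ⊆ closure (V b) :=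
    (hD.open_subset_closure_inter (hB.isOpen (hV a).2.1)).trans (closure_mono hsub)
  exact (hV b).2.2 (V a) (mem_image_of_mem _ hab) (hV a).1 (hV a).2.1 h1

/-- The base is countable. -/
theorem base_countable [TopologicalSpace X] [SeparableSpace X] [T3Space X]
    (hMA : MartinAxiomAlephOne) (hΩ : ∀ a : Ω, (Iio a).Countable) (hcard : #Ω ≤ ℵ₁)
    {𝔅 : Set (Set X)} (hB : IsTopologicalBasis 𝔅) (hN : NoetherianFamily 𝔅)
    (hR : CountableRank 𝔅) : 𝔅.Countable := by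
  classical
  by_contra hunc
  have hfc := firstCountable hMA hΩ hcard hB hR
  choose L hLc hL1 hL2 using hfc
  obtain ⟨V, hV⟩ := exists_seq hΩ (fun (C : Set (Set X)) B =>
    B ∈ 𝔅 ∧ B ∉ C ∧ ∀ B' ∈ 𝔅, B' ∉ C → B ⊆ B' → B' = B) (by
    intro C hC
    have hne : (𝔅 \ C).Nonempty := by
      by_contra h0
      rw [not_nonempty_iff_eq_empty, sdiff_eq_empty] at h0
      exact hunc (hC.mono h0)
    obtain ⟨A, hA, hmax⟩ := exists_maximal hN (𝔅 \ C) sdiff_subset hne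
    exact ⟨A, hA.1, hA.2, fun B' hB' hB'C hsub => hmax B' ⟨hB', hB'C⟩ hsub⟩)
  obtain ⟨A, hA, hA2⟩ := key hMA hΩ hcard (hereditarilyLindelof hΩ hB hN hR) (by
    intro N hNo
    obtain ⟨E, hEN, hEc, hE⟩ := hereditarilySeparable hMA hΩ hcard hB hR Nᶜ
    refine ⟨⋃ e ∈ E, L e, hEc.biUnion (fun e _ => hLc e), ?_, ?_⟩
    · intro W hW
      simp only [mem_iUnion] at hW
      obtain ⟨e, he, hW⟩ := hW
      exact ⟨(hL1 e W hW).1, fun hsub => hEN he (hsub (hL1 e W hW).2)⟩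
    · intro W hWo hWN
      obtain ⟨x, hxW, hxN⟩ := not_subset.mp hWN
      obtain ⟨e, heW, heE⟩ := mem_closure_iff.mp (hE hxN) W hWo hxW
      obtain ⟨W', hW', hsub⟩ := hL2 e W hWo heW
      exact ⟨W', mem_biUnion heE hW', hsub⟩)
    V (fun a => hB.isOpen (hV a).1) (by
    intro a b hab hsub
    have h1 := (hV a).2.2 (V b) (hV b).1 (fun h => (hV b).2.1 (by
      obtain ⟨c, hc, hcb⟩ := h
      exact ⟨c, (mem_Iio.mp hc).trans hab, hcb⟩)) hsub
    exact (hV b).2.1 ⟨a, hab, h1.symm⟩)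
  exact no_seq (fun B hB' => hB.isOpen hB') hR V (fun a => (hV a).1) A hA hA2

end Space

/-- Under Martin's axiom for `ℵ₁` dense sets, every Noetherian base of countable rank of a
separable regular (`T₃`, hence `T₁`) space is countable and the space is metrizable. -/
theorem result_proof (hMA : MartinAxiomAlephOne) (X : Type u) [TopologicalSpace X] [T3Space X]
    [SeparableSpace X] (𝔅 : Set (Set X)) (hB : IsTopologicalBasis 𝔅)
    (hN : NoetherianFamily 𝔅) (hR : CountableRank 𝔅) :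
    𝔅.Countable ∧ MetrizableSpace X := by
  have hΩ : ∀ a : (ℵ₁ : Cardinal.{0}).ord.ToType, (Iio a).Countable := fun a =>
    le_aleph0_iff_set_countable.mp (lt_aleph_one_iff.mp (by simpa using mk_Iio_lt a (by simp)))
  have hcard : #(ℵ₁ : Cardinal.{0}).ord.ToType = ℵ₁ := mk_ord_toType _
  have : Uncountable (ℵ₁ : Cardinal.{0}).ord.ToType := by
    rw [← aleph0_lt_mk_iff, hcard]
    exact aleph0_lt_aleph_one
  have hc : 𝔅.Countable := base_countable hMA hΩ hcard.le hB hN hR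
  refine ⟨hc, ?_⟩
  have : SecondCountableTopology X := hB.secondCountableTopology hc
  exact metrizableSpace_of_t3_secondCountable X

end Pool.Agent.Results.MP_d4a483_lc.MartinMetrizable
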