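import Mathlib

/-!
# Seymour's conjecture on Menger duals of Mengerian set systems

We exhibit a Mengerian set system `F` with eight blocks on seven points which does not contain
`Q` as a minor and whose Menger dual does not have the Menger property.
-/

namespace Pool.Agent.Results.MP_f18e63_co.MengerDual

open Finset

universe u

/-- A (finite) set system: a finite set of points together with a collection of distinct subsets
of the point set, the blocks. -/
structure SetSystem (α : Type u) [DecidableEq α] where
  /-- the points -/
  pts : Finset α
  /-- the blocks -/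
  blocks : Finset (Finset α)
  /-- blocks are sets of points -/
  sub : ∀ B ∈ blocks, B ⊆ pts

section Defs

variable {α : Type u} [DecidableEq α]

/-- The inclusion-minimal members of a collection of finite sets. -/
def minimals (F : Finset (Finset α)) : Finset (Finset α) :=
  F.filter (fun B => ∀ C ∈ F, C ⊆ B → C = B)

/-- The subsets of `S` that meet every member of `F`. -/
def transversals (S : Finset α) (F : Finset (Finset α)) : Finset (Finset α) :=
  S.powerset.filter (fun C => ∀ B ∈ F, (C ∩ B).Nonempty)

namespace SetSystem

/-- The inclusion-minimal blocks `F_min`. -/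
def minBlocks (F : SetSystem α) : Finset (Finset α) := minimals F.blocks

/-- The Menger dual `F_{≥1}`: on the same points, its blocks are the inclusion-minimal subsets
of the point set that meet every block of `F_min`. -/
def dual (F : SetSystem α) : SetSystem α where
  pts := F.pts
  blocks := minimals (transversals F.pts F.minBlocks)
  sub := by
    intro B hB
    exact Finset.mem_powerset.mp (Finset.mem_filter.mp (Finset.mem_filter.mp hB).1).1

/-- The Menger property: the largest number of pairwise disjoint blocks of `F_min` equals the
least cardinality of a block of the Menger dual (with the convention that `F` has it when the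
empty set is a block and when there is no block). -/
def MengerProperty (F : SetSystem α) : Prop :=
  ∅ ∈ F.blocks ∨ F.blocks = ∅ ∨
    ∃ k : ℕ,
      IsGreatest {n : ℕ | ∃ P : Finset (Finset α), P ⊆ F.minBlocks ∧
        (∀ B ∈ P, ∀ C ∈ P, B ≠ C → Disjoint B C) ∧ P.card = n} k ∧
      IsLeast {n : ℕ | ∃ C ∈ F.dual.blocks, C.card = n} k

/-- `F` is Mengerian: the empty set is a block, or for every `c` from points to non-negative
integers there is `f` from blocks to non-negative integers with `∑_{B ∋ x} f B ≤ c x` for all
points `x`, and with `∑_B f B` equal to the least weight `∑_{x ∈ C} c x` of a block `C` of the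
Menger dual. -/
def Mengerian (F : SetSystem α) : Prop :=
  ∅ ∈ F.blocks ∨
    ∀ c : α → ℕ, ∃ f : Finset α → ℕ,
      (∀ x ∈ F.pts, ∑ B ∈ F.blocks.filter (fun B => x ∈ B), f B ≤ c x) ∧
      IsLeast {n : ℕ | ∃ C ∈ F.dual.blocks, ∑ x ∈ C, c x = n} (∑ B ∈ F.blocks, f B)

/-- The weak point-restriction: blocks `B \ T`, points `S \ T`. -/
def weakRestrict (F : SetSystem α) (T : Finset α) : SetSystem α where
  pts := F.pts \ T
  blocks := F.blocks.image (fun B => B \ T)
  sub := by
    intro B hB
    obtain ⟨C, hC, rfl⟩ := Finset.mem_image.mp hB
    exact Finset.sdiff_subset_sdiff (F.sub C hC) (Finset.Subset.refl T)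

/-- The strong point-restriction: the blocks disjoint from `T`, points `S \ T`. -/
def strongRestrict (F : SetSystem α) (T : Finset α) : SetSystem α where
  pts := F.pts \ T
  blocks := F.blocks.filter (fun B => Disjoint B T)
  sub := by
    intro B hB
    obtain ⟨hB1, hB2⟩ := Finset.mem_filter.mp hB
    intro x hx
    exact Finset.mem_sdiff.mpr ⟨F.sub B hB1 hx, fun hxT => Finset.disjoint_left.mp hB2 hx hxT⟩

/-- `IsMinor F G`: the system `G` is reached from `F` by a sequence of weak and strong
point-restrictions. -/
inductive IsMinor (F : SetSystem α) : SetSystem α → Prop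
  | refl : IsMinor F F
  | weak (G : SetSystem α) (T : Finset α) : T ⊆ G.pts → IsMinor F G →
      IsMinor F (G.weakRestrict T)
  | strong (G : SetSystem α) (T : Finset α) : T ⊆ G.pts → IsMinor F G →
      IsMinor F (G.strongRestrict T)

end SetSystem

/-- The blocks of Seymour's system `Q = (abc, cde, bdf, aef, cf, be, ad)` on the six points
`a = 0, b = 1, c = 2, d = 3, e = 4, f = 5`. -/
def Qblocks : Finset (Finset (Fin 6)) :=
  {{0, 1, 2}, {2, 3, 4}, {1, 3, 5}, {0, 4, 5}, {2, 5}, {1, 4}, {0, 3}}

/-- `F` contains `Q` as a minor: for some minor `G` of `F`, the minimal blocks of `G` are, up to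
renaming points (by an injection from the points of `Q`, all of which lie in blocks of `Q`,
into the points), exactly the blocks of `Q`. -/
def ContainsQ (F : SetSystem α) : Prop :=
  ∃ G : SetSystem α, F.IsMinor G ∧
    ∃ g : Fin 6 ↪ α, G.minBlocks = Qblocks.image (fun B => B.map g)

end Defs

end Pool.Agent.Results.MP_f18e63_co.MengerDual
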