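import Mathlib
import Pool.Agent.H29.SPL.MengerDualDefs

/-!
# Seymour's conjecture on Menger duals of Mengerian set systems

We exhibit a Mengerian set system `F` with eight blocks on seven points which does not contain
`Q` as a minor and whose Menger dual does not have the Menger property.
-/

namespace Pool.Agent.Results.MP_f18e63_co.MengerDual

open Finset

universe u


section Defs

variable {α : Type u} [DecidableEq α]


theorem minimals_subset (F : Finset (Finset α)) : minimals F ⊆ F :=
  Finset.filter_subset _ _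


namespace SetSystem


end SetSystem


end Defs

/-! ## The counterexample

Points: `a = 0, A = 1, d = 2, b = 3, e = 4, c = 5, f = 6`. Blocks:
`cf, ad, Ad, be, abc, bdf, Aef, cde`. -/

/-- The eight blocks. -/
def exBlocks : Finset (Finset (Fin 7)) :=
  {{5, 6}, {0, 2}, {1, 2}, {3, 4}, {0, 3, 5}, {2, 3, 6}, {1, 4, 6}, {2, 4, 5}}

/-- The counterexample. -/
def ex : SetSystem (Fin 7) where
  pts := Finset.univ
  blocks := exBlocks
  sub := fun _ _ => Finset.subset_univ _

/-- The six blocks of the Menger dual: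
`bdf, cde, aAbc, Abcd, adef, aAef`. -/
def dualBlocks : Finset (Finset (Fin 7)) :=
  {{2, 3, 6}, {2, 4, 5}, {0, 1, 3, 5}, {1, 2, 3, 5}, {0, 2, 4, 6}, {0, 1, 4, 6}}

theorem ex_min : minimals exBlocks = exBlocks := by decide +kernel

theorem ex_dual : minimals (transversals Finset.univ exBlocks) = dualBlocks := by
  decide +kernel

theorem dual_min : minimals dualBlocks = dualBlocks := by decide +kernel

theorem dual_dual : minimals (transversals Finset.univ dualBlocks) = exBlocks := by
  decide +kernel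

theorem ex_dual_blocks : ex.dual.blocks = dualBlocks := by
  show minimals (transversals Finset.univ (minimals exBlocks)) = dualBlocks
  rw [ex_min, ex_dual]

theorem ex_dual_dual_blocks : ex.dual.dual.blocks = exBlocks := by
  show minimals (transversals Finset.univ (minimals ex.dual.blocks)) = exBlocks
  rw [ex_dual_blocks, dual_min, dual_dual]


/-! ### The dual does not have the Menger property -/

theorem dual_inter : ∀ B ∈ dualBlocks, ∀ C ∈ dualBlocks, B ≠ C → ¬ Disjoint B C := by
  decide +kernel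

theorem ex_card : ∀ B ∈ exBlocks, 2 ≤ B.card := by decide +kernel

theorem not_menger : ¬ ex.dual.MengerProperty := by
  rintro (h | h | ⟨k, hk1, hk2⟩)
  · rw [ex_dual_blocks] at h
    revert h
    decide +kernel
  · rw [ex_dual_blocks] at h
    revert h
    decide +kernel
  · obtain ⟨C, hC, hCk⟩ := hk2.1
    rw [ex_dual_dual_blocks] at hC
    have h2 : 2 ≤ k := hCk ▸ ex_card C hC
    obtain ⟨P, hP, hPd, hPk⟩ := hk1.1
    have hcard : 1 < P.card := by omega
    obtain ⟨B, hB, C, hC, hBC⟩ := Finset.one_lt_card.mp hcard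
    have hmin : ex.dual.minBlocks = dualBlocks := by
      show minimals ex.dual.blocks = dualBlocks
      rw [ex_dual_blocks, dual_min]
    rw [hmin] at hP
    exact dual_inter B (hP hB) C (hP hC) hBC (hPd B hB C hC hBC)

/-! ### The example is Mengerian -/

/-- The arithmetic heart: if every dual block has weight at least `k + 1`, then some block can
be removed so that every dual block keeps weight at least `k`. -/
theorem arith (a A d b e c f k : ℕ) (h1 : k + 1 ≤ d + b + f) (h2 : k + 1 ≤ d + e + c)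
    (h3 : k + 1 ≤ a + A + b + c) (h4 : k + 1 ≤ A + d + b + c) (h5 : k + 1 ≤ a + d + e + f)
    (h6 : k + 1 ≤ a + A + e + f) :
    (1 ≤ c ∧ 1 ≤ f) ∨ (1 ≤ b ∧ 1 ≤ e) ∨
    (1 ≤ a ∧ 1 ≤ d ∧ k + 2 ≤ a + d + e + f) ∨
    (1 ≤ A ∧ 1 ≤ d ∧ k + 2 ≤ A + d + b + c) ∨
    (1 ≤ a ∧ 1 ≤ b ∧ 1 ≤ c ∧ k + 3 ≤ a + A + b + c ∧ k + 2 ≤ A + d + b + c) ∨
    (1 ≤ d ∧ 1 ≤ b ∧ 1 ≤ f ∧ k + 3 ≤ d + b + f ∧ k + 2 ≤ A + d + b + c ∧
      k + 2 ≤ a + d + e + f) ∨
    (1 ≤ A ∧ 1 ≤ e ∧ 1 ≤ f ∧ k + 2 ≤ a + d + e + f ∧ k + 3 ≤ a + A + e + f) ∨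
    (1 ≤ d ∧ 1 ≤ e ∧ 1 ≤ c ∧ k + 3 ≤ d + e + c ∧ k + 2 ≤ A + d + b + c ∧
      k + 2 ≤ a + d + e + f) := by
  by_cases hcf : 1 ≤ c ∧ 1 ≤ f
  · exact Or.inl hcf
  by_cases hbe : 1 ≤ b ∧ 1 ≤ e
  · exact Or.inr (Or.inl hbe)
  right; right
  rcases Nat.eq_zero_or_pos c with hc | hc
  · rcases Nat.eq_zero_or_pos b with hb | hb
    · rcases Nat.eq_zero_or_pos d with hd | hd
      · exact Or.inr (Or.inr (Or.inr (Or.inr (Or.inl ⟨by omega, by omega, by omega, by omega,
          by omega⟩))))
      · rcases Nat.eq_zero_or_pos a with ha | ha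
        · exact Or.inr (Or.inl ⟨by omega, by omega, by omega⟩)
        · exact Or.inl ⟨by omega, by omega, by omega⟩
    · have he : e = 0 := by omega
      rcases Nat.eq_zero_or_pos a with ha | ha
      · rcases Nat.eq_zero_or_pos A with hA | hA
        · exact Or.inr (Or.inr (Or.inr (Or.inl ⟨by omega, by omega, by omega, by omega,
            by omega, by omega⟩)))
        · exact Or.inr (Or.inl ⟨by omega, by omega, by omega⟩)
      · exact Or.inl ⟨by omega, by omega, by omega⟩
  · have hf : f = 0 := by omega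
    rcases Nat.eq_zero_or_pos b with hb | hb
    · rcases Nat.eq_zero_or_pos a with ha | ha
      · rcases Nat.eq_zero_or_pos A with hA | hA
        · exact Or.inr (Or.inr (Or.inr (Or.inr (Or.inr ⟨by omega, by omega, by omega, by omega,
            by omega, by omega⟩))))
        · exact Or.inr (Or.inl ⟨by omega, by omega, by omega⟩)
      · exact Or.inl ⟨by omega, by omega, by omega⟩
    · have he : e = 0 := by omega
      rcases Nat.eq_zero_or_pos a with ha | ha
      · exact Or.inr (Or.inl ⟨by omega, by omega, by omega⟩)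
      · exact Or.inr (Or.inr (Or.inl ⟨by omega, by omega, by omega, by omega, by omega⟩))

/-- Some block can be removed from the weight `c`. -/
theorem exists_block (k : ℕ) (c : Fin 7 → ℕ)
    (h : ∀ C ∈ dualBlocks, k + 1 ≤ ∑ x ∈ C, c x) :
    ∃ B ∈ exBlocks, (∀ x ∈ B, 1 ≤ c x) ∧
      ∀ C ∈ dualBlocks, k + (C ∩ B).card ≤ ∑ x ∈ C, c x := by
  have h1 : k + 1 ≤ c 2 + c 3 + c 6 := by
    have := h {2, 3, 6} (by decide)
    simpa [add_assoc] using this
  have h2 : k + 1 ≤ c 2 + c 4 + c 5 := by
    have := h {2, 4, 5} (by decide)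
    simpa [add_assoc] using this
  have h3 : k + 1 ≤ c 0 + c 1 + c 3 + c 5 := by
    have := h {0, 1, 3, 5} (by decide)
    simpa [add_assoc] using this
  have h4 : k + 1 ≤ c 1 + c 2 + c 3 + c 5 := by
    have := h {1, 2, 3, 5} (by decide)
    simpa [add_assoc] using this
  have h5 : k + 1 ≤ c 0 + c 2 + c 4 + c 6 := by
    have := h {0, 2, 4, 6} (by decide)
    simpa [add_assoc] using this
  have h6 : k + 1 ≤ c 0 + c 1 + c 4 + c 6 := by
    have := h {0, 1, 4, 6} (by decide)
    simpa [add_assoc] using this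
  -- rewrite the conclusion
  have main : ∀ B ∈ exBlocks, ∀ n1 n2 n3 n4 n5 n6 : ℕ,
      (({2, 3, 6} : Finset (Fin 7)) ∩ B).card = n1 →
      (({2, 4, 5} : Finset (Fin 7)) ∩ B).card = n2 →
      (({0, 1, 3, 5} : Finset (Fin 7)) ∩ B).card = n3 →
      (({1, 2, 3, 5} : Finset (Fin 7)) ∩ B).card = n4 →
      (({0, 2, 4, 6} : Finset (Fin 7)) ∩ B).card = n5 →
      (({0, 1, 4, 6} : Finset (Fin 7)) ∩ B).card = n6 →
      (∀ x ∈ B, 1 ≤ c x) →
      k + n1 ≤ c 2 + c 3 + c 6 →
      k + n2 ≤ c 2 + c 4 + c 5 →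
      k + n3 ≤ c 0 + c 1 + c 3 + c 5 →
      k + n4 ≤ c 1 + c 2 + c 3 + c 5 →
      k + n5 ≤ c 0 + c 2 + c 4 + c 6 →
      k + n6 ≤ c 0 + c 1 + c 4 + c 6 →
      ∃ B ∈ exBlocks, (∀ x ∈ B, 1 ≤ c x) ∧
        ∀ C ∈ dualBlocks, k + (C ∩ B).card ≤ ∑ x ∈ C, c x := by
    intro B hB n1 n2 n3 n4 n5 n6 e1 e2 e3 e4 e5 e6 hc g1 g2 g3 g4 g5 g6
    refine ⟨B, hB, hc, ?_⟩
    intro C hC
    simp only [dualBlocks, Finset.mem_insert, Finset.mem_singleton] at hC
    rcases hC with rfl | rfl | rfl | rfl | rfl | rfl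
    · rw [e1]
      refine g1.trans (le_of_eq ?_)
      simp [add_assoc]
    · rw [e2]
      refine g2.trans (le_of_eq ?_)
      simp [add_assoc]
    · rw [e3]
      refine g3.trans (le_of_eq ?_)
      simp [add_assoc]
    · rw [e4]
      refine g4.trans (le_of_eq ?_)
      simp [add_assoc]
    · rw [e5]
      refine g5.trans (le_of_eq ?_)
      simp [add_assoc]
    · rw [e6]
      refine g6.trans (le_of_eq ?_)
      simp [add_assoc]
  rcases arith (c 0) (c 1) (c 2) (c 3) (c 4) (c 5) (c 6) k h1 h2 h3 h4 h5 h6 with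
    ⟨a1, a2⟩ | ⟨a1, a2⟩ | ⟨a1, a2, a3⟩ | ⟨a1, a2, a3⟩ | ⟨a1, a2, a3, a4, a5⟩ |
    ⟨a1, a2, a3, a4, a5, a6⟩ | ⟨a1, a2, a3, a4, a5⟩ | ⟨a1, a2, a3, a4, a5, a6⟩
  · exact main {5, 6} (by decide) 1 1 1 1 1 1 (by decide) (by decide) (by decide)
      (by decide) (by decide) (by decide) (by simp [a1, a2]) h1 h2 h3 h4 h5 h6
  · exact main {3, 4} (by decide) 1 1 1 1 1 1 (by decide) (by decide) (by decide)
      (by decide) (by decide) (by decide) (by simp [a1, a2]) h1 h2 h3 h4 h5 h6
  · exact main {0, 2} (by decide) 1 1 1 1 2 1 (by decide) (by decide) (by decide)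
      (by decide) (by decide) (by decide) (by simp [a1, a2]) h1 h2 h3 h4 a3 h6
  · exact main {1, 2} (by decide) 1 1 1 2 1 1 (by decide) (by decide) (by decide)
      (by decide) (by decide) (by decide) (by simp [a1, a2]) h1 h2 h3 a3 h5 h6
  · exact main {0, 3, 5} (by decide) 1 1 3 2 1 1 (by decide) (by decide) (by decide)
      (by decide) (by decide) (by decide) (by simp [a1, a2, a3]) h1 h2 a4 a5 h5 h6
  · exact main {2, 3, 6} (by decide) 3 1 1 2 2 1 (by decide) (by decide) (by decide)
      (by decide) (by decide) (by decide) (by simp [a1, a2, a3]) a4 h2 h3 a5 a6 h6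
  · exact main {1, 4, 6} (by decide) 1 1 1 1 2 3 (by decide) (by decide) (by decide)
      (by decide) (by decide) (by decide) (by simp [a1, a2, a3]) h1 h2 h3 h4 a4 a5
  · exact main {2, 4, 5} (by decide) 1 3 1 2 2 1 (by decide) (by decide) (by decide)
      (by decide) (by decide) (by decide) (by simp [a1, a2, a3]) h1 a4 h3 a5 a6 h6

/-- Integral packings of the weight `c` by blocks. -/
theorem pack : ∀ (k : ℕ) (c : Fin 7 → ℕ), (∀ C ∈ dualBlocks, k ≤ ∑ x ∈ C, c x) →
    ∃ f : Finset (Fin 7) → ℕ,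
      (∀ x, ∑ B ∈ exBlocks.filter (fun B => x ∈ B), f B ≤ c x) ∧
      ∑ B ∈ exBlocks, f B = k := by
  intro k
  induction k with
  | zero =>
    intro c _
    exact ⟨fun _ => 0, by simp, by simp⟩
  | succ k ih =>
    intro c hc
    obtain ⟨B, hB, hBc, hk⟩ := exists_block k c hc
    obtain ⟨f, hf1, hf2⟩ := ih (fun x => c x - if x ∈ B then 1 else 0) (by
      intro C hC
      have h1 := hk C hC
      have h2 : ∑ x ∈ C, c x =
          ∑ x ∈ C, (c x - if x ∈ B then 1 else 0) + (C ∩ B).card := by
        rw [← Finset.filter_mem_eq_inter, Finset.card_filter, ← Finset.sum_add_distrib]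
        refine Finset.sum_congr rfl ?_
        intro x _
        by_cases hx : x ∈ B
        · have := hBc x hx
          simp only [hx, if_true]
          omega
        · simp [hx]
      omega)
    refine ⟨fun B' => f B' + if B' = B then 1 else 0, ?_, ?_⟩
    · intro x
      have h1 := hf1 x
      rw [Finset.sum_add_distrib]
      by_cases hx : x ∈ B
      · have h2 : ∑ B' ∈ exBlocks.filter (fun B => x ∈ B), (if B' = B then 1 else 0) = 1 := by
          rw [Finset.sum_ite_eq']
          simp [hB, hx]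
        have h3 := hBc x hx
        simp only [hx, if_true] at h1
        omega
      · have h2 : ∑ B' ∈ exBlocks.filter (fun B => x ∈ B), (if B' = B then 1 else 0) = 0 := by
          rw [Finset.sum_ite_eq']
          simp [hx]
        simp only [hx, if_false] at h1
        omega
    · rw [Finset.sum_add_distrib, hf2, Finset.sum_ite_eq']
      simp [hB]

theorem ex_mengerian : ex.Mengerian := by
  right
  intro c
  obtain ⟨C0, hC0, hmin⟩ := Finset.exists_min_image dualBlocks (fun C => ∑ x ∈ C, c x)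
    ⟨{2, 3, 6}, by decide⟩
  obtain ⟨f, hf1, hf2⟩ := pack (∑ x ∈ C0, c x) c hmin
  refine ⟨f, fun x _ => hf1 x, ?_⟩
  rw [ex_dual_blocks]
  have hf2' : ∑ B ∈ ex.blocks, f B = ∑ x ∈ C0, c x := hf2
  rw [hf2']
  refine ⟨⟨C0, hC0, rfl⟩, ?_⟩
  rintro n ⟨C, hC, rfl⟩
  exact hmin C hC

/-! ### No `Q` minor -/

open SetSystem in
theorem minor_form (G : SetSystem (Fin 7)) (h : IsMinor ex G) :
    ∃ C D : Finset (Fin 7), G.pts = Finset.univ \ (C ∪ D) ∧
      G.blocks = (exBlocks.filter (fun B => Disjoint B D)).image (fun B => B \ C) := by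
  induction h with
  | refl =>
    refine ⟨∅, ∅, by simp [ex], ?_⟩
    simp [ex]
  | weak G T hT _ ih =>
    obtain ⟨C, D, h1, h2⟩ := ih
    refine ⟨C ∪ T, D, ?_, ?_⟩
    · simp only [weakRestrict, h1]
      ext x
      simp only [Finset.mem_sdiff, Finset.mem_univ, true_and, Finset.mem_union]
      tauto
    · simp only [weakRestrict, h2, Finset.image_image]
      refine Finset.image_congr ?_
      intro B _
      simp only [Function.comp]
      ext x
      simp only [Finset.mem_sdiff, Finset.mem_union]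
      tauto
  | strong G T hT _ ih =>
    obtain ⟨C, D, h1, h2⟩ := ih
    refine ⟨C, D ∪ T, ?_, ?_⟩
    · simp only [strongRestrict, h1]
      ext x
      simp only [Finset.mem_sdiff, Finset.mem_univ, true_and, Finset.mem_union]
      tauto
    · simp only [strongRestrict, h2]
      ext X
      simp only [Finset.mem_filter, Finset.mem_image]
      constructor
      · rintro ⟨⟨B, ⟨hB, hBD⟩, rfl⟩, hXT⟩
        refine ⟨B, ⟨hB, ?_⟩, rfl⟩
        rw [Finset.disjoint_union_right]
        refine ⟨hBD, ?_⟩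
        rw [Finset.disjoint_left]
        intro x hxB hxT
        have hxG : x ∈ G.pts := hT hxT
        rw [h1] at hxG
        simp only [Finset.mem_sdiff, Finset.mem_univ, true_and, Finset.mem_union, not_or] at hxG
        exact Finset.disjoint_left.mp hXT (Finset.mem_sdiff.mpr ⟨hxB, hxG.1⟩) hxT
      · rintro ⟨B, ⟨hB, hBD⟩, rfl⟩
        rw [Finset.disjoint_union_right] at hBD
        refine ⟨⟨B, ⟨hB, hBD.1⟩, rfl⟩, ?_⟩
        exact Finset.disjoint_of_subset_left Finset.sdiff_subset hBD.2

theorem card0 : (minimals ((exBlocks.filter (fun B => Disjoint B ∅)).image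
    (fun B => B \ ∅))).card ≠ 7 := by
  decide +kernel

theorem card_con : ∀ x : Fin 7, (minimals ((exBlocks.filter (fun B => Disjoint B ∅)).image
    (fun B => B \ {x}))).card ≠ 7 := by
  decide +kernel

theorem card_del : ∀ x : Fin 7, (minimals ((exBlocks.filter (fun B => Disjoint B {x})).image
    (fun B => B \ ∅))).card ≠ 7 := by
  decide +kernel

theorem card_both : ∀ x : Fin 7, (minimals ((exBlocks.filter (fun B => Disjoint B {x})).image
    (fun B => B \ {x}))).card ≠ 7 := by
  decide +kernel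

theorem Qcover : ∀ i : Fin 6, ∃ B ∈ Qblocks, i ∈ B := by
  decide

theorem no_Q : ¬ ContainsQ ex := by
  rintro ⟨G, hG, g, hg⟩
  obtain ⟨C, D, h1, h2⟩ := minor_form G hG
  have hcard7 : G.minBlocks.card = 7 := by
    rw [hg, Finset.card_image_of_injective _ (Finset.map_injective g)]
    decide
  have hrange : Finset.univ.map g ⊆ Finset.univ \ (C ∪ D) := by
    rw [← h1]
    intro y hy
    obtain ⟨i, _, rfl⟩ := Finset.mem_map.mp hy
    obtain ⟨B, hB, hiB⟩ := Qcover i
    have hmem : B.map g ∈ G.minBlocks := by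
      rw [hg]
      exact Finset.mem_image_of_mem _ hB
    have hmem' : B.map g ∈ G.blocks := minimals_subset _ hmem
    exact G.sub _ hmem' (Finset.mem_map_of_mem g hiB)
  have hcardCD : (C ∪ D).card ≤ 1 := by
    have h3 := Finset.card_le_card hrange
    rw [Finset.card_map, Finset.card_sdiff_of_subset (Finset.subset_univ _)] at h3
    simp only [Finset.card_univ, Fintype.card_fin] at h3
    omega
  have hmin : G.minBlocks = minimals
      ((exBlocks.filter (fun B => Disjoint B D)).image (fun B => B \ C)) := by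
    show minimals G.blocks = _
    rw [h2]
  rw [hmin] at hcard7
  have hC1 : C.card ≤ 1 := (Finset.card_le_card Finset.subset_union_left).trans hcardCD
  have hD1 : D.card ≤ 1 := (Finset.card_le_card Finset.subset_union_right).trans hcardCD
  rcases Finset.card_le_one_iff_subset_singleton.mp hcardCD with ⟨x, hx⟩
  have hCx : C = ∅ ∨ C = {x} :=
    Finset.subset_singleton_iff.mp (Finset.subset_union_left.trans hx)
  have hDx : D = ∅ ∨ D = {x} :=
    Finset.subset_singleton_iff.mp (Finset.subset_union_right.trans hx)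
  rcases hCx with rfl | rfl <;> rcases hDx with rfl | rfl
  · exact card0 hcard7
  · exact card_del x hcard7
  · exact card_con x hcard7
  · exact card_both x hcard7

theorem ex_antichain : ∀ B ∈ exBlocks, ∀ C ∈ exBlocks, B ⊆ C → B = C := by
  decide +kernel

/-- **Seymour's 1977 conjecture is false**: there is a set system on seven points, no block of
which contains another, which is Mengerian and does not contain `Q` as a minor, and whose Menger
dual does not have the Menger property. -/
theorem result_proof : ∃ F : SetSystem (Fin 7),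
    (∀ B ∈ F.blocks, ∀ C ∈ F.blocks, B ⊆ C → B = C) ∧
    F.Mengerian ∧ ¬ ContainsQ F ∧ ¬ F.dual.MengerProperty :=
  ⟨ex, ex_antichain, ex_mengerian, no_Q, not_menger⟩

end Pool.Agent.Results.MP_f18e63_co.MengerDual
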