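import Mathlib

/-!
# Perfectoid universal covers of curves: the definitions of the two theorems

A connected smooth projective curve `C` over an algebraically closed field `K` is represented by its
function field `F / K`.  Finite étale covers of `C` are the finite extensions of `F` unramified at all
places; `UC K F` is the compositum of all of them inside `AlgebraicClosure F`.  The `K`-points of the
universal cover are the `K`-places of `UC K F`.
-/

universe u v w

namespace PUC

/-- A `K`-place (place of degree one) of a field extension `E` of `K`: a valuation subring of `E`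
containing `K` all of whose elements are of the form `c + m` with `c ∈ K` and `m` in the maximal ideal. -/
structure Place (K : Type u) (E : Type v) [Field K] [Field E] [Algebra K E] where
  ring : ValuationSubring E
  alg_mem : ∀ c : K, algebraMap K E c ∈ ring
  res : ∀ f ∈ ring, ∃ c : K, f - algebraMap K E c ∈ ring.nonunits

section Basic
variable {K : Type u} {E : Type v} [Field K] [Field E] [Algebra K E] (P : Place K E)

/-- The value `f(P) ∈ K` (junk value `0` if `f` has a pole at `P`). -/
noncomputable def Place.val (f : E) : K := by
  classical exact if h : f ∈ P.ring then (P.res f h).choose else 0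

end Basic

section Analytic
variable (K : Type u) {E : Type v} {E' : Type w} [NormedField K] [Field E] [Algebra K E]
  [Field E'] [Algebra K E']

/-- The basic affinoid domain `{P : |t(P)| ≤ 1 for all t ∈ T}`, `T` a finite set of functions. -/
def Dom (T : Finset E) : Set (Place K E) := {P | ∀ t ∈ T, t ∈ P.ring ∧ ‖P.val t‖ ≤ 1}

variable {K}

/-- `f ∘ Φ` is analytic: for every `ε > 0` there are finitely many affinoid domains covering all
`K`-points such that on each of them `f ∘ Φ` (or `1/f ∘ Φ`) is finite and within `ε` of an algebraic
function `g`. -/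
def AnF (Φ : Place K E → Place K E') (f : E') : Prop :=
  ∀ ε : ℝ, 0 < ε → ∃ (n : ℕ) (T : Fin n → Finset E) (g : Fin n → E),
    (∀ P : Place K E, ∃ i, P ∈ Dom K (T i)) ∧
    ∀ i, (∀ P ∈ Dom K (T i),
            f ∈ (Φ P).ring ∧ g i ∈ P.ring ∧ ‖(Φ P).val f - P.val (g i)‖ ≤ ε) ∨
         (∀ P ∈ Dom K (T i),
            f⁻¹ ∈ (Φ P).ring ∧ g i ∈ P.ring ∧ ‖(Φ P).val f⁻¹ - P.val (g i)‖ ≤ ε)

end Analytic

/-- `L / F` is unramified at all `K`-places of `L`: the maximal ideal is generated by elements
of `F` (ramification index one; the residue fields are all equal to `K`). -/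
def Unr (K : Type u) (F : Type v) (L : Type w) [Field K] [Field F] [Field L] [Algebra K L]
    [Algebra F L] : Prop :=
  ∀ (P : Place K L) (f : L), f ∈ P.ring.nonunits →
    ∃ t : F, algebraMap F L t ∈ P.ring.nonunits ∧ ∃ h ∈ P.ring, f = h * algebraMap F L t

/-- The function field of the universal cover: the compositum of all finite extensions of `F` in
`AlgebraicClosure F` that are unramified at all `K`-places. -/
noncomputable def UC (K : Type u) (F : Type v) [Field K] [Field F] [Algebra K F] :
    IntermediateField F (AlgebraicClosure F) :=
  sSup {L : IntermediateField F (AlgebraicClosure F) | FiniteDimensional F L ∧ Unr K F L}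

/-- The universal covers of the curves with function fields `F₁` and `F₂` are isomorphic (in the weak
sense that there is a bijection of `K`-points that is analytic in both directions; every isomorphism
of perfectoid spaces over `K` induces one). -/
def UCIso (K : Type u) (F₁ F₂ : Type v) [NormedField K] [Field F₁] [Field F₂] [Algebra K F₁]
    [Algebra K F₂] : Prop :=
  ∃ φ : Place K (UC K F₁) ≃ Place K (UC K F₂),
    (∀ f : UC K F₂, AnF (φ : Place K (UC K F₁) → Place K (UC K F₂)) f) ∧
    (∀ f : UC K F₁, AnF (φ.symm : Place K (UC K F₂) → Place K (UC K F₁)) f)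

/-- `F` is the function field of the curve `y² + y = x^(2g+1) + s x` over `K`. -/
structure IsCurve {K : Type u} [Field K] (g : ℕ) (s : K) (F : Type v) [Field F] [Algebra K F]
    (x y : F) : Prop where
  trans : Transcendental K x
  eqn : y ^ 2 + y = x ^ (2 * g + 1) + algebraMap K F s * x
  gen : IntermediateField.adjoin K {x, y} = ⊤

/-- The projective curve `C_s` over the field `k` obtained by gluing the two affine curves
`y² + y = x^(2g+1) + s x` and `w² + u^(g+1) w = u + s u^(2g+1)` along `u = 1/x`, `w = y/x^(g+1)` is
smooth at all `k`-rational points of both charts (Jacobian criterion). -/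
def SmoothCharts (k : Type v) [Field k] (g : ℕ) (s : k) : Prop :=
  (∀ x y : k, y ^ 2 + y = x ^ (2 * g + 1) + s * x →
    2 * y + 1 ≠ 0 ∨ (2 * g + 1) * x ^ (2 * g) + s ≠ 0) ∧
  (∀ u w : k, w ^ 2 + u ^ (g + 1) * w = u + s * u ^ (2 * g + 1) →
    2 * w + u ^ (g + 1) ≠ 0 ∨ 1 + (2 * g + 1) * s * u ^ (2 * g) - (g + 1) * u ^ g * w ≠ 0)

end PUC
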