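import Mathlib
import Pool.Agent.H38.ScheinP

namespace Pool.Agent.Results.MP_72bf7f_co.ScheinRankAsymptotics

open Filter Finset Pool.Agent.H38.Schein

/-- `A` is the Boolean sum of `k` matrices of the form `u vᵀ`. -/
def IsSumOfOuter {n : ℕ} (A : Matrix (Fin n) (Fin n) Bool) (k : ℕ) : Prop :=
  ∃ (u : Fin k → Fin n → Bool) (v : Fin k → Fin n → Bool),
    ∀ i j, A i j = true ↔ ∃ t, u t i = true ∧ v t j = true

/-- The Schein rank (Boolean rank). -/
noncomputable def scheinRank {n : ℕ} (A : Matrix (Fin n) (Fin n) Bool) : ℕ :=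
  sInf {k | IsSumOfOuter A k}

/-- The probability that a uniformly random `n × n` Boolean matrix has Schein rank less than
`n`. -/
noncomputable def p (n : ℕ) : ℝ :=
  (Nat.card {A : Matrix (Fin n) (Fin n) Bool // scheinRank A < n} : ℝ) /
    Nat.card (Matrix (Fin n) (Fin n) Bool)

/-- The average number of Boolean sums of rows of a uniformly random `(n-1) × n` Boolean matrix,
in closed form. -/
noncomputable def S (n : ℕ) : ℝ :=
  ∑ k ∈ range n, ∑ l ∈ range (n + 1),
    ((n - 1).choose k : ℝ) * (n.choose l : ℝ) * (1 / 2) ^ (k * l) *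
      (1 - (1 / 2) ^ k) ^ (n - l) * (1 - (1 / 2) ^ l) ^ (n - 1 - k)

end Pool.Agent.Results.MP_72bf7f_co.ScheinRankAsymptotics
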