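import Mathlib
import Pool.Agent.H38.ScheinP
import Pool.Agent.H29.SPL.ScheinRankAsymptoticsDefs

namespace Pool.Agent.Results.MP_72bf7f_co.ScheinRankAsymptotics

open Filter Finset Pool.Agent.H38.Schein


lemma isSum_self {n : ℕ} (A : Matrix (Fin n) (Fin n) Bool) : IsSumOfOuter A n := by
  refine ⟨fun t i => decide (t = i), fun t j => A t j, fun i j => ?_⟩
  constructor
  · intro h
    exact ⟨i, by simp, h⟩
  · rintro ⟨t, h1, h2⟩
    have : t = i := by simpa using h1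
    rw [← this]; exact h2

lemma isSum_mono {n k l : ℕ} (A : Matrix (Fin n) (Fin n) Bool) (h : IsSumOfOuter A k)
    (hkl : k ≤ l) : IsSumOfOuter A l := by
  obtain ⟨u, v, huv⟩ := h
  refine ⟨fun t i => if ht : (t : ℕ) < k then u ⟨t, ht⟩ i else false,
    fun t j => if ht : (t : ℕ) < k then v ⟨t, ht⟩ j else false, fun i j => ?_⟩
  rw [huv i j]
  constructor
  · rintro ⟨t, h1, h2⟩
    refine ⟨⟨t, lt_of_lt_of_le t.2 hkl⟩, ?_, ?_⟩
    · simpa using h1
    · simpa using h2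
  · rintro ⟨t, h1, h2⟩
    by_cases ht : (t : ℕ) < k
    · simp only [ht, dif_pos] at h1 h2
      exact ⟨⟨t, ht⟩, h1, h2⟩
    · simp [ht] at h1

lemma scheinRank_lt_iff {n : ℕ} (hn : 1 ≤ n) (A : Matrix (Fin n) (Fin n) Bool) :
    scheinRank A < n ↔ IsSumOfOuter A (n - 1) := by
  have hne : {k | IsSumOfOuter A k}.Nonempty := ⟨n, isSum_self A⟩
  constructor
  · intro h
    exact isSum_mono A (Nat.sInf_mem hne) (by unfold scheinRank at h; omega)
  · intro h
    have : scheinRank A ≤ n - 1 := Nat.sInf_le h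
    omega

/-- the row supports of a Boolean matrix. -/
def toSets {n : ℕ} (A : Matrix (Fin n) (Fin n) Bool) : Fin n → Finset (Fin n) :=
  fun i => univ.filter (fun j => A i j = true)

lemma mem_toSets {n : ℕ} (A : Matrix (Fin n) (Fin n) Bool) (i j : Fin n) :
    j ∈ toSets A i ↔ A i j = true := by simp [toSets]

lemma isSum_iff {n k : ℕ} (A : Matrix (Fin n) (Fin n) Bool) :
    IsSumOfOuter A k ↔ ∃ (X : Fin k → Finset (Fin n)) (Y : Fin k → Finset (Fin n)),
      IsCover (toSets A) X Y := by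
  constructor
  · rintro ⟨u, v, h⟩
    refine ⟨fun t => univ.filter (fun i => u t i = true),
      fun t => univ.filter (fun j => v t j = true), fun i j => ?_⟩
    rw [mem_toSets, h i j]
    simp
  · rintro ⟨X, Y, h⟩
    refine ⟨fun t i => decide (i ∈ X t), fun t j => decide (j ∈ Y t), fun i j => ?_⟩
    rw [← mem_toSets, h i j]
    simp

/-- Boolean matrices and families of row supports. -/
def matEquiv (n : ℕ) : Matrix (Fin n) (Fin n) Bool ≃ (Fin n → Finset (Fin n)) where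
  toFun := toSets
  invFun := fun S => Matrix.of (fun i j => decide (j ∈ S i))
  left_inv := by
    intro A
    funext i j
    change decide (j ∈ toSets A i) = A i j
    rw [Bool.eq_iff_iff, decide_eq_true_iff, mem_toSets]
  right_inv := by
    intro S
    funext i
    ext j
    rw [mem_toSets]
    change decide (j ∈ S i) = true ↔ j ∈ S i
    rw [decide_eq_true_iff]

lemma card_eq {n : ℕ} (hn : 1 ≤ n) :
    Nat.card {A : Matrix (Fin n) (Fin n) Bool // scheinRank A < n} = #(Bad n) := by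
  have h1 : Nat.card {A : Matrix (Fin n) (Fin n) Bool // scheinRank A < n} =
      Nat.card {S : Fin n → Finset (Fin n) // S ∈ Bad n} := by
    apply Nat.card_congr
    apply (matEquiv n).subtypeEquiv
    intro A
    rw [scheinRank_lt_iff hn, isSum_iff, mem_Bad]
    rfl
  rw [h1, Nat.card_eq_fintype_card, Fintype.card_coe]

lemma card_mat (n : ℕ) : (Nat.card (Matrix (Fin n) (Fin n) Bool) : ℝ) = 2 ^ (n * n) := by
  rw [Nat.card_congr (matEquiv n), Nat.card_eq_fintype_card, Fintype.card_fun,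
    Fintype.card_finset, Fintype.card_fin, ← pow_mul]
  push_cast
  rfl

lemma p_eq {n : ℕ} (hn : 1 ≤ n) : p n = (#(Bad n) : ℝ) / 2 ^ (n * n) := by
  rw [p, card_eq hn, card_mat]

/-- a lower bound for binomial coefficients -/
lemma choose_lower (m k : ℕ) (x : ℝ) (hx : 0 ≤ x) (hk : x * k ≤ ((m + 1 - k : ℕ) : ℝ)) :
    x ^ k ≤ (m.choose k : ℝ) := by
  by_cases hk0 : k = 0
  · subst hk0; simp
  have h1 := Nat.pow_le_choose (α := ℝ) k m
  refine le_trans ?_ h1
  rw [le_div_iff₀ (by exact_mod_cast Nat.factorial_pos k)]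
  have h2 : ((k.factorial : ℕ) : ℝ) ≤ (k : ℝ) ^ k := by exact_mod_cast Nat.factorial_le_pow k
  calc x ^ k * (k.factorial : ℝ) ≤ x ^ k * (k : ℝ) ^ k := by gcongr
    _ = (x * k) ^ k := by rw [mul_pow]
    _ ≤ _ := by gcongr

/-- `log₂ n = o(n)` in the form needed. -/
lemma logb_sq_div : Tendsto (fun n : ℕ => (Real.logb 2 n) ^ 2 / n) atTop (nhds 0) := by
  have h1 : Tendsto (fun x : ℝ => (Real.log x) ^ 2 / (1 * x + 0)) atTop (nhds 0) :=
    Real.tendsto_pow_log_div_mul_add_atTop 1 0 2 one_ne_zero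
  have h2 := h1.comp tendsto_natCast_atTop_atTop
  have h3 := h2.const_mul (1 / (Real.log 2) ^ 2)
  rw [mul_zero] at h3
  refine h3.congr (fun n => ?_)
  simp only [Function.comp, Real.logb]
  rw [div_pow]
  field_simp
  ring_nf


lemma S_eq (m : ℕ) : S (m + 1) = (Ntot m : ℝ) / 2 ^ ((m + 1) * m) := by
  have h1 : Ntot m = _ := sum_rowSpace (α := Fin m) (β := Fin (m + 1))
  rw [Fintype.card_fin, Fintype.card_fin] at h1
  rw [h1, S, Nat.cast_sum, sum_div, Nat.add_sub_cancel]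
  apply sum_congr rfl
  intro k hk
  rw [Nat.cast_sum, sum_div]
  apply sum_congr rfl
  intro l hl
  have hk' : k ≤ m := by rw [mem_range] at hk; omega
  have hl' : l ≤ m + 1 := by rw [mem_range] at hl; omega
  have e1 : (((2 ^ l - 1 : ℕ)) : ℝ) = 2 ^ l * (1 - (1 / 2) ^ l) := by
    rw [Nat.cast_sub (Nat.one_le_two_pow)]
    push_cast
    rw [mul_sub, ← mul_pow]
    norm_num
  have e2 : (((2 ^ k - 1 : ℕ)) : ℝ) = 2 ^ k * (1 - (1 / 2) ^ k) := by
    rw [Nat.cast_sub (Nat.one_le_two_pow)]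
    push_cast
    rw [mul_sub, ← mul_pow]
    norm_num
  rw [eq_div_iff (by positivity)]
  push_cast [e1, e2]
  obtain ⟨a, ha⟩ := Nat.exists_eq_add_of_le hk'
  obtain ⟨b, hb⟩ := Nat.exists_eq_add_of_le hl'
  have e3 : m - k = a := by omega
  have e4 : m + 1 - l = b := by omega
  rw [e3, e4]
  have e5 : (2:ℝ) ^ ((m + 1) * m) = 2 ^ (k * l) * ((2 ^ l * 2 ^ b) ^ a * (2 ^ k) ^ b) := by
    rw [← pow_add, ← hb, ← pow_mul, ← pow_mul, ← pow_add, ← pow_add]
    congr 1
    have : (m + 1) * m = (m + 1) * k + (m + 1) * a := by rw [← mul_add, ← ha]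
    rw [this]
    have h2 : (m + 1) * k = k * l + k * b := by rw [hb]; ring
    rw [h2]; ring
  rw [e5]
  have e6 : ((1:ℝ) / 2) ^ (k * l) * 2 ^ (k * l) = 1 := by
    rw [← mul_pow]; norm_num
  calc _ = (((1:ℝ) / 2) ^ (k * l) * 2 ^ (k * l)) * ((m.choose k : ℝ) * ((m + 1).choose l : ℝ) *
        ((1 - (1 / 2) ^ k) ^ b * (1 - (1 / 2) ^ l) ^ a * ((2 ^ l * 2 ^ b) ^ a * (2 ^ k) ^ b))) := by
        ring
    _ = _ := by
        rw [e6, one_mul]
        simp only [mul_pow]
        ring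

lemma S_upper (n : ℕ) (hn : 1 ≤ n) : S n ≤ n * (2:ℝ) ^ ((Real.logb 2 n) ^ 2) := by
  obtain ⟨m, rfl⟩ : ∃ m, n = m + 1 := ⟨n - 1, by omega⟩
  rw [S_eq, div_le_iff₀ (by positivity)]
  refine (Ntot_upper m).trans (le_of_eq ?_)
  push_cast
  ring

lemma logb_tendsto : Tendsto (fun n : ℕ => Real.logb 2 (n : ℝ)) atTop atTop :=
  (Real.tendsto_logb_atTop (by norm_num)).comp tendsto_natCast_atTop_atTop

lemma exp_small' (δ : ℝ) (h0 : 0 < δ) :
    ∀ᶠ n : ℕ in atTop, (n : ℝ) * Real.exp (-((n : ℝ) ^ δ / 2)) ≤ 1 / 2 := by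
  have h1 := tendsto_rpow_mul_exp_neg_mul_atTop_nhds_zero (1 / δ) (1 / 2) (by norm_num)
  have h2 : Tendsto (fun n : ℕ => (n : ℝ) ^ δ) atTop atTop :=
    (tendsto_rpow_atTop h0).comp tendsto_natCast_atTop_atTop
  have h3 := h1.comp h2
  have h4 := h3.eventually (gt_mem_nhds (show (0:ℝ) < 1 / 2 by norm_num))
  filter_upwards [h4] with n hn
  simp only [Function.comp] at hn
  rw [← Real.rpow_mul (Nat.cast_nonneg n), mul_one_div_cancel h0.ne', Real.rpow_one] at hn
  refine le_trans (le_of_eq ?_) hn.le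
  congr 2
  ring

lemma log_small (δ : ℝ) (h0 : 0 < δ) :
    ∀ᶠ n : ℕ in atTop, 2 * Real.logb 2 (n : ℝ) ≤ (n : ℝ) ^ δ := by
  have h1 := (isLittleO_log_rpow_atTop h0).bound (show (0:ℝ) < Real.log 2 / 2 by
    have := Real.log_pos (show (1:ℝ) < 2 by norm_num)
    linarith)
  have h2 := tendsto_natCast_atTop_atTop (R := ℝ) |>.eventually h1
  filter_upwards [h2, eventually_ge_atTop 1] with n hn hn1
  have hlog2 : 0 < Real.log 2 := Real.log_pos (by norm_num)
  have hn1' : (1:ℝ) ≤ n := by exact_mod_cast hn1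
  rw [Real.norm_of_nonneg (Real.log_nonneg hn1'), Real.norm_of_nonneg (by positivity)] at hn
  rw [Real.logb, mul_div_assoc', div_le_iff₀ hlog2]
  linarith

/-- lower bound for `S n` -/
lemma S_lower (δ : ℝ) (h0 : 0 < δ) (h1 : δ < 1) :
    ∀ᶠ n : ℕ in atTop, (2:ℝ) ^ ((1 - 3 * δ) * (Real.logb 2 n) ^ 2) ≤ S n := by
  have hE3 : ∀ᶠ n : ℕ in atTop, 2 / δ + 1 ≤ Real.logb 2 (n : ℝ) :=
    logb_tendsto.eventually (eventually_ge_atTop _)
  filter_upwards [exp_small' δ h0, log_small δ h0, hE3, eventually_ge_atTop 4] with n hE1 hE2 hE3 hn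
  obtain ⟨m, hm⟩ : ∃ m, n = m + 1 := ⟨n - 1, by omega⟩
  obtain ⟨N, hN⟩ : ∃ N : ℝ, N = (n : ℝ) := ⟨_, rfl⟩
  have hN4 : (4:ℝ) ≤ N := by rw [hN]; exact_mod_cast hn
  have hN0 : 0 < N := by linarith
  obtain ⟨l, hl⟩ : ∃ l, l = Real.logb 2 N := ⟨_, rfl⟩
  rw [← hN] at hE1 hE2 hE3 ⊢
  rw [← hl] at hE2 hE3 ⊢
  have hNl : N = (2:ℝ) ^ l := by rw [hl, Real.rpow_logb (by norm_num) (by norm_num) hN0]
  have hl1 : 1 ≤ l := by
    have : 0 < 2 / δ := by positivity
    linarith
  have hdl : (1 - δ) * l ≤ l := by nlinarith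
  have hdl0 : 0 ≤ (1 - δ) * l := by
    apply mul_nonneg <;> linarith
  obtain ⟨k, hk⟩ : ∃ k, k = ⌊(1 - δ) * l⌋₊ := ⟨_, rfl⟩
  have hk1 : (k : ℝ) ≤ (1 - δ) * l := by rw [hk]; exact Nat.floor_le hdl0
  have hk2 : (1 - δ) * l - 1 ≤ k := by
    rw [hk]; linarith [Nat.lt_floor_add_one ((1 - δ) * l)]
  obtain ⟨x, hx⟩ : ∃ x, x = N ^ (1 - δ) := ⟨_, rfl⟩
  have hx0 : 0 < x := by rw [hx]; positivity
  have hxd : x * N ^ δ = N := by
    rw [hx, ← Real.rpow_add hN0]; simp
  have hx2 : x = (2:ℝ) ^ ((1 - δ) * l) := by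
    rw [hx, hNl, ← Real.rpow_mul (by norm_num)]; congr 1; ring
  have hNd1 : N ^ δ ≤ N := by
    calc N ^ δ ≤ N ^ (1:ℝ) := Real.rpow_le_rpow_of_exponent_le (by linarith) h1.le
      _ = N := Real.rpow_one N
  have hk2x : (2:ℝ) ^ k ≤ x := by
    rw [hx2, ← Real.rpow_natCast]
    exact Real.rpow_le_rpow_of_exponent_le (by norm_num) hk1
  have hkN : (k : ℝ) ≤ N ^ δ / 2 := by linarith
  -- the exponential condition
  have hcond : (m : ℝ) * Real.exp (-((m + 1 : ℕ) : ℝ) / 2 ^ (k + 1)) ≤ 1 / 2 := by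
    refine le_trans ?_ hE1
    rw [← hm, ← hN]
    have h2 : (m : ℝ) ≤ N := by rw [hN]; exact_mod_cast (by omega : m ≤ n)
    apply mul_le_mul h2 _ (Real.exp_pos _).le hN0.le
    rw [Real.exp_le_exp, neg_div, neg_le_neg_iff, le_div_iff₀ (by positivity)]
    calc N ^ δ / 2 * 2 ^ (k + 1) = N ^ δ * 2 ^ k := by rw [pow_succ]; ring
      _ ≤ N ^ δ * x := by gcongr
      _ = N := by rw [mul_comm]; exact hxd
  have hkm : k + 1 ≤ m := by
    have h2 : (k : ℝ) ≤ N / 2 := by linarith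
    have h3 : 2 * k ≤ n := by
      have : (2 * k : ℝ) ≤ n := by rw [← hN]; linarith
      exact_mod_cast this
    omega
  have hNt := Ntot_lower m k hkm hcond
  have hchoose : x ^ k ≤ (m.choose k : ℝ) := by
    apply choose_lower _ _ _ hx0.le
    rw [← hm, Nat.cast_sub (by omega), ← hN]
    have h4 : x * k ≤ x * (N ^ δ / 2) := by gcongr
    have h5 : x * (N ^ δ / 2) = N / 2 := by rw [← mul_div_assoc, hxd]
    linarith
  have hS : S n = (Ntot m : ℝ) / 2 ^ ((m + 1) * m) := by rw [hm]; exact S_eq m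
  have hS2 : (m.choose k : ℝ) / 2 ≤ S n := by
    rw [hS, le_div_iff₀ (by positivity)]
    calc (m.choose k : ℝ) / 2 * 2 ^ ((m + 1) * m) = (m.choose k : ℝ) * 2 ^ ((m + 1) * m) / 2 := by ring
      _ ≤ _ := hNt
  refine le_trans ?_ hS2
  calc (2:ℝ) ^ ((1 - 3 * δ) * l ^ 2) ≤ (2:ℝ) ^ ((1 - δ) * l * k - 1) := by
        apply Real.rpow_le_rpow_of_exponent_le (by norm_num)
        have h6 : (1 - δ) * l * ((1 - δ) * l - 1) ≤ (1 - δ) * l * k := by gcongr
        have h7 : l + 1 ≤ δ * l ^ 2 := by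
          have h8 : 2 + δ ≤ δ * l := by
            have := mul_le_mul_of_nonneg_left hE3 h0.le
            rw [mul_add, mul_div_cancel₀ _ h0.ne', mul_one] at this
            exact this
          nlinarith
        nlinarith [sq_nonneg (δ * l)]
    _ = x ^ k / 2 := by
        rw [Real.rpow_sub (by norm_num), Real.rpow_one, hx2, ← Real.rpow_natCast,
          ← Real.rpow_mul (by norm_num)]
    _ ≤ _ := by gcongr

/-- the ratio to the main term. -/
noncomputable def ratio (n : ℕ) : ℝ := p n / (2 * n * (1 / 2) ^ n * S n)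

lemma ratio_bounds : ∀ᶠ n : ℕ in atTop, 0 < S n ∧
    1 - 13 * (n : ℝ) ^ 5 / S n ≤ ratio n ∧ ratio n ≤ 1 + 13 * (n : ℝ) ^ 5 / S n := by
  filter_upwards [eventually_ge_atTop (2 ^ 89), S_lower (1 / 4) (by norm_num) (by norm_num)]
    with n hn hSl
  obtain ⟨L, hL, hL5, hH, hd, hC3⟩ := conditions n hn
  have hn1 : 1 ≤ n := le_trans (Nat.one_le_two_pow) hn
  have hND := card_NonDep n L hL hL5 hH hd hC3
  have hTD := card_TwoDep n L hL hH
  have hS0 : 0 < S n := lt_of_lt_of_le (Real.rpow_pos_of_pos (by norm_num) _) hSl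
  obtain ⟨m, hm⟩ : ∃ m, n = m + 1 := ⟨n - 1, by omega⟩
  have hdc := double_count m
  rw [← hm] at hdc
  have hSe : S n = (Ntot m : ℝ) / 2 ^ (n * m) := by rw [hm]; exact S_eq m
  have hnm : n - 1 = m := by omega
  rw [hnm] at hND hTD
  clear hn hL hL5 hH hd hC3 hSl
  have hNt : (Ntot m : ℝ) = S n * 2 ^ (n * m) := by
    rw [hSe, div_mul_cancel₀ _ (by positivity)]
  obtain ⟨N, hN⟩ : ∃ N : ℝ, N = (n : ℝ) := ⟨_, rfl⟩
  have hN1 : (1:ℝ) ≤ N := by rw [hN]; exact_mod_cast hn1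
  obtain ⟨E, hE⟩ : ∃ E : ℝ, E = (2:ℝ) ^ (n * m) := ⟨_, rfl⟩
  have hE0 : 0 < E := by rw [hE]; positivity
  have h1 : (#(Bad n) : ℝ) ≤ 2 * N * Ntot m + #(NonDep n) := by
    rw [hN]; exact_mod_cast hdc.1
  have h2 : 2 * N * Ntot m ≤ (#(Bad n) : ℝ) + 2 * N * #(TwoDep n) := by
    rw [hN]; exact_mod_cast hdc.2
  have h3 : (#(NonDep n) : ℝ) ≤ (N ^ 5 + 2 * N ^ 3 + 3) * E := by
    rw [hN, hE]; exact_mod_cast hND
  have h4 : (#(TwoDep n) : ℝ) ≤ (2 + 5 * N ^ 2) * E := by
    rw [hN, hE]; exact_mod_cast hTD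
  rw [hNt, ← hE] at h1 h2
  have hratio : ratio n = (#(Bad n) : ℝ) / (2 * N * S n * E) := by
    rw [ratio, p_eq hn1, ← hN]
    have e1 : (2:ℝ) ^ (n * n) = E * 2 ^ n := by
      rw [hE, ← pow_add]; congr 1; rw [hm]; ring
    rw [e1, one_div, inv_pow]
    have hF : (2:ℝ) ^ n ≠ 0 := by positivity
    generalize (2:ℝ) ^ n = F at hF ⊢
    generalize (#(Bad n) : ℝ) = B
    have hN0 : N ≠ 0 := by linarith
    have hE' : E ≠ 0 := hE0.ne'
    have hS' : S n ≠ 0 := hS0.ne'
    generalize S n = s at hS' ⊢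
    clear h1 h2 h3 h4 hdc hND hTD hNt hSe hE hN hm
    field_simp
  have hN5 : N ^ 3 ≤ N ^ 5 := pow_le_pow_right₀ hN1 (by norm_num)
  have hN5' : 1 ≤ N ^ 5 := one_le_pow₀ hN1
  have hN5'' : N ^ 2 ≤ N ^ 5 := pow_le_pow_right₀ hN1 (by norm_num)
  have hpos : 0 < 2 * N * S n * E := by positivity
  refine ⟨hS0, ?_, ?_⟩
  · rw [hratio, ← hN, le_div_iff₀ hpos]
    have h5 : (1 - 13 * N ^ 5 / S n) * (2 * N * S n * E) =
        2 * N * (S n * E) - 2 * N * (13 * N ^ 5 * E) := by field_simp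
    rw [h5]
    have h6 : 2 * N * (#(TwoDep n) : ℝ) ≤ 2 * N * (13 * N ^ 5 * E) := by
      apply mul_le_mul_of_nonneg_left _ (by positivity)
      refine h4.trans ?_
      apply mul_le_mul_of_nonneg_right _ hE0.le
      linarith
    linarith
  · rw [hratio, ← hN, div_le_iff₀ hpos]
    have h5 : (1 + 13 * N ^ 5 / S n) * (2 * N * S n * E) =
        2 * N * (S n * E) + 2 * N * (13 * N ^ 5 * E) := by field_simp
    rw [h5]
    have h6 : (#(NonDep n) : ℝ) ≤ 2 * N * (13 * N ^ 5 * E) := by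
      calc (#(NonDep n) : ℝ) ≤ (N ^ 5 + 2 * N ^ 3 + 3) * E := h3
        _ ≤ (13 * N ^ 5) * E := by
            apply mul_le_mul_of_nonneg_right _ hE0.le
            linarith
        _ = 1 * (13 * N ^ 5 * E) := by ring
        _ ≤ 2 * N * (13 * N ^ 5 * E) := by
            apply mul_le_mul_of_nonneg_right _ (by positivity)
            linarith
    linarith

/-- the error term tends to zero. -/
lemma error_tendsto : Tendsto (fun n : ℕ => 13 * (n : ℝ) ^ 5 / S n) atTop (nhds 0) := by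
  have h1 : Tendsto (fun n : ℕ => 13 * (2:ℝ) ^ (-Real.logb 2 (n : ℝ))) atTop (nhds 0) := by
    have h2 : Tendsto (fun x : ℝ => (2:ℝ) ^ (-x)) atTop (nhds 0) := by
      have := (tendsto_rpow_atTop_of_base_lt_one (1 / 2 : ℝ) (by norm_num) (by norm_num))
      refine this.congr (fun x => ?_)
      rw [one_div, Real.inv_rpow (by norm_num), Real.rpow_neg (by norm_num)]
    have h3 := (h2.comp logb_tendsto).const_mul 13
    rw [mul_zero] at h3
    exact h3
  refine tendsto_of_tendsto_of_tendsto_of_le_of_le' tendsto_const_nhds h1 ?_ ?_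
  · filter_upwards [ratio_bounds] with n hn
    have := hn.1
    positivity
  · filter_upwards [ratio_bounds, S_lower (1 / 4) (by norm_num) (by norm_num),
      logb_tendsto.eventually (eventually_ge_atTop 24), eventually_ge_atTop 1] with n hn hSl hl hn1
    have hS0 := hn.1
    have hn0 : (0:ℝ) < n := by exact_mod_cast hn1
    obtain ⟨l, hle⟩ : ∃ l, l = Real.logb 2 (n : ℝ) := ⟨_, rfl⟩
    have hNl : (n : ℝ) = (2:ℝ) ^ l := by rw [hle, Real.rpow_logb (by norm_num) (by norm_num) hn0]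
    rw [← hle] at hl hSl ⊢
    rw [div_le_iff₀ hS0, mul_assoc]
    apply mul_le_mul_of_nonneg_left _ (by norm_num)
    calc (n : ℝ) ^ 5 = (2:ℝ) ^ (5 * l) := by
          rw [hNl, ← Real.rpow_natCast, ← Real.rpow_mul (by norm_num)]
          congr 1; push_cast; ring
      _ ≤ (2:ℝ) ^ (-l + (1 - 3 * (1 / 4)) * l ^ 2) := by
          apply Real.rpow_le_rpow_of_exponent_le (by norm_num)
          nlinarith
      _ = (2:ℝ) ^ (-l) * (2:ℝ) ^ ((1 - 3 * (1 / 4)) * l ^ 2) := by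
          rw [Real.rpow_add (by norm_num)]
      _ ≤ _ := by gcongr

lemma ratio_tendsto : Tendsto ratio atTop (nhds 1) := by
  have h1 : Tendsto (fun n : ℕ => 1 - 13 * (n : ℝ) ^ 5 / S n) atTop (nhds 1) := by
    have := error_tendsto.const_sub 1
    rwa [sub_zero] at this
  have h2 : Tendsto (fun n : ℕ => 1 + 13 * (n : ℝ) ^ 5 / S n) atTop (nhds 1) := by
    have := error_tendsto.const_add 1
    rwa [add_zero] at this
  refine tendsto_of_tendsto_of_tendsto_of_le_of_le' h1 h2 ?_ ?_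
  · filter_upwards [ratio_bounds] with n hn using hn.2.1
  · filter_upwards [ratio_bounds] with n hn using hn.2.2

lemma logS_tendsto : Tendsto (fun n : ℕ => Real.logb 2 (S n) / (Real.logb 2 (n : ℝ)) ^ 2) atTop
    (nhds 1) := by
  rw [Metric.tendsto_atTop']
  intro ε hε
  obtain ⟨δ, hδ0, hδ1, hδε⟩ : ∃ δ : ℝ, 0 < δ ∧ δ < 1 ∧ 3 * δ < ε :=
    ⟨min (ε / 4) (1 / 2), by positivity, lt_of_le_of_lt (min_le_right _ _) (by norm_num), by
      have := min_le_left (ε / 4) (1 / 2 : ℝ)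
      linarith⟩
  have hev : ∀ᶠ n : ℕ in atTop, dist (Real.logb 2 (S n) / (Real.logb 2 (n : ℝ)) ^ 2) 1 < ε := by
    filter_upwards [S_lower δ hδ0 hδ1, ratio_bounds, eventually_ge_atTop 1,
      logb_tendsto.eventually (eventually_ge_atTop (1 / ε + 1))] with n hSl hr hn1 hl
    have hS0 := hr.1
    have hn0 : (0:ℝ) < n := by exact_mod_cast hn1
    obtain ⟨l, hle⟩ : ∃ l, l = Real.logb 2 (n : ℝ) := ⟨_, rfl⟩
    have hNl : (n : ℝ) = (2:ℝ) ^ l := by rw [hle, Real.rpow_logb (by norm_num) (by norm_num) hn0]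
    have hSu := S_upper n hn1
    rw [← hle] at hl hSl hSu ⊢
    have hl0 : 0 < l := by
      have : 0 < 1 / ε := by positivity
      linarith
    have h1 : (1 - 3 * δ) * l ^ 2 ≤ Real.logb 2 (S n) :=
      (Real.le_logb_iff_rpow_le (by norm_num) hS0).2 hSl
    have h2 : Real.logb 2 (S n) ≤ l + l ^ 2 := by
      rw [Real.logb_le_iff_le_rpow (by norm_num) hS0, Real.rpow_add (by norm_num), ← hNl]
      exact hSu
    rw [Real.dist_eq, abs_lt]
    have hl2 : 0 < l ^ 2 := by positivity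
    constructor
    · rw [lt_sub_iff_add_lt, lt_div_iff₀ hl2]
      nlinarith
    · rw [sub_lt_iff_lt_add, div_lt_iff₀ hl2]
      have h3 : 1 < ε * l := by
        have := mul_le_mul_of_nonneg_left hl hε.le
        rw [mul_add, mul_one_div_cancel hε.ne'] at this
        linarith
      nlinarith
  obtain ⟨n0, hn0⟩ := eventually_atTop.1 hev
  exact ⟨n0, fun n hn => hn0 n hn.le⟩

lemma second_tendsto : Tendsto (fun n : ℕ => (Real.logb 2 (p n) + n) / (Real.logb 2 n) ^ 2) atTop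
    (nhds 1) := by
  have hlr : Tendsto (fun n : ℕ => Real.logb 2 (ratio n)) atTop (nhds 0) := by
    have h1 := (Real.continuousAt_log (one_ne_zero)).tendsto.comp ratio_tendsto
    rw [Real.log_one] at h1
    have h2 := h1.div_const (Real.log 2)
    rw [zero_div] at h2
    exact h2
  have hinv : Tendsto (fun n : ℕ => (Real.logb 2 (n : ℝ))⁻¹) atTop (nhds 0) :=
    tendsto_inv_atTop_zero.comp logb_tendsto
  have hinv2 : Tendsto (fun n : ℕ => (Real.logb 2 (n : ℝ))⁻¹ ^ 2) atTop (nhds 0) := by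
    have := hinv.pow 2
    simpa using this
  have hmain := ((hlr.add_const 1).mul hinv2).add (hinv.add logS_tendsto)
  rw [zero_add, one_mul, zero_add] at hmain
  refine hmain.congr' ?_
  filter_upwards [ratio_bounds, eventually_ge_atTop 1,
    logb_tendsto.eventually (eventually_ge_atTop 1),
    ratio_tendsto.eventually (lt_mem_nhds (show (0:ℝ) < 1 by norm_num))] with n hr hn1 hl hrp
  have hS0 := hr.1
  have hn0 : (0:ℝ) < n := by exact_mod_cast hn1
  have hp : p n = ratio n * (2 * n * (1 / 2) ^ n * S n) := by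
    rw [ratio]; field_simp
  have hlogp : Real.logb 2 (p n) = Real.logb 2 (ratio n) + (1 + Real.logb 2 n - n +
      Real.logb 2 (S n)) := by
    rw [hp, Real.logb_mul hrp.ne' (by positivity), Real.logb_mul (by positivity) hS0.ne',
      Real.logb_mul (by positivity) (by positivity), Real.logb_mul (by norm_num) hn0.ne',
      Real.logb_pow, one_div, Real.logb_inv, Real.logb_self_eq_one (by norm_num)]
    ring
  rw [hlogp]
  have hl0 : Real.logb 2 (n : ℝ) ≠ 0 := by linarith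
  field_simp
  ring

theorem result_proof :
    Tendsto (fun n : ℕ => p n / (2 * n * (1 / 2) ^ n * S n)) atTop (nhds 1) ∧
    Tendsto (fun n : ℕ => (Real.logb 2 (p n) + n) / (Real.logb 2 n) ^ 2) atTop (nhds 1) ∧
    Tendsto p atTop (nhds 0) := by
  refine ⟨ratio_tendsto, second_tendsto, ?_⟩
  have hev : ∀ᶠ n : ℕ in atTop, p n ≤ (2:ℝ) ^ (-(n : ℝ) / 2) := by
    filter_upwards [second_tendsto.eventually (gt_mem_nhds (show (1:ℝ) < 2 by norm_num)),
      ratio_bounds, eventually_ge_atTop 1, logb_tendsto.eventually (eventually_ge_atTop 1),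
      ratio_tendsto.eventually (lt_mem_nhds (show (0:ℝ) < 1 by norm_num)),
      logb_sq_div.eventually (gt_mem_nhds (show (0:ℝ) < 1 / 4 by norm_num))]
      with n h2 hr hn1 hl hrp hq
    have hS0 := hr.1
    have hn0 : (0:ℝ) < n := by exact_mod_cast hn1
    have hp : p n = ratio n * (2 * n * (1 / 2) ^ n * S n) := by
      rw [ratio]; field_simp
    have hp0 : 0 < p n := by rw [hp]; positivity
    rw [← Real.logb_le_iff_le_rpow (by norm_num) hp0]
    rw [div_lt_iff₀ (by positivity)] at h2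
    rw [div_lt_iff₀ hn0] at hq
    linarith
  have hz : Tendsto (fun n : ℕ => (2:ℝ) ^ (-(n : ℝ) / 2)) atTop (nhds 0) := by
    have h2 : ∀ n : ℕ, (2:ℝ) ^ (-(n : ℝ) / 2) = ((2:ℝ) ^ (-(1 / 2) : ℝ)) ^ n := by
      intro n
      rw [← Real.rpow_natCast, ← Real.rpow_mul (by norm_num)]
      congr 1; ring
    simp_rw [h2]
    apply tendsto_pow_atTop_nhds_zero_of_lt_one (by positivity)
    rw [Real.rpow_neg (by norm_num)]
    apply inv_lt_one_of_one_lt₀
    exact Real.one_lt_rpow (by norm_num) (by norm_num)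
  refine tendsto_of_tendsto_of_tendsto_of_le_of_le' tendsto_const_nhds hz ?_ hev
  exact Eventually.of_forall (fun n => by unfold p; positivity)

end Pool.Agent.Results.MP_72bf7f_co.ScheinRankAsymptotics
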