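import Pool.Agent.H66.L1.Main

open Filter Topology Finset PowerSeries
open Pool.Agent.H66.L1

namespace Pool.Agent.Results.MP_7f3d09_an.SlowDecay

/-- A one-sided sequence `G(0), G(1), ...` of real `p × q` matrices, encoded as a `p × q` matrix
of formal power series: the `(i, j)` entry of `G(k)` is `coeff k (G i j)`. The matrix product of
such objects is the convolution product of matrix sequences. -/
abbrev MatSeq (p q : ℕ) : Type := Matrix (Fin p) (Fin q) ℝ⟦X⟧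

/-- Membership in `ℓ₁`. -/
def IsL1 {p q : ℕ} (G : MatSeq p q) : Prop :=
  ∀ i j, Summable fun k => |coeff k (G i j)|

/-- The norm `‖G‖₁ = max_i ∑_j ∑_k |G_ij(k)|`. -/
noncomputable def norm1 {p q : ℕ} (G : MatSeq p q) : ℝ :=
  ⨆ i, ∑ j, ∑' k, |coeff k (G i j)|

/-- Every entry of the `z`-transform is a rational function. -/
def IsRational {p q : ℕ} (G : MatSeq p q) : Prop :=
  ∀ i j, ∃ P D : Polynomial ℝ, D ≠ 0 ∧ (D : ℝ⟦X⟧) * G i j = (P : ℝ⟦X⟧)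

/-- `Q` is a minimiser of `‖H - U Q V‖₁` over `Q ∈ ℓ₁`. -/
def IsOptimal {p q r s : ℕ} (H : MatSeq p q) (U : MatSeq p r) (V : MatSeq s q)
    (Q : MatSeq r s) : Prop :=
  IsL1 Q ∧ ∀ Q' : MatSeq r s, IsL1 Q' → norm1 (H - U * Q * V) ≤ norm1 (H - U * Q' * V)

/-- `|Φ(k)| ≤ M ρ ^ k` for all `k`, with some `M > 0` and `ρ < 1`. -/
def DecaysExponentially {p q : ℕ} (G : MatSeq p q) : Prop :=
  ∃ M : ℝ, 0 < M ∧ ∃ ρ : ℝ, ρ < 1 ∧ ∀ k i j, |coeff k (G i j)| ≤ M * ρ ^ k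

end Pool.Agent.Results.MP_7f3d09_an.SlowDecay
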