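import Pool.Agent.H66.L1.Main
import Pool.Agent.H29.SPL.SlowDecayDefs

open Filter Topology Finset PowerSeries
open Pool.Agent.H66.L1

namespace Pool.Agent.Results.MP_7f3d09_an.SlowDecay


/-! ### Feasible solutions are minimisers of the scalar problem -/

/-- The tail function attached to a power series. -/
noncomputable def tl (F : ℝ⟦X⟧) (k : ℕ) : ℝ := 1 - ∑ i ∈ range k, coeff i F

lemma tl_succ (F : ℝ⟦X⟧) (k : ℕ) : tl F (k + 1) = tl F k - coeff k F := by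
  unfold tl
  rw [sum_range_succ]
  ring

lemma coeff_eq (F : ℝ⟦X⟧) (k : ℕ) : coeff k F = tl F k - tl F (k + 1) := by
  rw [tl_succ]; ring

lemma isMin_tl {m : ℝ} {gs : ℕ → ℝ} (hgs : IsMin m gs) {h0 : Polynomial ℝ} {ps : ℝ⟦X⟧}
    (hps : SL1 ps)
    (hfs : PowerSeries.mk (fun k => gs k - gs (k + 1)) = (h0 : ℝ⟦X⟧) - (u0 : ℝ⟦X⟧) * ps)
    {p : ℝ⟦X⟧} (hp : SL1 p) {F : ℝ⟦X⟧} (hF : F = (h0 : ℝ⟦X⟧) - (u0 : ℝ⟦X⟧) * p)
    (hpos : ∀ k, 0 ≤ coeff k F) (hsum : HasSum (fun k => coeff k F) 1)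
    (hhalf : ∀ k, tl F k / 2 ≤ tl F (k + 1)) : IsMin m (tl F) := by
  have hadm : Adm (tl F) := by
    refine ⟨by simp [tl], fun k => ⟨hhalf k, ?_⟩⟩
    rw [tl_succ]
    linarith [hpos k]
  have htend : Tendsto (tl F) atTop (𝓝 0) := by
    have h1 := hsum.tendsto_sum_nat
    have h2 : Tendsto (fun k => 1 - ∑ i ∈ range k, coeff i F) atTop (𝓝 (1 - 1)) :=
      tendsto_const_nhds.sub h1
    rwa [sub_self] at h2
  refine ⟨hadm, ?_, hgs.2.2⟩
  -- partial sums of the cost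
  have hS : ∀ N, ∑ k ∈ range N, cst k * coeff k F ≤ m := by
    intro N
    refine le_of_forall_pos_le_add fun ε hε => ?_
    obtain ⟨M, hNM, hM⟩ := exists_boundary (hps.sub hp) hε N
    have h1 : ∀ k, coeff k F = (gs k - gs (k + 1)) + coeff k ((u0 : ℝ⟦X⟧) * (ps - p)) := by
      intro k
      have h2 : F = PowerSeries.mk (fun k => gs k - gs (k + 1)) + (u0 : ℝ⟦X⟧) * (ps - p) := by
        rw [hfs, hF]; ring
      conv_lhs => rw [h2]
      rw [map_add, coeff_mk]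
    have h3 : ∑ k ∈ range M, cst k * coeff k F =
        ∑ k ∈ range M, cst k * (gs k - gs (k + 1)) +
          ∑ k ∈ range M, cst k * coeff k ((u0 : ℝ⟦X⟧) * (ps - p)) := by
      rw [← sum_add_distrib]
      exact sum_congr rfl fun k _ => by rw [h1 k]; ring
    have h4 : ∑ k ∈ range M, cst k * (gs k - gs (k + 1)) ≤ m := by
      have h5 := hgs.2.1 M
      unfold pc at h5
      have h6 : 0 ≤ (M : ℝ) * gs M := mul_nonneg (Nat.cast_nonneg _) (hgs.1.pos M).le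
      linarith
    have h7 : ∑ k ∈ range N, cst k * coeff k F ≤ ∑ k ∈ range M, cst k * coeff k F :=
      sum_le_sum_of_subset_of_nonneg (range_mono hNM)
        fun k _ _ => mul_nonneg (cst_nonneg k) (hpos k)
    have h8 := (abs_le.1 hM).2
    linarith
  intro N
  have h1 : ∀ M, N ≤ M → ∑ k ∈ range N, cst k * coeff k F + N * (tl F N - tl F M) ≤ m := by
    intro M hM
    refine le_trans ?_ (hS M)
    induction M, hM using Nat.le_induction with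
    | base => simp
    | succ M hM ih =>
      rw [sum_range_succ, tl_succ]
      have h2 : (N : ℝ) ≤ cst M := le_trans (by exact_mod_cast hM) (le_cst M)
      have h3 := mul_le_mul_of_nonneg_right h2 (hpos M)
      linarith
  have h2 : Tendsto (fun M => ∑ k ∈ range N, cst k * coeff k F + N * (tl F N - tl F M)) atTop
      (𝓝 (∑ k ∈ range N, cst k * coeff k F + N * (tl F N - 0))) :=
    tendsto_const_nhds.add (tendsto_const_nhds.mul (tendsto_const_nhds.sub htend))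
  have h3 := le_of_tendsto h2 (eventually_atTop.2 ⟨N, h1⟩)
  unfold pc
  have h4 : ∑ k ∈ range N, cst k * (tl F k - tl F (k + 1)) = ∑ k ∈ range N, cst k * coeff k F :=
    sum_congr rfl fun k _ => by rw [← coeff_eq]
  rw [h4]
  linarith

/-- A summable sequence whose absolute sum does not exceed its sum is nonnegative. -/
lemma nonneg_of_tsum {a : ℝ⟦X⟧} (ha : SL1 a) (h : ∑' k, |coeff k a| ≤ ∑' k, coeff k a) (k : ℕ) :
    0 ≤ coeff k a := by
  have hd : Summable fun k => |coeff k a| - coeff k a := Summable.sub ha ha.summable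
  have h0 : ∀ k, 0 ≤ |coeff k a| - coeff k a := fun k => sub_nonneg.2 (le_abs_self _)
  have h1 : |coeff k a| - coeff k a ≤ ∑' k, (|coeff k a| - coeff k a) := hd.le_tsum k fun j _ => h0 j
  have h2 : Summable fun k => |coeff k a| := ha
  rw [h2.tsum_sub ha.summable] at h1
  have h3 : |coeff k a| ≤ coeff k a := by linarith
  exact (abs_nonneg _).trans h3

lemma tsum_le_tsum_abs {a : ℝ⟦X⟧} (ha : SL1 a) : ∑' k, coeff k a ≤ ∑' k, |coeff k a| :=
  Summable.tsum_le_tsum (fun _ => le_abs_self _) ha.summable ha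

/-- The second row. -/
lemma psi_eq {F Ψ : ℝ⟦X⟧} (h : (1 - X) * Ψ = 1 - (2 - X) * F) (k : ℕ) :
    coeff k Ψ = 2 * tl F (k + 1) - tl F k := by
  have hr : Ψ = 1 - (2 - X) * F + X * Ψ := by rw [← h]; ring
  have hC : (2 : ℝ⟦X⟧) = C (2 : ℝ) := (map_ofNat C 2).symm
  induction k with
  | zero =>
    rw [hr, hC]
    rw [map_add, map_sub, sub_mul, map_sub, coeff_C_mul, coeff_zero_X_mul, coeff_zero_X_mul]
    simp [tl]
    ring
  | succ k ih =>
    rw [hr, hC]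
    rw [map_add, map_sub, sub_mul, map_sub, coeff_C_mul, coeff_succ_X_mul, coeff_succ_X_mul, ih,
      coeff_one, if_neg (by omega), tl_succ F (k + 1), tl_succ F k]
    ring

/-- There are a `3 × 1` polynomial `H`, a `3 × 1` polynomial `U` whose last entry is a nonzero
constant, and `V = 1`, such that the minimum of `‖H - U Q V‖₁` over `Q ∈ ℓ₁` is attained, but no
optimal closed-loop map decays exponentially. -/
theorem result_proof :
    ∃ (H : MatSeq 3 1) (U : MatSeq 3 1) (V : MatSeq 1 1),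
      IsL1 H ∧ IsL1 U ∧ IsL1 V ∧ IsRational H ∧ IsRational U ∧ IsRational V ∧
      (∃ Q, IsOptimal H U V Q) ∧
      (∀ Q, IsOptimal H U V Q → ¬ DecaysExponentially (H - U * Q * V)) ∧
      (∀ i j, ∃ P : Polynomial ℝ, H i j = (P : ℝ⟦X⟧)) ∧
      (∀ i j, ∃ P : Polynomial ℝ, U i j = (P : ℝ⟦X⟧)) ∧
      (∃ c : ℝ, c ≠ 0 ∧ U 2 0 = C c) ∧ V = 1 := by
  obtain ⟨m, gs, hgs⟩ := exists_isMin
  obtain ⟨Cd, hCd, hdec⟩ := hgs.decay 8
  have hadm := hgs.1
  set fs : ℕ → ℝ := fun k => gs k - gs (k + 1) with hfs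
  have hfs0 : ∀ k, 0 ≤ fs k := fun k => sub_nonneg.2 (hadm.2 k).2
  obtain ⟨h0, ps, hps, hFs⟩ := exists_quotient fs Cd hCd (by
    intro k
    rw [abs_of_nonneg (hfs0 k)]
    exact (by linarith [(hadm.pos (k + 1))] : fs k ≤ gs k).trans (hdec k))
  have hs0 : SL1 (u0 : ℝ⟦X⟧) := SL1_poly _
  -- sums of `F`
  have hsumF : ∀ p, SL1 p → ∑' k, coeff k ((h0 : ℝ⟦X⟧) - (u0 : ℝ⟦X⟧) * p) = h0.eval 1 := by
    intro p hp
    have h1 : Summable fun k => coeff k ((u0 : ℝ⟦X⟧) * p) := (hs0.mul hp).summable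
    have h2 : ∑' k, coeff k ((h0 : ℝ⟦X⟧) - (u0 : ℝ⟦X⟧) * p) =
        ∑' k, (coeff k (h0 : ℝ⟦X⟧) - coeff k ((u0 : ℝ⟦X⟧) * p)) := tsum_congr fun k => map_sub _ _ _
    rw [h2, (SL1_poly h0).summable.tsum_sub h1, tsum_poly, tsum_mul hs0 hp, tsum_poly, eval_u0]
    ring
  have hgs_tend : Tendsto gs atTop (𝓝 0) := by
    have h1 : Tendsto (fun k : ℕ => Cd * (1 / ((k : ℝ) + 1))) atTop (𝓝 (Cd * 0)) :=
      tendsto_const_nhds.mul tendsto_one_div_add_atTop_nhds_zero_nat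
    rw [mul_zero] at h1
    refine squeeze_zero (fun k => (hadm.pos k).le) (fun k => ?_) h1
    refine (hdec k).trans ?_
    rw [mul_one_div]
    have h2 : (k : ℝ) + 1 ≤ ((k : ℝ) + 1) ^ 8 := by
      have h3 : (1:ℝ) ≤ (k : ℝ) + 1 := by
        have : (0:ℝ) ≤ k := Nat.cast_nonneg k
        linarith
      calc (k : ℝ) + 1 = ((k : ℝ) + 1) ^ 1 := (pow_one _).symm
        _ ≤ ((k : ℝ) + 1) ^ 8 := pow_le_pow_right₀ h3 (by norm_num)
    gcongr
  have hfs_sum : HasSum fs 1 := by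
    rw [hasSum_iff_tendsto_nat_of_nonneg hfs0]
    have h1 : ∀ N, ∑ k ∈ range N, fs k = 1 - gs N := by
      intro N
      rw [hfs, sum_range_sub', hadm.1]
    have h2 : Tendsto (fun N => 1 - gs N) atTop (𝓝 (1 - 0)) := tendsto_const_nhds.sub hgs_tend
    rw [sub_zero] at h2
    exact h2.congr fun N => (h1 N).symm
  have heval : h0.eval 1 = 1 := by
    rw [← hsumF ps hps, ← hFs]
    simpa using hfs_sum.tsum_eq
  -- the second row
  obtain ⟨h2, hh2⟩ : ∃ h2 : Polynomial ℝ,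
      (1 - Polynomial.X) * h2 = 1 - (2 - Polynomial.X) * h0 := by
    have hroot : (1 - (2 - Polynomial.X) * h0).IsRoot 1 := by
      rw [Polynomial.IsRoot.def]
      simp [heval]
      norm_num
    obtain ⟨w, hw⟩ := Polynomial.dvd_iff_isRoot.2 hroot
    refine ⟨-w, ?_⟩
    rw [hw]
    have : Polynomial.C (1:ℝ) = 1 := rfl
    rw [this]
    ring
  have hs2 : SL1 (u2 : ℝ⟦X⟧) := SL1_poly _
  have hΨrel : ∀ p : ℝ⟦X⟧, (1 - X) * ((h2 : ℝ⟦X⟧) + (u2 : ℝ⟦X⟧) * p) =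
      1 - (2 - X) * ((h0 : ℝ⟦X⟧) - (u0 : ℝ⟦X⟧) * p) := by
    intro p
    have two : ((2 : Polynomial ℝ) : ℝ⟦X⟧) = 2 := map_ofNat Polynomial.coeToPowerSeries.ringHom 2
    have e1 : (1 - X) * (h2 : ℝ⟦X⟧) = 1 - (2 - X) * (h0 : ℝ⟦X⟧) := by
      have := congrArg (fun P : Polynomial ℝ => (P : ℝ⟦X⟧)) hh2
      simpa [two] using this
    have e2 : (1 - X) * (u2 : ℝ⟦X⟧) = (2 - X) * (u0 : ℝ⟦X⟧) := by
      have := congrArg (fun P : Polynomial ℝ => (P : ℝ⟦X⟧)) u2_rel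
      simpa [two] using this
    calc (1 - X) * ((h2 : ℝ⟦X⟧) + (u2 : ℝ⟦X⟧) * p)
        = (1 - X) * (h2 : ℝ⟦X⟧) + ((1 - X) * (u2 : ℝ⟦X⟧)) * p := by ring
      _ = 1 - (2 - X) * (h0 : ℝ⟦X⟧) + ((2 - X) * (u0 : ℝ⟦X⟧)) * p := by rw [e1, e2]
      _ = _ := by ring
  have hsumΨ : ∀ p, SL1 p → ∑' k, coeff k ((h2 : ℝ⟦X⟧) + (u2 : ℝ⟦X⟧) * p) = h2.eval 1 := by
    intro p hp
    have h1 : Summable fun k => coeff k ((u2 : ℝ⟦X⟧) * p) := (hs2.mul hp).summable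
    have h3 : ∑' k, coeff k ((h2 : ℝ⟦X⟧) + (u2 : ℝ⟦X⟧) * p) =
        ∑' k, (coeff k (h2 : ℝ⟦X⟧) + coeff k ((u2 : ℝ⟦X⟧) * p)) := tsum_congr fun k => map_add _ _ _
    rw [h3, (SL1_poly h2).summable.tsum_add h1, tsum_poly, tsum_mul hs2 hp, tsum_poly, eval_u2]
    ring
  -- the starred objects
  set Fs : ℝ⟦X⟧ := (h0 : ℝ⟦X⟧) - (u0 : ℝ⟦X⟧) * ps with hFs'
  set Ψs : ℝ⟦X⟧ := (h2 : ℝ⟦X⟧) + (u2 : ℝ⟦X⟧) * ps with hΨs'
  have htls : ∀ k, tl Fs k = gs k := by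
    intro k
    unfold tl
    rw [← hFs]
    simp only [coeff_mk]
    rw [hfs, sum_range_sub', hadm.1]
    ring
  have hΨs0 : ∀ k, 0 ≤ coeff k Ψs := by
    intro k
    rw [psi_eq (hΨrel ps), htls, htls]
    linarith [(hadm.2 k).1]
  have hΨs1 : SL1 Ψs := (SL1_poly h2).add (hs2.mul hps)
  set A : ℝ := h2.eval 1 with hA
  have hApos : 0 < A := by
    have hA0 : 0 ≤ A := by
      rw [← hsumΨ ps hps]
      exact tsum_nonneg hΨs0
    rcases hA0.eq_or_lt with h | h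
    · exfalso
      have h3 : HasSum (fun k => coeff k Ψs) 0 := by
        have := hΨs1.summable.hasSum
        rwa [hsumΨ ps hps, ← h] at this
      have h4 := (hasSum_zero_iff_of_nonneg hΨs0).1 h3
      have h5 : ∀ k, gs (k + 1) = gs k / 2 := by
        intro k
        have h6 := congrFun h4 k
        simp only [Pi.zero_apply] at h6
        rw [psi_eq (hΨrel ps), htls, htls] at h6
        linarith
      have h7 : ∀ k, gs k = (1 / 2) ^ k := by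
        intro k
        induction k with
        | zero => simp [hadm.1]
        | succ k ih => rw [h5, ih, pow_succ]; ring
      refine hgs.not_exp 1 (1 / 2) (by norm_num) (by norm_num) fun k => ?_
      rw [h5, h7]
      have : (0:ℝ) < (1 / 2) ^ k := by positivity
      linarith
    · exact h
  set s : ℝ := 1 / A with hs
  have hspos : 0 < s := by positivity
  set B : ℝ := ∑' k, |coeff k ps| with hB
  have hB0 : 0 ≤ B := tsum_nonneg fun k => abs_nonneg _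
  set ε : ℝ := 1 / (1 + B) with hε
  have hεpos : 0 < ε := by positivity
  -- the data
  set H : MatSeq 3 1 := fun i _ => ![(h0 : ℝ⟦X⟧), ((Polynomial.C s * h2 : Polynomial ℝ) : ℝ⟦X⟧), 0] i
    with hH
  set U : MatSeq 3 1 := fun i _ => ![(u0 : ℝ⟦X⟧), ((-(Polynomial.C s * u2) : Polynomial ℝ) : ℝ⟦X⟧),
    C ε] i with hU
  have hHpoly : ∀ i j, ∃ P : Polynomial ℝ, H i j = (P : ℝ⟦X⟧) := by
    intro i j
    fin_cases i
    · exact ⟨h0, rfl⟩
    · exact ⟨_, rfl⟩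
    · exact ⟨0, by simp [hH]⟩
  have hUpoly : ∀ i j, ∃ P : Polynomial ℝ, U i j = (P : ℝ⟦X⟧) := by
    intro i j
    fin_cases i
    · exact ⟨u0, rfl⟩
    · exact ⟨_, rfl⟩
    · exact ⟨Polynomial.C ε, by simp [hU]⟩
  have hVpoly : ∀ i j, ∃ P : Polynomial ℝ, (1 : MatSeq 1 1) i j = (P : ℝ⟦X⟧) := by
    intro i j
    refine ⟨1, ?_⟩
    rw [Subsingleton.elim i j, Matrix.one_apply_eq]
    simp
  have polyL1 : ∀ {p q : ℕ} (G : MatSeq p q), (∀ i j, ∃ P : Polynomial ℝ, G i j = (P : ℝ⟦X⟧)) →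
      IsL1 G := by
    intro p q G hG i j
    obtain ⟨P, hP⟩ := hG i j
    rw [hP]
    exact SL1_poly P
  have polyRat : ∀ {p q : ℕ} (G : MatSeq p q), (∀ i j, ∃ P : Polynomial ℝ, G i j = (P : ℝ⟦X⟧)) →
      IsRational G := by
    intro p q G hG i j
    obtain ⟨P, hP⟩ := hG i j
    exact ⟨P, 1, one_ne_zero, by rw [hP]; simp⟩
  -- the closed loop maps
  set Φ : MatSeq 1 1 → MatSeq 3 1 := fun Q => H - U * Q * (1 : MatSeq 1 1) with hΦdef
  have hΦ : ∀ (Q : MatSeq 1 1) (i : Fin 3), (Φ Q) i 0 = H i 0 - U i 0 * Q 0 0 := by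
    intro Q i
    simp only [hΦdef]
    rw [Matrix.mul_one, Matrix.sub_apply, Matrix.mul_apply]
    simp
  have hΦ0 : ∀ Q : MatSeq 1 1, (Φ Q) 0 0 = (h0 : ℝ⟦X⟧) - (u0 : ℝ⟦X⟧) * Q 0 0 := by
    intro Q
    rw [hΦ]
    rfl
  have hΦ1 : ∀ Q : MatSeq 1 1, (Φ Q) 1 0 = C s * ((h2 : ℝ⟦X⟧) + (u2 : ℝ⟦X⟧) * Q 0 0) := by
    intro Q
    rw [hΦ]
    simp [hH, hU]
    ring
  have hΦ2 : ∀ Q : MatSeq 1 1, (Φ Q) 2 0 = -(C ε * Q 0 0) := by
    intro Q
    rw [hΦ]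
    simp [hH, hU]
  have hrow : ∀ (Q : MatSeq 1 1) (i : Fin 3),
      ∑ j : Fin 1, ∑' k, |coeff k ((Φ Q) i j)| = ∑' k, |coeff k ((Φ Q) i 0)| := by
    intro Q i
    simp
  have hle : ∀ (Q : MatSeq 1 1) (i : Fin 3),
      ∑' k, |coeff k ((Φ Q) i 0)| ≤ norm1 (Φ Q) := by
    intro Q i
    rw [← hrow]
    exact le_ciSup (f := fun i => ∑ j : Fin 1, ∑' k, |coeff k ((Φ Q) i j)|)
      (Set.finite_range _).bddAbove i
  have hlower : ∀ Q : MatSeq 1 1, IsL1 Q → 1 ≤ norm1 (Φ Q) := by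
    intro Q hQ
    have hq : SL1 (Q 0 0) := hQ 0 0
    refine le_trans ?_ (hle Q 0)
    rw [hΦ0]
    calc (1:ℝ) = ∑' k, coeff k ((h0 : ℝ⟦X⟧) - (u0 : ℝ⟦X⟧) * Q 0 0) := by rw [hsumF _ hq, heval]
      _ ≤ _ := tsum_le_tsum_abs ((SL1_poly h0).sub (hs0.mul hq))
  set Qs : MatSeq 1 1 := fun _ _ => ps with hQs
  have hQs1 : IsL1 Qs := fun _ _ => hps
  have hupper : norm1 (Φ Qs) ≤ 1 := by
    unfold norm1
    apply ciSup_le
    intro i
    rw [hrow]
    fin_cases i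
    · change ∑' k, |coeff k ((Φ Qs) 0 0)| ≤ 1
      rw [hΦ0]
      have : ∑' k, |coeff k ((h0 : ℝ⟦X⟧) - (u0 : ℝ⟦X⟧) * Qs 0 0)| = ∑' k, fs k := by
        refine tsum_congr fun k => ?_
        have : (h0 : ℝ⟦X⟧) - (u0 : ℝ⟦X⟧) * Qs 0 0 = PowerSeries.mk fs := by rw [hFs]
        rw [this, coeff_mk, abs_of_nonneg (hfs0 k)]
      rw [this, hfs_sum.tsum_eq]
    · change ∑' k, |coeff k ((Φ Qs) 1 0)| ≤ 1
      rw [hΦ1]
      have : ∑' k, |coeff k (C s * ((h2 : ℝ⟦X⟧) + (u2 : ℝ⟦X⟧) * Qs 0 0))| = s * ∑' k, coeff k Ψs := by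
        rw [← tsum_mul_left]
        refine tsum_congr fun k => ?_
        rw [coeff_C_mul, abs_mul, abs_of_pos hspos]
        congr 1
        exact abs_of_nonneg (hΨs0 k)
      rw [this, hsumΨ ps hps, hs]
      have := hApos.ne'
      field_simp
      exact le_rfl
    · change ∑' k, |coeff k ((Φ Qs) 2 0)| ≤ 1
      rw [hΦ2]
      have : ∑' k, |coeff k (-(C ε * Qs 0 0))| = ε * B := by
        rw [hB, ← tsum_mul_left]
        refine tsum_congr fun k => ?_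
        rw [map_neg, abs_neg, coeff_C_mul, abs_mul, abs_of_pos hεpos]
      rw [this, hε, one_div, inv_mul_le_iff₀ (by positivity)]
      linarith
  refine ⟨H, U, 1, polyL1 H hHpoly, polyL1 U hUpoly, polyL1 1 hVpoly, polyRat H hHpoly,
    polyRat U hUpoly, polyRat 1 hVpoly, ⟨Qs, hQs1, fun Q' hQ' => hupper.trans (hlower Q' hQ')⟩,
    ?_, hHpoly, hUpoly, ⟨ε, hεpos.ne', rfl⟩, rfl⟩
  rintro Q ⟨hQ1, hQopt⟩ ⟨M, hM, ρ, hρ, hexp⟩
  change ∀ k i j, |coeff k (Φ Q i j)| ≤ M * ρ ^ k at hexp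
  have hn : norm1 (Φ Q) ≤ 1 := (hQopt Qs hQs1).trans hupper
  have hq : SL1 (Q 0 0) := hQ1 0 0
  set F : ℝ⟦X⟧ := (h0 : ℝ⟦X⟧) - (u0 : ℝ⟦X⟧) * Q 0 0 with hF
  set Ψ : ℝ⟦X⟧ := (h2 : ℝ⟦X⟧) + (u2 : ℝ⟦X⟧) * Q 0 0 with hΨ
  have hF1 : SL1 F := (SL1_poly h0).sub (hs0.mul hq)
  have hΨ1 : SL1 Ψ := (SL1_poly h2).add (hs2.mul hq)
  have hFpos : ∀ k, 0 ≤ coeff k F := by
    apply nonneg_of_tsum hF1
    rw [hF, hsumF _ hq, heval, ← hΦ0]
    exact (hle Q 0).trans hn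
  have hΨpos : ∀ k, 0 ≤ coeff k Ψ := by
    apply nonneg_of_tsum hΨ1
    rw [hΨ, hsumΨ _ hq]
    have h1 := (hle Q 1).trans hn
    rw [hΦ1] at h1
    have h3 : ∑' k, |coeff k (C s * ((h2 : ℝ⟦X⟧) + (u2 : ℝ⟦X⟧) * Q 0 0))| =
        s * ∑' k, |coeff k ((h2 : ℝ⟦X⟧) + (u2 : ℝ⟦X⟧) * Q 0 0)| := by
      rw [← tsum_mul_left]
      refine tsum_congr fun k => ?_
      rw [coeff_C_mul, abs_mul, abs_of_pos hspos]
    rw [h3, hs, one_div, inv_mul_le_iff₀ hApos, mul_one] at h1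
    exact h1
  have hsum1 : HasSum (fun k => coeff k F) 1 := by
    have := hF1.summable.hasSum
    rwa [hF, hsumF _ hq, heval] at this
  have hhalf : ∀ k, tl F k / 2 ≤ tl F (k + 1) := by
    intro k
    have := hΨpos k
    rw [psi_eq (hΨrel _)] at this
    linarith
  have hmin := isMin_tl hgs hps hFs hq hF hFpos hsum1 hhalf
  -- exponential decay of the first row is impossible
  have hρ0 : 0 ≤ ρ := by
    by_contra hneg
    push Not at hneg
    have h1 := hexp 1 0 0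
    rw [pow_one] at h1
    have h3 : M * ρ < 0 := mul_neg_of_pos_of_neg hM hneg
    linarith [abs_nonneg (coeff 1 ((Φ Q) 0 0))]
  refine hmin.not_exp M ρ hρ0 hρ fun k => ?_
  rw [← coeff_eq]
  have h1 := hexp k 0 0
  rw [hΦ0] at h1
  exact (le_abs_self _).trans h1

end Pool.Agent.Results.MP_7f3d09_an.SlowDecay
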