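import Mathlib
import Pool.Agent.H93.SStar.Xi

/-!
# The star-type of an S*-number and of its square

We construct a real number `ξ` with `0 < w*(ξ) < ∞` and `w*(ξ) ≠ w*(ξ ^ 2)`.

Sketch.  `ξ` is the limit of numbers `α_j = (T_j r_j) ^ (1 / 2 ^ (L_j))`, where `r_j` is a rational
number with denominator a power of `2`, `T_j` is a product of rational twisting factors close to
`1`, each exponent `L` is used infinitely often, and `|ξ - α_j|` is a fixed huge power of
`1 / H(α_j)`.  Since `α_j ^ 2` has the same height but half the degree, `ξ ^ 2` is much better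
approximable than `ξ`, provided that no other algebraic numbers approximate `ξ` too well.  The
latter is achieved by counting and by a descent lemma (`one_step` and `descent` in the imported
files): if all the twisted square roots `√(t θ)` are abnormally close to algebraic numbers of small
size, then, by resultants and by the linear independence of square roots inside a field of small
degree, the minimal polynomials involved are even, so that `θ` itself is abnormally close to an
algebraic number of half the degree.
-/

open Polynomial
open Pool.Agent.H93.SStar (ht one_le_ht natDegree_ne_zero_of_root ht_le_of_forall polyOf cf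
  polyOf_coeff mem_box xi_exists)

namespace Pool.Agent.Results.MP_d2f903_nt.SquareType

/-- The set of the real algebraic numbers `α` of degree at most `n` with
`0 < |ξ - α| ≤ H(α) ^ (-w-1)`.  Here `P` is irreducible in `ℤ[X]` with `P(α) = 0`, that is, `P` is
(up to sign) the minimal polynomial of `α` over `ℤ`; and `ht P` is the maximum absolute value of
the coefficients of `P`, so `ht P = H(α)`. -/
def approxSet (n : ℕ) (ξ w : ℝ) : Set ℝ :=
  {α : ℝ | ∃ P : ℤ[X], Irreducible P ∧ aeval α P = 0 ∧ P.natDegree ≤ n ∧
    0 < |ξ - α| ∧ |ξ - α| ≤ (ht P : ℝ) ^ (-w - 1)}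

/-- `w_n^*(ξ)`: the supremum (in `[-∞, ∞]`) of the real numbers `w` for which `approxSet n ξ w` is
infinite. -/
noncomputable def wStarN (n : ℕ) (ξ : ℝ) : EReal :=
  sSup {y : EReal | ∃ w : ℝ, y = (w : EReal) ∧ (approxSet n ξ w).Infinite}

/-- `w^*(ξ) = limsup_n w_n^*(ξ) / n`. -/
noncomputable def wStar (ξ : ℝ) : EReal :=
  Filter.limsup (fun n : ℕ => wStarN n ξ / (n : EReal)) Filter.atTop

/-- `ξ` is an `S*`-number. -/
def IsSStarNumber (ξ : ℝ) : Prop := 0 < wStar ξ ∧ wStar ξ < ⊤

/-- The `*`-type of an `S*`-number. -/
noncomputable def starType (ξ : ℝ) : EReal := wStar ξ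

end Pool.Agent.Results.MP_d2f903_nt.SquareType
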