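import Mathlib
import Pool.Agent.H93.SStar.Xi
import Pool.Agent.H29.SPL.SquareTypeDefs

/-!
# The star-type of an S*-number and of its square

We construct a real number `ξ` with `0 < w*(ξ) < ∞` and `w*(ξ) ≠ w*(ξ ^ 2)`.

Sketch.  `ξ` is the limit of numbers `α_j = (T_j r_j) ^ (1 / 2 ^ (L_j))`, where `r_j` is a rational
number with denominator a power of `2`, `T_j` is a product of rational twisting factors close to
`1`, each exponent `L` is used infinitely often, and `|ξ - α_j|` is a fixed huge power of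
`1 / H(α_j)`.  Since `α_j ^ 2` has the same height but half the degree, `ξ ^ 2` is much better
approximable than `ξ`, provided that no other algebraic numbers approximate `ξ` too well.  The
latter is achieved by counting and by a descent lemma (`one_step` and `descent` in the imported
files): if all the twisted square roots `√(t θ)` are abnormally close to algebraic numbers of small
size, then, by resultants and by the linear independence of square roots inside a field of small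
degree, the minimal polynomials involved are even, so that `θ` itself is abnormally close to an
algebraic number of half the degree.
-/

open Polynomial
open Pool.Agent.H93.SStar (ht one_le_ht natDegree_ne_zero_of_root ht_le_of_forall polyOf cf
  polyOf_coeff mem_box xi_exists)

namespace Pool.Agent.Results.MP_d2f903_nt.SquareType


lemma finite_roots (M0 H : ℕ) :
    {α : ℝ | ∃ P : ℤ[X], P ≠ 0 ∧ P.natDegree ≤ M0 ∧ ht P ≤ H ∧ aeval α P = 0}.Finite := by
  classical
  set Box := (Fintype.piFinset (fun _ : Fin (M0 + 1) => Finset.Icc (-(H : ℤ)) H)) with hBox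
  apply Set.Finite.subset (Finset.finite_toSet (Box.biUnion fun q =>
    ((polyOf q).aroots ℝ).toFinset))
  rintro α ⟨P, hP0, hPd, hPh, hPα⟩
  rw [Finset.mem_coe, Finset.mem_biUnion]
  have hpoly : polyOf (cf (M0 + 1) P) = P := polyOf_coeff P (M0 + 1) (by omega)
  refine ⟨cf (M0 + 1) P, mem_box P (M0 + 1) H hPh, ?_⟩
  rw [Multiset.mem_toFinset, hpoly, mem_aroots]
  exact ⟨hP0, hPα⟩

lemma infinite_of_close (S : Set ℝ) (z : ℝ)
    (h : ∀ δ : ℝ, 0 < δ → ∃ y ∈ S, 0 < |z - y| ∧ |z - y| < δ) : S.Infinite := by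
  intro hfin
  have hfin2 : (S \ {z}).Finite := hfin.subset Set.sdiff_subset
  have hcl : IsClosed (S \ {z}) := hfin2.isClosed
  have hz : z ∈ (S \ {z})ᶜ := by simp
  obtain ⟨ε, hε, hball⟩ := Metric.isOpen_iff.mp hcl.isOpen_compl z hz
  obtain ⟨y, hyS, hy0, hyε⟩ := h ε hε
  have hyz : y ≠ z := by
    rintro rfl; simp at hy0
  have : y ∈ Metric.ball z ε := by
    rw [Metric.mem_ball, Real.dist_eq, abs_sub_comm]; exact hyε
  exact hball this ⟨hyS, hyz⟩

lemma ht_binomial (a b k : ℕ) (y : ℝ) (ha : (a : ℝ) ≤ y) (hb : (b : ℝ) ≤ y) (hk : 1 ≤ k) :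
    (ht (C (b : ℤ) * X ^ k - C (a : ℤ)) : ℝ) ≤ y := by
  have hy : (0 : ℝ) ≤ y := le_trans (Nat.cast_nonneg a) ha
  have h1 : ht (C (b : ℤ) * X ^ k - C (a : ℤ)) ≤ ⌊y⌋₊ := by
    apply ht_le_of_forall
    intro i
    rw [coeff_sub, coeff_C_mul, coeff_X_pow, coeff_C]
    have ha' : a ≤ ⌊y⌋₊ := Nat.le_floor ha
    have hb' : b ≤ ⌊y⌋₊ := Nat.le_floor hb
    split_ifs with h1 h2
    · omega
    · simpa using hb'
    · simpa using ha'
    · simp
  calc (ht (C (b : ℤ) * X ^ k - C (a : ℤ)) : ℝ) ≤ ⌊y⌋₊ := by exact_mod_cast h1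
    _ ≤ y := Nat.floor_le hy

lemma natDegree_binomial (a b k : ℕ) (hb : 0 < b) (hk : 1 ≤ k) :
    (C (b : ℤ) * X ^ k - C (a : ℤ) : ℤ[X]).natDegree = k := by
  apply natDegree_eq_of_le_of_coeff_ne_zero
  · rw [natDegree_le_iff_coeff_eq_zero]
    intro N hN
    rw [coeff_sub, coeff_C_mul, coeff_X_pow, coeff_C, if_neg (by omega), if_neg (by omega)]
    simp
  · rw [coeff_sub, coeff_C_mul, coeff_X_pow, coeff_C, if_pos rfl, if_neg (by omega)]
    simpa using hb.ne'

/-- common lower bound mechanism -/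
lemma wStarN_ge (k e : ℕ) (hk : 1 ≤ k) (z : ℝ)
    (h : ∀ δ : ℝ, 0 < δ → ∃ (y x : ℝ) (a b : ℕ), 2 ≤ x ∧ 0 < |z - y| ∧ |z - y| < δ ∧
      |z - y| ≤ (x ^ (101 * e))⁻¹ ∧ 0 < b ∧ (b : ℝ) * y ^ k = a ∧ (a : ℝ) ≤ x ^ 101 ∧
      (b : ℝ) ≤ x ^ 101 ∧ Irreducible (C (b : ℤ) * X ^ k - C (a : ℤ) : ℤ[X])) :
    (((e : ℝ) - 1 : ℝ) : EReal) ≤ wStarN k z := by
  apply le_sSup
  refine ⟨(e : ℝ) - 1, rfl, ?_⟩
  apply infinite_of_close _ z
  intro δ hδ
  obtain ⟨y, x, a, b, hx, hy0, hyδ, hyx, hb0, hyk, ha, hb, hirr⟩ := h δ hδ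
  refine ⟨y, ⟨C (b : ℤ) * X ^ k - C (a : ℤ), hirr, ?_, (natDegree_binomial a b k hb0 hk).le,
    hy0, ?_⟩, hy0, hyδ⟩
  · rw [map_sub, map_mul, aeval_C, aeval_C, map_pow, aeval_X]
    simp only [algebraMap_int_eq, Int.coe_castRingHom, Int.cast_natCast]
    linarith
  · have hht : (ht (C (b : ℤ) * X ^ k - C (a : ℤ)) : ℝ) ≤ x ^ 101 :=
      ht_binomial a b k _ ha hb hk
    have hht1 : (1 : ℝ) ≤ (ht (C (b : ℤ) * X ^ k - C (a : ℤ)) : ℝ) := by
      exact_mod_cast one_le_ht hirr.ne_zero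
    have hexp : (-((e : ℝ) - 1) - 1) = -((e : ℕ) : ℝ) := by ring
    rw [hexp, Real.rpow_neg (by linarith), Real.rpow_natCast]
    refine hyx.trans ?_
    rw [pow_mul]
    apply inv_anti₀ (by positivity)
    exact pow_le_pow_left₀ (by linarith) hht e

lemma wStarN_le (M0 : ℕ) (ξ Tt : ℝ)
    (h : ∀ Q : ℤ[X], Irreducible Q → Q.natDegree ≤ M0 → ∀ β : ℝ,
      aeval β Q = 0 → Tt ≤ (ht Q : ℝ) ^ (1896 * Q.natDegree) →
      ((ht Q : ℝ) ^ (1900 * Q.natDegree))⁻¹ ≤ |ξ - β|) :
    wStarN M0 ξ ≤ ((1900 * M0 : ℝ) : EReal) := by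
  apply sSup_le
  rintro _ ⟨w, rfl, hinf⟩
  rw [EReal.coe_le_coe_iff]
  by_contra hcon
  push Not at hcon
  apply hinf
  apply Set.Finite.subset (finite_roots M0 (max 1 ⌈Tt⌉₊))
  rintro α ⟨P, hP, hPα, hPd, -, hclose⟩
  refine ⟨P, hP.ne_zero, hPd, ?_, hPα⟩
  have hm0 := natDegree_ne_zero_of_root hP hPα
  have hH1 : (1 : ℝ) ≤ ht P := by exact_mod_cast one_le_ht hP.ne_zero
  by_contra hbig
  push Not at hbig
  have hb1 : 1 < ht P := lt_of_le_of_lt (le_max_left _ _) hbig
  have hb2 : ⌈Tt⌉₊ < ht P := lt_of_le_of_lt (le_max_right _ _) hbig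
  have hb1' : (1 : ℝ) < ht P := by exact_mod_cast hb1
  have hTle : Tt ≤ (ht P : ℝ) ^ (1896 * P.natDegree) := by
    calc Tt ≤ ⌈Tt⌉₊ := Nat.le_ceil _
      _ ≤ (ht P : ℝ) := by exact_mod_cast hb2.le
      _ = (ht P : ℝ) ^ 1 := (pow_one _).symm
      _ ≤ (ht P : ℝ) ^ (1896 * P.natDegree) := pow_le_pow_right₀ hH1 (by omega)
  have h1 := h P hP hPd α hPα hTle
  have h2 := h1.trans hclose
  have h3 : ((ht P : ℝ) ^ (1900 * P.natDegree))⁻¹ = (ht P : ℝ) ^ (-(1900 * P.natDegree : ℕ) : ℝ) := by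
    rw [Real.rpow_neg (by linarith), Real.rpow_natCast]
  rw [h3] at h2
  have h4 := (Real.rpow_le_rpow_left_iff hb1').mp h2
  push_cast at h4
  have h5 : (P.natDegree : ℝ) ≤ M0 := by exact_mod_cast hPd
  linarith

/-- There is an `S*`-number `ξ` whose `*`-type differs from the `*`-type of `ξ ^ 2`. -/
theorem result_proof : ∃ ξ : ℝ, IsSStarNumber ξ ∧ starType ξ ≠ starType (ξ ^ 2) := by
  unfold IsSStarNumber starType
  obtain ⟨ξ, hU, hL, hξ1, hξ2⟩ := xi_exists
  have hcast : ∀ n : ℕ, (n : EReal) = ((n : ℝ) : EReal) := fun n => by simp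
  -- upper bound
  have hup : wStar ξ ≤ ((1900 : ℝ) : EReal) := by
    apply Filter.limsup_le_of_le
    · isBoundedDefault
    · filter_upwards [Filter.eventually_ge_atTop 1] with M0 hM0
      obtain ⟨Tt, hTt⟩ := hU M0
      have h1 := wStarN_le M0 ξ Tt hTt
      have hM0R : (0 : ℝ) < M0 := by exact_mod_cast hM0
      have h2 : wStarN M0 ξ / (M0 : EReal) ≤ ((1900 * M0 : ℝ) : EReal) / (M0 : EReal) :=
        EReal.div_le_div_right_of_nonneg (by positivity) h1
      refine h2.trans (le_of_eq ?_)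
      have h3 : (M0 : EReal) = ((M0 : ℝ) : EReal) := hcast _
      rw [h3, ← EReal.coe_div]
      congr 1
      field_simp
  -- lower bound for ξ
  have hlow : ((989 : ℝ) : EReal) ≤ wStar ξ := by
    apply Filter.le_limsup_of_frequently_le
    · rw [Filter.frequently_atTop]
      intro N0
      refine ⟨2 ^ (N0 + 1), ?_, ?_⟩
      · exact ((Nat.lt_two_pow_self (n := N0 + 1)).le.trans' (by omega))
      · have hn1 : 1 ≤ 2 ^ (N0 + 1) := Nat.one_le_two_pow
        have h1 := wStarN_ge (2 ^ (N0 + 1)) (990 * 2 ^ (N0 + 1)) hn1 ξ (by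
          intro δ hδ
          obtain ⟨α, x, a, b, hx, hα1, hα2, h0, hδ', hle, hb0, hab, ha, hb, hirr⟩ := hL N0 δ hδ
          refine ⟨α, x, a, b, hx, h0, hδ', ?_, hb0, ?_, ha, hb, hirr _ hn1⟩
          · refine hle.trans ?_
            apply inv_anti₀ (by positivity)
            apply pow_le_pow_right₀ (by linarith)
            omega
          · rw [hab]
            have : (b : ℝ) ≠ 0 := by exact_mod_cast hb0.ne'
            field_simp)
        have hnR : (0 : ℝ) < ((2 ^ (N0 + 1) : ℕ) : ℝ) := by positivity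
        have h2 := EReal.div_le_div_right_of_nonneg
          (c := ((2 ^ (N0 + 1) : ℕ) : EReal)) (by positivity) h1
        refine le_trans ?_ h2
        have h3 : ((2 ^ (N0 + 1) : ℕ) : EReal) = (((2 ^ (N0 + 1) : ℕ) : ℝ) : EReal) := hcast _
        rw [h3, ← EReal.coe_div, EReal.coe_le_coe_iff, le_div_iff₀ hnR]
        push_cast
        have : (1 : ℝ) ≤ 2 ^ (N0 + 1) := one_le_pow₀ (by norm_num)
        linarith
    · isBoundedDefault
  -- lower bound for ξ^2
  have hlow2 : ((1979 : ℝ) : EReal) ≤ wStar (ξ ^ 2) := by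
    apply Filter.le_limsup_of_frequently_le
    · rw [Filter.frequently_atTop]
      intro N0
      refine ⟨2 ^ N0, ?_, ?_⟩
      · exact (Nat.lt_two_pow_self (n := N0)).le
      · have hn1 : 1 ≤ 2 ^ N0 := Nat.one_le_two_pow
        have h1 := wStarN_ge (2 ^ N0) (1980 * 2 ^ N0) hn1 (ξ ^ 2) (by
          intro δ hδ
          obtain ⟨α, x, a, b, hx, hα1, hα2, h0, hδ', hle, hb0, hab, ha, hb, hirr⟩ :=
            hL N0 (δ / 4) (by positivity)
          have hfac : |ξ ^ 2 - α ^ 2| = |ξ - α| * (ξ + α) := by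
            have : ξ ^ 2 - α ^ 2 = (ξ - α) * (ξ + α) := by ring
            rw [this, abs_mul, abs_of_pos (by linarith : 0 < ξ + α)]
          have h4 : |ξ ^ 2 - α ^ 2| ≤ 4 * |ξ - α| := by
            rw [hfac]; nlinarith [abs_nonneg (ξ - α)]
          refine ⟨α ^ 2, x, a, b, hx, ?_, by linarith, ?_, hb0, ?_, ha, hb, hirr _ hn1⟩
          · rw [hfac]; apply mul_pos h0; linarith
          · refine h4.trans ?_
            have h5 : 4 * |ξ - α| ≤ 4 * (x ^ (100000 * 2 ^ (N0 + 1)))⁻¹ := by linarith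
            refine h5.trans ?_
            rw [← div_eq_mul_inv, div_le_iff₀ (by positivity)]
            rw [inv_mul_eq_div, le_div_iff₀ (by positivity)]
            calc 4 * x ^ (101 * (1980 * 2 ^ N0)) ≤ x ^ 2 * x ^ (101 * (1980 * 2 ^ N0)) := by
                  apply mul_le_mul_of_nonneg_right _ (by positivity)
                  nlinarith
              _ = x ^ (2 + 101 * (1980 * 2 ^ N0)) := by rw [← pow_add]
              _ ≤ x ^ (100000 * 2 ^ (N0 + 1)) := by
                  apply pow_le_pow_right₀ (by linarith)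
                  rw [pow_succ]; omega
          · rw [← pow_mul, ← pow_succ', hab]
            have : (b : ℝ) ≠ 0 := by exact_mod_cast hb0.ne'
            field_simp)
        have hnR : (0 : ℝ) < ((2 ^ N0 : ℕ) : ℝ) := by positivity
        have h2 := EReal.div_le_div_right_of_nonneg
          (c := ((2 ^ N0 : ℕ) : EReal)) (by positivity) h1
        refine le_trans ?_ h2
        have h3 : ((2 ^ N0 : ℕ) : EReal) = (((2 ^ N0 : ℕ) : ℝ) : EReal) := hcast _
        rw [h3, ← EReal.coe_div, EReal.coe_le_coe_iff, le_div_iff₀ hnR]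
        push_cast
        have : (1 : ℝ) ≤ 2 ^ N0 := one_le_pow₀ (by norm_num)
        linarith
    · isBoundedDefault
  refine ⟨ξ, ⟨?_, ?_⟩, ?_⟩
  · refine lt_of_lt_of_le ?_ hlow
    exact_mod_cast (by norm_num : (0 : ℝ) < 989)
  · exact lt_of_le_of_lt hup (EReal.coe_lt_top _)
  · intro heq
    rw [← heq] at hlow2
    have h1 := hlow2.trans hup
    rw [EReal.coe_le_coe_iff] at h1
    norm_num at h1

end Pool.Agent.Results.MP_d2f903_nt.SquareType
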