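import Mathlib

set_option autoImplicit false

namespace Pool.Agent.Results.MP_ba12ad_co.ThomasseDisproof

/-- `G` has no directed cycle of length at most three (no loop, no digon, no directed triangle). -/
def ShortCycleFree {V : Type} (G : Digraph V) : Prop :=
  (∀ u, ¬ G.Adj u u) ∧ (∀ u v, G.Adj u v → ¬ G.Adj v u) ∧
    (∀ u v w, G.Adj u v → G.Adj v w → ¬ G.Adj w u)

/-- The digraph `G` with the arc `u → v` added. -/
def addArc {V : Type} (G : Digraph V) (u v : V) : Digraph V :=
  ⟨fun x y => G.Adj x y ∨ (x = u ∧ y = v)⟩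

/-- `G` is short-cycle-free and adding any missing arc `u → v` (with `u ≠ v`) creates a directed
cycle of length at most three. -/
def MaximalShortCycleFree {V : Type} (G : Digraph V) : Prop :=
  ShortCycleFree G ∧ ∀ u v, u ≠ v → ¬ G.Adj u v → ¬ ShortCycleFree (addArc G u v)

/-- `X` is a homogeneous set of `G`: it has at least two vertices, is not the whole vertex set, and
every vertex outside `X` sends an arc to every vertex of `X`, or receives an arc from every vertex
of `X`, or is adjacent to no vertex of `X`. -/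
def Homogeneous {V : Type} (G : Digraph V) (X : Set V) : Prop :=
  X.Nontrivial ∧ X ≠ Set.univ ∧
    ∀ w, w ∉ X → (∀ x ∈ X, G.Adj w x) ∨ (∀ x ∈ X, G.Adj x w) ∨
      (∀ x ∈ X, ¬ G.Adj w x ∧ ¬ G.Adj x w)

/-- The circular interval digraph on the integers modulo `3 * m + 1`, with arcs `i → i + j` for
`j = 1, ..., m`. -/
def circularInterval (m : ℕ) : Digraph (ZMod (3 * m + 1)) :=
  ⟨fun u v => ∃ j : ℕ, (1 ≤ j ∧ j ≤ m) ∧ v = u + (j : ZMod (3 * m + 1))⟩

/-- The Cayley digraph of the integers modulo `3 * k + 2` with connection set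
`{1, ..., k - 1} ∪ {k + 1}`. -/
def D (k : ℕ) : Digraph (ZMod (3 * k + 2)) :=
  ⟨fun u v => ∃ j : ℕ, ((1 ≤ j ∧ j + 1 ≤ k) ∨ j = k + 1) ∧ v = u + (j : ZMod (3 * k + 2))⟩

end Pool.Agent.Results.MP_ba12ad_co.ThomasseDisproof
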