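import Mathlib
import Pool.Agent.H29.SPL.ThomasseDisproofDefs

set_option autoImplicit false

namespace Pool.Agent.Results.MP_ba12ad_co.ThomasseDisproof


lemma natCast_zero_bound {k a : ℕ} (h0 : 0 < a) (h1 : a < 2 * (3 * k + 2))
    (h : (a : ZMod (3 * k + 2)) = 0) : a = 3 * k + 2 := by
  rw [ZMod.natCast_eq_zero_iff] at h
  exact Nat.eq_of_dvd_of_lt_two_mul (by omega) h h1

lemma natCast_inj_bound {k a b : ℕ} (ha : a < 3 * k + 2) (hb : b < 3 * k + 2)
    (h : (a : ZMod (3 * k + 2)) = (b : ZMod (3 * k + 2))) : a = b := by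
  rw [ZMod.natCast_eq_natCast_iff'] at h
  rwa [Nat.mod_eq_of_lt ha, Nat.mod_eq_of_lt hb] at h

/-- Adjacency of `u` and `u + a` for a representative `a` below the modulus. -/
lemma adj_add_iff {k a : ℕ} (ha : a < 3 * k + 2) (u : ZMod (3 * k + 2)) :
    (D k).Adj u (u + (a : ZMod (3 * k + 2))) ↔ ((1 ≤ a ∧ a + 1 ≤ k) ∨ a = k + 1) := by
  constructor
  · rintro ⟨j, hj, h⟩
    have h' := add_left_cancel h
    have : a = j := natCast_inj_bound ha (by omega) h'
    subst this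
    exact hj
  · intro h
    exact ⟨a, h, rfl⟩

lemma exists_diff {k : ℕ} (u v : ZMod (3 * k + 2)) :
    ∃ a : ℕ, a < 3 * k + 2 ∧ v = u + (a : ZMod (3 * k + 2)) := by
  refine ⟨(v - u).val, ZMod.val_lt _, ?_⟩
  rw [ZMod.natCast_zmod_val]
  ring

lemma cast_n (k : ℕ) : (3 : ZMod (3 * k + 2)) * (k : ZMod (3 * k + 2)) + 2 = 0 := by
  have := ZMod.natCast_self (3 * k + 2)
  push_cast at this
  exact this

lemma shortCycleFree_D {k : ℕ} (hk : 3 ≤ k) : ShortCycleFree (D k) := by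
  refine ⟨?_, ?_, ?_⟩
  · rintro u ⟨j, hj, h⟩
    have h' : ((j : ℕ) : ZMod (3 * k + 2)) = 0 := by
      have : u + 0 = u + (j : ZMod (3 * k + 2)) := by rw [add_zero]; exact h
      exact (add_left_cancel this).symm
    have := natCast_zero_bound (by omega) (by omega) h'
    omega
  · rintro u v ⟨a, ha, h1⟩ ⟨b, hb, h2⟩
    have h' : ((a + b : ℕ) : ZMod (3 * k + 2)) = 0 := by
      have : u + 0 = u + ((a : ZMod (3 * k + 2)) + b) := by
        rw [add_zero, ← add_assoc, ← h1]; exact h2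
      push_cast
      exact (add_left_cancel this).symm
    have := natCast_zero_bound (by omega) (by omega) h'
    omega
  · rintro u v w ⟨a, ha, h1⟩ ⟨b, hb, h2⟩ ⟨c, hc, h3⟩
    have h' : ((a + b + c : ℕ) : ZMod (3 * k + 2)) = 0 := by
      have : u + 0 = u + ((a : ZMod (3 * k + 2)) + b + c) := by
        rw [add_zero, ← add_assoc, ← add_assoc, ← h1, ← h2]; exact h3
      push_cast
      exact (add_left_cancel this).symm
    have := natCast_zero_bound (by omega) (by omega) h'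
    omega

lemma maximal_D {k : ℕ} (hk : 3 ≤ k) : MaximalShortCycleFree (D k) := by
  refine ⟨shortCycleFree_D hk, ?_⟩
  intro u v huv hadj hfree
  obtain ⟨-, h2, h3⟩ := hfree
  have key : (D k).Adj v u ∨ ∃ w, (D k).Adj v w ∧ (D k).Adj w u := by
    obtain ⟨d, hd, rfl⟩ := exists_diff v u
    -- `u = v + d`
    have hd0 : d ≠ 0 := by
      rintro rfl
      apply huv
      simp
    -- the arc `u → v` corresponds to the residue `3 * k + 2 - d`
    have hv : v = v + (d : ZMod (3 * k + 2)) + ((3 * k + 2 - d : ℕ) : ZMod (3 * k + 2)) := by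
      have : ((d + (3 * k + 2 - d) : ℕ) : ZMod (3 * k + 2)) = 0 := by
        have : d + (3 * k + 2 - d) = 3 * k + 2 := by omega
        rw [this]
        exact ZMod.natCast_self _
      rw [add_assoc, ← Nat.cast_add, this, add_zero]
    have hnot : ¬ ((1 ≤ 3 * k + 2 - d ∧ 3 * k + 2 - d + 1 ≤ k) ∨ 3 * k + 2 - d = k + 1) := by
      intro h
      apply hadj
      have := (adj_add_iff (by omega : 3 * k + 2 - d < 3 * k + 2)
        (v + (d : ZMod (3 * k + 2)))).2 h
      rw [← hv] at this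
      exact this
    by_cases hS : (1 ≤ d ∧ d + 1 ≤ k) ∨ d = k + 1
    · left
      exact (adj_add_iff hd v).2 hS
    · right
      -- write `d = a + b`
      have : ∃ a b : ℕ, ((1 ≤ a ∧ a + 1 ≤ k) ∨ a = k + 1) ∧ ((1 ≤ b ∧ b + 1 ≤ k) ∨ b = k + 1) ∧
          d = a + b := by
        by_cases h1 : d = k
        · exact ⟨1, k - 1, by omega, by omega, by omega⟩
        · by_cases h2 : d = 2 * k + 2
          · exact ⟨k + 1, k + 1, by omega, by omega, by omega⟩
          · exact ⟨k + 1, d - (k + 1), by omega, by omega, by omega⟩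
      obtain ⟨a, b, ha, hb, rfl⟩ := this
      refine ⟨v + (a : ZMod (3 * k + 2)), ⟨a, ha, rfl⟩, ⟨b, hb, ?_⟩⟩
      push_cast
      ring
  rcases key with h | ⟨w, hw1, hw2⟩
  · exact h2 u v (Or.inr ⟨rfl, rfl⟩) (Or.inl h)
  · exact h3 u v w (Or.inr ⟨rfl, rfl⟩) (Or.inl hw1) (Or.inl hw2)

section Prime

variable {k : ℕ} {X : Set (ZMod (3 * k + 2))}

lemma mem_of_out (hk : 3 ≤ k) (hX : ∀ w, w ∉ X → (∀ x ∈ X, (D k).Adj w x) ∨
      (∀ x ∈ X, (D k).Adj x w) ∨ (∀ x ∈ X, ¬ (D k).Adj w x ∧ ¬ (D k).Adj x w))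
    {x y w : ZMod (3 * k + 2)} (hx : x ∈ X) (hy : y ∈ X) (h1 : (D k).Adj x w)
    (h2 : ¬ (D k).Adj y w) : w ∈ X := by
  by_contra hw
  rcases hX w hw with h | h | h
  · exact (shortCycleFree_D hk).2.1 _ _ (h x hx) h1
  · exact h2 (h y hy)
  · exact (h x hx).2 h1

lemma step_B (hk : 3 ≤ k) (hX : ∀ w, w ∉ X → (∀ x ∈ X, (D k).Adj w x) ∨
      (∀ x ∈ X, (D k).Adj x w) ∨ (∀ x ∈ X, ¬ (D k).Adj w x ∧ ¬ (D k).Adj x w))
    {z : ZMod (3 * k + 2)} (h0 : z ∈ X) (h1 : z + 1 ∈ X) :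
    z + (k : ZMod (3 * k + 2)) ∈ X ∧ z + (k : ZMod (3 * k + 2)) + 1 ∈ X ∧
      z + (k : ZMod (3 * k + 2)) + 2 ∈ X := by
  refine ⟨?_, ?_, ?_⟩
  · refine mem_of_out hk hX h1 h0 ⟨k - 1, by omega, ?_⟩ ?_
    · have : (1 : ZMod (3 * k + 2)) + ((k - 1 : ℕ) : ZMod (3 * k + 2)) = k := by
        have : 1 + (k - 1) = k := by omega
        exact_mod_cast congrArg (fun t : ℕ => (t : ZMod (3 * k + 2))) this
      rw [add_assoc, this]
    · rw [adj_add_iff (by omega)]
      omega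
  · refine mem_of_out hk hX h0 h1 ⟨k + 1, by omega, ?_⟩ ?_
    · push_cast; ring
    · have : z + (k : ZMod (3 * k + 2)) + 1 = z + 1 + (k : ZMod (3 * k + 2)) := by ring
      rw [this, adj_add_iff (by omega)]
      omega
  · refine mem_of_out hk hX h1 h0 ⟨k + 1, by omega, ?_⟩ ?_
    · push_cast; ring
    · have : z + (k : ZMod (3 * k + 2)) + 2 = z + ((k + 2 : ℕ) : ZMod (3 * k + 2)) := by
        push_cast; ring
      rw [this, adj_add_iff (by omega)]
      omega

lemma step_C (hk : 3 ≤ k) (hX : ∀ w, w ∉ X → (∀ x ∈ X, (D k).Adj w x) ∨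
      (∀ x ∈ X, (D k).Adj x w) ∨ (∀ x ∈ X, ¬ (D k).Adj w x ∧ ¬ (D k).Adj x w))
    {z : ZMod (3 * k + 2)} (h0 : z ∈ X) (h1 : z + 1 ∈ X) : z + 2 ∈ X := by
  obtain ⟨a0, a1, a2⟩ := step_B hk hX h0 h1
  have a2' : z + (k : ZMod (3 * k + 2)) + 1 + 1 ∈ X := by
    have : z + (k : ZMod (3 * k + 2)) + 1 + 1 = z + (k : ZMod (3 * k + 2)) + 2 := by ring
    rw [this]; exact a2
  obtain ⟨-, b1, b2⟩ := step_B hk hX a1 a2'
  -- `b1 : z + k + 1 + k + 1`, `b2 : z + k + 1 + k + 2`
  have b2' : z + (k : ZMod (3 * k + 2)) + 1 + (k : ZMod (3 * k + 2)) + 1 + 1 ∈ X := by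
    have : z + (k : ZMod (3 * k + 2)) + 1 + (k : ZMod (3 * k + 2)) + 1 + 1
        = z + (k : ZMod (3 * k + 2)) + 1 + (k : ZMod (3 * k + 2)) + 2 := by ring
    rw [this]; exact b2
  obtain ⟨-, -, c2⟩ := step_B hk hX b1 b2'
  have hn := cast_n k
  have : z + (k : ZMod (3 * k + 2)) + 1 + (k : ZMod (3 * k + 2)) + 1 + (k : ZMod (3 * k + 2)) + 2
      = z + 2 := by
    linear_combination hn
  rw [this] at c2
  exact c2

lemma step_A (hk : 3 ≤ k) (hX : ∀ w, w ∉ X → (∀ x ∈ X, (D k).Adj w x) ∨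
      (∀ x ∈ X, (D k).Adj x w) ∨ (∀ x ∈ X, ¬ (D k).Adj w x ∧ ¬ (D k).Adj x w))
    {x : ZMod (3 * k + 2)} {d : ℕ} (hd1 : 1 ≤ d) (hd2 : d ≤ 2 * k) (hx : x ∈ X)
    (hy : x + (d : ZMod (3 * k + 2)) ∈ X) : x + 1 ∈ X := by
  refine mem_of_out hk hX hx hy ⟨1, by omega, by simp⟩ ?_
  have : x + 1 = x + (d : ZMod (3 * k + 2)) + ((3 * k + 2 + 1 - d : ℕ) : ZMod (3 * k + 2)) := by
    have h : d + (3 * k + 2 + 1 - d) = (3 * k + 2) + 1 := by omega
    rw [add_assoc, ← Nat.cast_add, h]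
    push_cast
    linear_combination - cast_n k
  rw [this]
  rcases Nat.lt_or_ge (3 * k + 2 + 1 - d) (3 * k + 2) with h | h
  · rw [adj_add_iff h]
    omega
  · have : 3 * k + 2 + 1 - d = 3 * k + 2 := by omega
    rw [this, ZMod.natCast_self, add_zero]
    exact (shortCycleFree_D hk).1 _

lemma no_homogeneous (hk : 3 ≤ k) : ¬ ∃ X : Set (ZMod (3 * k + 2)), Homogeneous (D k) X := by
  rintro ⟨X, ⟨x, hx, y, hy, hxy⟩, hne, hX⟩
  apply hne
  have hz : ∃ z, z ∈ X ∧ z + 1 ∈ X := by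
    obtain ⟨d, hd, rfl⟩ := exists_diff x y
    have hd0 : d ≠ 0 := by
      rintro rfl
      apply hxy
      simp
    by_cases h : d ≤ 2 * k
    · exact ⟨x, hx, step_A hk hX (by omega) h hx hy⟩
    · refine ⟨x + (d : ZMod (3 * k + 2)), hy, ?_⟩
      have hx' : x + (d : ZMod (3 * k + 2)) + ((3 * k + 2 - d : ℕ) : ZMod (3 * k + 2)) ∈ X := by
        have h1 : d + (3 * k + 2 - d) = 3 * k + 2 := by omega
        rw [add_assoc, ← Nat.cast_add, h1, ZMod.natCast_self, add_zero]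
        exact hx
      exact step_A hk hX (by omega) (by omega) hy hx'
  obtain ⟨z, hz0, hz1⟩ := hz
  have hall : ∀ j : ℕ, z + (j : ZMod (3 * k + 2)) ∈ X ∧ z + (j : ZMod (3 * k + 2)) + 1 ∈ X := by
    intro j
    induction j with
    | zero => simpa using ⟨hz0, hz1⟩
    | succ j ih =>
      obtain ⟨i0, i1⟩ := ih
      have := step_C hk hX i0 i1
      refine ⟨?_, ?_⟩
      · have e : z + ((j + 1 : ℕ) : ZMod (3 * k + 2)) = z + (j : ZMod (3 * k + 2)) + 1 := by
          push_cast; ring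
        rw [e]; exact i1
      · have e : z + ((j + 1 : ℕ) : ZMod (3 * k + 2)) + 1 = z + (j : ZMod (3 * k + 2)) + 2 := by
          push_cast; ring
        rw [e]; exact this
  rw [Set.eq_univ_iff_forall]
  intro v
  obtain ⟨d, -, rfl⟩ := exists_diff z v
  exact (hall d).1

end Prime

/-- The connection set as a finite set of natural numbers. -/
lemma card_conn {k : ℕ} (hk : 3 ≤ k) :
    (Finset.Icc 1 (k - 1) ∪ {k + 1} : Finset ℕ).card = k := by
  rw [Finset.card_union_of_disjoint]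
  · simp
    omega
  · rw [Finset.disjoint_singleton_right, Finset.mem_Icc]
    omega

lemma outdeg {k : ℕ} (hk : 3 ≤ k) (u : ZMod (3 * k + 2)) : {v | (D k).Adj u v}.ncard = k := by
  have : {v | (D k).Adj u v}
      = (fun j : ℕ => u + (j : ZMod (3 * k + 2))) ''
        ((Finset.Icc 1 (k - 1) ∪ {k + 1} : Finset ℕ) : Set ℕ) := by
    ext v
    constructor
    · rintro ⟨j, hj, rfl⟩
      refine ⟨j, ?_, rfl⟩
      simp only [Finset.coe_union, Finset.coe_Icc, Finset.coe_singleton, Set.mem_union,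
        Set.mem_Icc, Set.mem_singleton_iff]
      omega
    · rintro ⟨j, hj, rfl⟩
      refine ⟨j, ?_, rfl⟩
      simp only [Finset.coe_union, Finset.coe_Icc, Finset.coe_singleton, Set.mem_union,
        Set.mem_Icc, Set.mem_singleton_iff] at hj
      omega
  rw [this, Set.InjOn.ncard_image, Set.ncard_coe_finset, card_conn hk]
  intro a ha b hb hab
  simp only [Finset.coe_union, Finset.coe_Icc, Finset.coe_singleton, Set.mem_union,
    Set.mem_Icc, Set.mem_singleton_iff] at ha hb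
  exact natCast_inj_bound (by omega) (by omega) (add_left_cancel hab)

lemma indeg {k : ℕ} (hk : 3 ≤ k) (u : ZMod (3 * k + 2)) : {v | (D k).Adj v u}.ncard = k := by
  have : {v | (D k).Adj v u}
      = (fun j : ℕ => u - (j : ZMod (3 * k + 2))) ''
        ((Finset.Icc 1 (k - 1) ∪ {k + 1} : Finset ℕ) : Set ℕ) := by
    ext v
    constructor
    · rintro ⟨j, hj, rfl⟩
      refine ⟨j, ?_, by simp⟩
      simp only [Finset.coe_union, Finset.coe_Icc, Finset.coe_singleton, Set.mem_union,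
        Set.mem_Icc, Set.mem_singleton_iff]
      omega
    · rintro ⟨j, hj, rfl⟩
      refine ⟨j, ?_, by simp⟩
      simp only [Finset.coe_union, Finset.coe_Icc, Finset.coe_singleton, Set.mem_union,
        Set.mem_Icc, Set.mem_singleton_iff] at hj
      omega
  rw [this, Set.InjOn.ncard_image, Set.ncard_coe_finset, card_conn hk]
  intro a ha b hb hab
  simp only [Finset.coe_union, Finset.coe_Icc, Finset.coe_singleton, Set.mem_union,
    Set.mem_Icc, Set.mem_singleton_iff] at ha hb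
  exact natCast_inj_bound (by omega) (by omega) (sub_right_inj.1 hab)

/-- For every `k ≥ 3` the Cayley digraph of the integers modulo `n = 3 * k + 2` with connection set
`{1, ..., k - 1, k + 1}` is a maximal digraph without directed cycles of length at most three, has
no homogeneous set, has all outdegrees and indegrees equal to `k > 4 n / 15`, and is isomorphic to
no circular interval digraph.  As `k / n` tends to `1 / 3`, no threshold below `n / 3` makes the
asserted classification true. -/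
theorem result_proof (k : ℕ) (hk : 3 ≤ k) :
    MaximalShortCycleFree (D k) ∧
    (¬ ∃ X : Set (ZMod (3 * k + 2)), Homogeneous (D k) X) ∧
    (∀ u : ZMod (3 * k + 2), {v | (D k).Adj u v}.ncard = k ∧ {v | (D k).Adj v u}.ncard = k) ∧
    (4 * (3 * k + 2 : ℕ) : ℝ) / 15 < k ∧
    (∀ m : ℕ, IsEmpty ((D k).Adj ≃r (circularInterval m).Adj)) := by
  refine ⟨maximal_D hk, no_homogeneous hk, fun u => ⟨outdeg hk u, indeg hk u⟩, ?_, ?_⟩
  · have : (3 : ℝ) ≤ k := by exact_mod_cast hk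
    push_cast
    linarith
  · intro m
    refine ⟨fun e => ?_⟩
    have h := Fintype.card_congr e.toEquiv
    rw [ZMod.card, ZMod.card] at h
    omega

end Pool.Agent.Results.MP_ba12ad_co.ThomasseDisproof
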